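import Pool.Agent.H83.AG.SA2
import Pool.Graph.R_seed8.W646.AG.Scale
import Pool.Graph.R_seed8.W646.AG.StepB
import Pool.Graph.R_seed8.W342.AG.Pair

/-!
The chain of stages.
-/

set_option autoImplicit false
set_option linter.unusedSectionVars false

open MeasureTheory Metric Set Filter Topology
open scoped ENNReal RealInnerProductSpace

namespace Pool.Agent.H83.AG

open Pool.Agent.W778.AG

variable {m : ℕ}

/-- the odd kernel -/
noncomputable def Qk (m q : ℕ) (c t : ℝ) : ℝ :=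
  ∑ k ∈ (Finset.range (2 * q)).filter (fun k => Odd k),
    dk (m + 3) k * Pg (m + 3) k c * Pg (m + 3) k t

lemma Qk_cont (m q : ℕ) (c : ℝ) : Continuous (Qk m q c) := by
  unfold Qk
  apply continuous_finsetSum
  intro k _
  have := Pg_cont m k
  fun_prop

lemma Qk_odd (m q : ℕ) (c t : ℝ) : Qk m q c (-t) = -Qk m q c t := by
  unfold Qk
  rw [← Finset.sum_neg_distrib]
  refine Finset.sum_congr rfl fun k hk => ?_
  have ho := (Finset.mem_filter.1 hk).2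
  rw [par (m + 3) k t, ho.neg_one_pow]
  ring

lemma Of_eq (q : ℕ) (α : ℝ) {μ μ' : Measure (En (m + 3))} (h : Sph μ) (h' : Sph μ') :
    Of (m + 3) q α μ μ' = ∫ p, Qk m q (Real.cos α) ⟪p.1, p.2⟫ ∂(μ.prod μ') := by
  have := h.1
  have := h'.1
  unfold Of Qk
  rw [integral_finsetSum]
  · refine Finset.sum_congr rfl fun k _ => ?_
    rw [integral_const_mul, fm_prod k h h']
  · intro k _
    apply Integrable.const_mul
    have hPc := Pg_cont m k
    refine int_prod (Sph.ae h) (Sph.ae h') _ ?_ 1 ?_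
    · apply Continuous.measurable
      fun_prop
    · intro u v hu hv
      exact Pg_abs_le m k (inner_abs hu hv)

lemma Of_symm (q : ℕ) (α : ℝ) {μ μ' : Measure (En (m + 3))} (h : Sph μ) (h' : Sph μ') :
    Of (m + 3) q α μ μ' = Of (m + 3) q α μ' μ := by
  unfold Of
  refine Finset.sum_congr rfl fun k _ => ?_
  rw [fm_symm k h h']

lemma Qk_bdd (m q : ℕ) (c : ℝ) : ∃ C : ℝ, ∀ t, |t| ≤ 1 → |Qk m q c t| ≤ C := by
  obtain ⟨C, hC⟩ := (isCompact_Icc (a := (-1 : ℝ)) (b := 1)).exists_bound_of_continuousOn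
    (Qk_cont m q c).continuousOn
  exact ⟨C, fun t ht => hC t (abs_le.1 ht)⟩

lemma Qk_int (q : ℕ) (c : ℝ) {μ μ' : Measure (En (m + 3))} (h : Sph μ) (h' : Sph μ') :
    Integrable (fun p : En (m + 3) × En (m + 3) => Qk m q c ⟪p.1, p.2⟫) (μ.prod μ') := by
  have := h.1
  have := h'.1
  obtain ⟨C, hC⟩ := Qk_bdd m q c
  have hQ := Qk_cont m q c
  refine int_prod (Sph.ae h) (Sph.ae h') _ ?_ C ?_
  · apply Continuous.measurable
    fun_prop
  · intro u v hu hv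
    exact hC _ (inner_abs hu hv)

lemma sph_of_map {ω : Measure (En (m + 3))} (hω : IsProbabilityMeasure ω)
    {f : En (m + 3) → En (m + 3)} (hf : Measurable f) (nf : ∀ᵐ x ∂ω, ‖f x‖ = 1) :
    Sph (ω.map f) := by
  refine ⟨Measure.isProbabilityMeasure_map hf.aemeasurable, ?_⟩
  rw [Measure.map_apply hf isClosed_sphere.measurableSet.compl]
  have : ∀ᵐ x ∂ω, f x ∈ sphere (0 : En (m + 3)) 1 := by
    filter_upwards [nf] with x hx
    rw [mem_sphere_zero_iff_norm, hx]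
  rw [ae_iff] at this
  exact this

lemma Of_near (q : ℕ) (α : ℝ) {ω ω' : Measure (En (m + 3))} (hω : IsProbabilityMeasure ω)
    (hω' : IsProbabilityMeasure ω') {f f' g g' : En (m + 3) → En (m + 3)} (hf : Measurable f)
    (hf' : Measurable f') (hg : Measurable g) (hg' : Measurable g')
    (nf : ∀ᵐ x ∂ω, ‖f x‖ = 1) (nf' : ∀ᵐ x ∂ω, ‖f' x‖ = 1)
    (ng : ∀ᵐ x ∂ω', ‖g x‖ = 1) (ng' : ∀ᵐ x ∂ω', ‖g' x‖ = 1) {δ₀ η₀ : ℝ}
    (hQ : ∀ s t : ℝ, |s| ≤ 1 → |t| ≤ 1 → |s - t| ≤ δ₀ →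
      |Qk m q (Real.cos α) s - Qk m q (Real.cos α) t| ≤ η₀)
    (h1 : ∀ᵐ x ∂ω, ‖f x - f' x‖ ≤ δ₀ / 2) (h2 : ∀ᵐ x ∂ω', ‖g x - g' x‖ ≤ δ₀ / 2) :
    |Of (m + 3) q α (ω.map f) (ω'.map g) - Of (m + 3) q α (ω.map f') (ω'.map g')| ≤ η₀ := by
  set c := Real.cos α with hc
  have s1 := sph_of_map hω hf nf
  have s2 := sph_of_map hω' hg ng
  have s1' := sph_of_map hω hf' nf'
  have s2' := sph_of_map hω' hg' ng'
  have i1 := Qk_int q c s1 s2
  have i2 := Qk_int q c s1' s2'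
  rw [Of_eq q α s1 s2, Of_eq q α s1' s2']
  have hQc := Qk_cont m q c
  rw [Measure.map_prod_map _ _ hf hg] at i1 ⊢
  rw [Measure.map_prod_map _ _ hf' hg'] at i2 ⊢
  have hFm : Measurable (fun p : En (m + 3) × En (m + 3) => Qk m q c ⟪p.1, p.2⟫) := by
    apply Continuous.measurable
    fun_prop
  have j1 : Integrable (fun p => Qk m q c ⟪f p.1, g p.2⟫) (ω.prod ω') :=
    (integrable_map_measure hFm.aestronglyMeasurable (hf.prodMap hg).aemeasurable).1 i1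
  have j2 : Integrable (fun p => Qk m q c ⟪f' p.1, g' p.2⟫) (ω.prod ω') :=
    (integrable_map_measure hFm.aestronglyMeasurable (hf'.prodMap hg').aemeasurable).1 i2
  rw [integral_map (hf.prodMap hg).aemeasurable hFm.aestronglyMeasurable,
    integral_map (hf'.prodMap hg').aemeasurable hFm.aestronglyMeasurable]
  show |∫ p, Qk m q c ⟪f p.1, g p.2⟫ ∂(ω.prod ω') -
    ∫ p, Qk m q c ⟪f' p.1, g' p.2⟫ ∂(ω.prod ω')| ≤ η₀
  rw [← integral_sub j1 j2]
  have h3 : ∀ᵐ p ∂(ω.prod ω'), ‖Qk m q c ⟪f p.1, g p.2⟫ - Qk m q c ⟪f' p.1, g' p.2⟫‖ ≤ η₀ := by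
    have b1 : ∀ᵐ x ∂ω, ‖f x‖ = 1 ∧ ‖f' x‖ = 1 ∧ ‖f x - f' x‖ ≤ δ₀ / 2 := by
      filter_upwards [nf, nf', h1] with x a b c using ⟨a, b, c⟩
    have b2 : ∀ᵐ x ∂ω', ‖g x‖ = 1 ∧ ‖g' x‖ = 1 ∧ ‖g x - g' x‖ ≤ δ₀ / 2 := by
      filter_upwards [ng, ng', h2] with x a b c using ⟨a, b, c⟩
    have a1 : ∀ᵐ p ∂(ω.prod ω'), ‖f p.1‖ = 1 ∧ ‖f' p.1‖ = 1 ∧ ‖f p.1 - f' p.1‖ ≤ δ₀ / 2 :=
      Measure.quasiMeasurePreserving_fst.ae b1
    have a2 : ∀ᵐ p ∂(ω.prod ω'), ‖g p.2‖ = 1 ∧ ‖g' p.2‖ = 1 ∧ ‖g p.2 - g' p.2‖ ≤ δ₀ / 2 :=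
      Measure.quasiMeasurePreserving_snd.ae b2
    filter_upwards [a1, a2] with p b1 b2
    obtain ⟨n1, n2, n3⟩ := b1
    obtain ⟨n4, n5, n6⟩ := b2
    apply hQ _ _ (inner_abs n1 n4) (inner_abs n2 n5)
    have e : ⟪f p.1, g p.2⟫ - ⟪f' p.1, g' p.2⟫ =
        ⟪f p.1 - f' p.1, g p.2⟫ + ⟪f' p.1, g p.2 - g' p.2⟫ := by
      rw [inner_sub_left, inner_sub_right]
      ring
    rw [e]
    refine (abs_add_le _ _).trans ?_
    have e1 := abs_real_inner_le_norm (f p.1 - f' p.1) (g p.2)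
    have e2 := abs_real_inner_le_norm (f' p.1) (g p.2 - g' p.2)
    rw [n4, mul_one] at e1
    rw [n2, one_mul] at e2
    linarith
  have h4 := norm_integral_le_of_norm_le_const h3
  have h5 : (ω.prod ω').real univ = 1 := probReal_univ
  rw [h5, mul_one] at h4
  exact h4

lemma Qk_unif (m q : ℕ) (c : ℝ) {η₀ : ℝ} (h : 0 < η₀) : ∃ δ₀ : ℝ, 0 < δ₀ ∧ ∀ s t : ℝ, |s| ≤ 1 →
    |t| ≤ 1 → |s - t| ≤ δ₀ → |Qk m q c s - Qk m q c t| ≤ η₀ := by
  have h1 := (isCompact_Icc (a := (-1 : ℝ)) (b := 1)).uniformContinuousOn_of_continuous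
    (Qk_cont m q c).continuousOn
  rw [Metric.uniformContinuousOn_iff] at h1
  obtain ⟨δ, hδ, h2⟩ := h1 η₀ h
  refine ⟨δ / 2, half_pos hδ, fun s t hs ht hst => ?_⟩
  have h3 := h2 s (abs_le.1 hs) t (abs_le.1 ht) (by rw [Real.dist_eq]; linarith)
  rw [Real.dist_eq] at h3
  exact h3.le

/-- the function of the general step -/
noncomputable def psi (m q : ℕ) (c : ℝ) {J : ℕ} (μ : Fin J → Measure (En (m + 3)))
    (u : En (m + 3)) : ℝ := ∑ i, ∫ v, Qk m q c ⟪v, u⟫ ∂(μ i)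

lemma psi_cont (q : ℕ) (c : ℝ) {J : ℕ} (μ : Fin J → Measure (En (m + 3))) (hμ : ∀ i, Sph (μ i)) :
    Continuous (psi m q c μ) := by
  unfold psi
  apply continuous_finsetSum
  intro i _
  have := (hμ i).1
  have hQ := Qk_cont m q c
  have h1 : Continuous (fun u => ∫ v in sphere (0 : En (m + 3)) 1, Qk m q c ⟪v, u⟫ ∂(μ i)) := by
    apply continuous_parametric_integral_of_continuous
    · show Continuous (fun p : En (m + 3) × En (m + 3) => Qk m q c ⟪p.2, p.1⟫)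
      fun_prop
    · exact isCompact_sphere _ _
  have h2 : (μ i).restrict (sphere (0 : En (m + 3)) 1) = μ i := by
    rw [Measure.restrict_eq_self_of_ae_mem]
    filter_upwards [Sph.ae (hμ i)] with v hv
    rw [mem_sphere_zero_iff_norm, hv]
  rwa [h2] at h1

lemma psi_odd (q : ℕ) (c : ℝ) {J : ℕ} (μ : Fin J → Measure (En (m + 3))) (u : En (m + 3)) :
    psi m q c μ (-u) = -psi m q c μ u := by
  unfold psi
  rw [← Finset.sum_neg_distrib]
  refine Finset.sum_congr rfl fun i _ => ?_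
  rw [← integral_neg]
  simp only [inner_neg_right, Qk_odd]

lemma psi_int (q : ℕ) (α : ℝ) {J : ℕ} (μ : Fin J → Measure (En (m + 3))) (hμ : ∀ i, Sph (μ i))
    {μ' : Measure (En (m + 3))} (hμ' : Sph μ') :
    ∫ u, psi m q (Real.cos α) μ u ∂μ' = ∑ i, Of (m + 3) q α (μ i) μ' := by
  have := hμ'.1
  unfold psi
  rw [integral_finsetSum]
  · refine Finset.sum_congr rfl fun i _ => ?_
    have := (hμ i).1
    rw [Of_eq q α (hμ i) hμ', integral_prod_symm _ (Qk_int q _ (hμ i) hμ')]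
  · intro i _
    have := (hμ i).1
    exact (Qk_int q _ (hμ i) hμ').integral_prod_right

end Pool.Agent.H83.AG
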