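import Pool.Agent.H83.AG.Chain

/-!
The chain of stages, conclusion.
-/

set_option autoImplicit false
set_option linter.unusedSectionVars false

open MeasureTheory Metric Set Filter Topology
open scoped ENNReal RealInnerProductSpace

namespace Pool.Agent.H83.AG

open Pool.Agent.W778.AG

lemma exists_min {J : ℕ} (f : Fin J → ℝ) (hf : ∀ i, 0 < f i) : ∃ ε : ℝ, 0 < ε ∧ ∀ i, ε ≤ f i := by
  rcases isEmpty_or_nonempty (Fin J) with h | h
  · exact ⟨1, one_pos, fun i => (h.false i).elim⟩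
  · obtain ⟨i, hi⟩ := Finite.exists_min f
    exact ⟨f i, hf i, hi⟩

lemma Wit.shrink {n : ℕ} {κ R β : ℝ} {ν : Measure (En n)} {y₀ y : En n} {ω : Measure (En n)}
    {a D : ℝ} (h : Wit n κ R β ν y₀ ω a D) (hy : dist y y₀ ≤ a / 4) :
    Wit n κ R β ν y ω (a / 2) D := by
  obtain ⟨h1, h2, h3, h4, h5, h6⟩ := h
  refine ⟨h1, h2, half_pos h3, measure_mono_null (ball_subset_ball' ?_) h4, h5, fun y' hy' =>
    h6 y' ?_⟩
  · linarith
  · have := dist_triangle y' y y₀
    linarith

lemma ball_ae {n : ℕ} {ω : Measure (En n)} {y : En n} {a : ℝ} (h : ω (ball y a) = 0) :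
    ∀ᵐ x ∂ω, a ≤ dist x y := by
  rw [ae_iff]
  refine measure_mono_null ?_ h
  intro x hx
  simpa using hx

lemma sum_cons {J : ℕ} (F : Fin (J + 1) → Fin (J + 1) → ℝ) :
    ∑ i, ∑ j ∈ Finset.univ.filter (fun j => i < j), F i j =
      ∑ j : Fin J, F 0 j.succ +
        ∑ i : Fin J, ∑ j ∈ Finset.univ.filter (fun j => i < j), F i.succ j.succ := by
  rw [Fin.sum_univ_succ]
  congr 1
  · rw [Finset.sum_filter, Fin.sum_univ_succ]
    simp
  · refine Finset.sum_congr rfl fun i _ => ?_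
    rw [Finset.sum_filter, Fin.sum_univ_succ, Finset.sum_filter]
    simp [Fin.succ_lt_succ_iff]

lemma sbb : S_BB :=
  Pool.Agent.W646.AG.scale (Pool.Agent.W646.AG.stepB Pool.Agent.W342.AG.pair mean)

/-- chain of stages -/
theorem chain : S_CHAIN := by
  intro n q α κ R β τ C δ ν K hn hκ0 hκ1 hR0 hR1 hβ0 hβ1 hτ hC hδ hcon hν hK hνK hball J
  obtain ⟨m, rfl⟩ : ∃ m, n = m + 3 := ⟨n - 3, by omega⟩
  have hK' : ∀ y, (∀ δ : ℝ, 0 < δ → 0 < ν (ball y δ)) → y ∈ K := by
    intro y hy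
    by_contra hyK
    obtain ⟨ε, hε, hb⟩ := Metric.isOpen_iff.1 hK.isClosed.isOpen_compl y hyK
    exact (hy ε hε).ne' (measure_mono_null hb hνK)
  induction J with
  | zero =>
    have h1 : ν K ≠ 0 := by
      intro h0
      have h2 : ν univ = 0 := by
        rw [← union_compl_self K]
        exact measure_union_null h0 hνK
      rw [measure_univ] at h2
      exact one_ne_zero h2
    obtain ⟨y, hyK, hy⟩ := exists_mem_forall_mem_nhdsWithin_pos_measure h1
    refine ⟨y, Fin.elim0, Fin.elim0, Fin.elim0, hyK, fun ε hε => ?_, fun i => i.elim0, ?_⟩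
    · exact hy _ (mem_nhdsWithin_of_mem_nhds (ball_mem_nhds y hε))
    · simp
  | succ J ih =>
    obtain ⟨y₀, ω, a, D, hy₀K, hy₀, hW, hsum⟩ := ih
    set c := Real.cos α with hc
    set X := τ * (4 * (1 + R) ^ (m + 3)) with hX
    set η₀ : ℝ := δ / ((J : ℝ) ^ 2 + J + 1) with hη₀
    have hη₀pos : 0 < η₀ := by positivity
    obtain ⟨δ₀, hδ₀, hQ⟩ := Qk_unif m q c hη₀pos
    obtain ⟨ε, hε, hεa⟩ := exists_min (fun i => min (a i / 4) (a i * δ₀ / 4)) (fun i =>
      lt_min (by linarith [(hW i).2.2.1]) (by have := (hW i).2.2.1; positivity))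
    have hε1 : ∀ i, ε ≤ a i / 4 := fun i => (hεa i).trans (min_le_left _ _)
    have hε2 : ∀ i, 4 * ε ≤ a i * δ₀ := fun i => by
      have := (hεa i).trans (min_le_right _ _)
      linarith
    let dm : En (m + 3) → En (m + 3) → En (m + 3) := fun y x => dir (x - y)
    have hdm : ∀ y, Measurable (dm y) := fun y =>
      Pool.Agent.W646.AG.measurable_dir.comp (measurable_id.sub_const y)
    let μ₀ : Fin J → Measure (En (m + 3)) := fun i => (ω i).map (dm y₀)
    have hωp : ∀ i, IsProbabilityMeasure (ω i) := fun i => (hW i).1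
    have hae : ∀ i, ∀ᵐ x ∂(ω i), a i ≤ dist x y₀ := fun i => ball_ae (hW i).2.2.2.1
    have hnorm : ∀ y, dist y y₀ < ε → ∀ i, ∀ᵐ x ∂(ω i), ‖dm y x‖ = 1 := by
      intro y hy i
      filter_upwards [hae i] with x hx
      apply Pool.Agent.W646.AG.norm_dir
      intro h0
      rw [sub_eq_zero.1 h0] at hx
      have := hε1 i
      have := (hW i).2.2.1
      linarith
    have hnorm0 := hnorm y₀ (by rw [dist_self]; exact hε)
    have hμ₀ : ∀ i, Sph (μ₀ i) := fun i => sph_of_map (hωp i) (hdm y₀) (hnorm0 i)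
    obtain ⟨y, ωn, an, Dn, hyd, hy, hWn, hineq⟩ := sbb (m + 3) κ R β τ C ε ν (psi m q c μ₀) y₀ hn
      hκ0 hκ1 hR0 hR1 hβ0 hβ1 hτ hC hε hcon inferInstance hball hy₀ (psi_cont q c μ₀ hμ₀)
      (psi_odd q c μ₀)
    have hωn : IsProbabilityMeasure ωn := hWn.1
    let μ₁ : Fin J → Measure (En (m + 3)) := fun i => (ω i).map (dm y)
    let μn : Measure (En (m + 3)) := ωn.map (dm y)
    have hnorm1 := hnorm y hyd
    have hμ₁ : ∀ i, Sph (μ₁ i) := fun i => sph_of_map (hωp i) (hdm y) (hnorm1 i)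
    have hnn : ∀ᵐ x ∂ωn, ‖dm y x‖ = 1 := by
      filter_upwards [ball_ae hWn.2.2.2.1] with x hx
      apply Pool.Agent.W646.AG.norm_dir
      intro h0
      rw [sub_eq_zero.1 h0, dist_self] at hx
      have := hWn.2.2.1
      linarith
    have hμn : Sph μn := sph_of_map hωn (hdm y) hnn
    have hdd : ∀ i, ∀ᵐ x ∂(ω i), ‖dm y₀ x - dm y x‖ ≤ δ₀ / 2 := by
      intro i
      filter_upwards [hae i] with x hx
      have ha := (hW i).2.2.1
      have h0 : x - y₀ ≠ 0 := by
        intro h0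
        rw [sub_eq_zero.1 h0, dist_self] at hx
        linarith
      have h1 : x - y ≠ 0 := by
        intro h0
        rw [sub_eq_zero.1 h0] at hx
        have := hε1 i
        linarith
      refine (Pool.Agent.W646.AG.dir_sub_dir_le h0 h1).trans ?_
      have h2 : x - y₀ - (x - y) = y - y₀ := by abel
      rw [h2, ← dist_eq_norm, ← dist_eq_norm]
      have h3 : 0 < dist x y₀ := lt_of_lt_of_le ha hx
      rw [div_le_iff₀ h3]
      have h4 := hε2 i
      have h5 : a i * δ₀ ≤ dist x y₀ * δ₀ := mul_le_mul_of_nonneg_right hx hδ₀.le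
      linarith
    set A := ∑ i, ∑ j ∈ Finset.univ.filter (fun j => i < j), Of (m + 3) q α (μ₀ i) (μ₀ j) with hA
    set B := ∑ i, ∑ j ∈ Finset.univ.filter (fun j => i < j), Of (m + 3) q α (μ₁ i) (μ₁ j) with hB
    have hAB : A - B ≤ (J : ℝ) ^ 2 * η₀ := by
      rw [hA, hB, ← Finset.sum_sub_distrib]
      simp_rw [← Finset.sum_sub_distrib]
      have h1 : ∀ i ∈ (Finset.univ : Finset (Fin J)), ∑ j ∈ Finset.univ.filter (fun j => i < j),
          (Of (m + 3) q α (μ₀ i) (μ₀ j) - Of (m + 3) q α (μ₁ i) (μ₁ j)) ≤ J * η₀ := by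
        intro i _
        calc ∑ j ∈ Finset.univ.filter (fun j => i < j),
            (Of (m + 3) q α (μ₀ i) (μ₀ j) - Of (m + 3) q α (μ₁ i) (μ₁ j)) ≤
            ∑ _j ∈ Finset.univ.filter (fun j => i < j), η₀ := by
              refine Finset.sum_le_sum fun j _ => ?_
              exact (le_abs_self _).trans (Of_near q α (hωp i) (hωp j) (hdm y₀) (hdm y) (hdm y₀)
                (hdm y) (hnorm0 i) (hnorm1 i) (hnorm0 j) (hnorm1 j) hQ (hdd i) (hdd j))
          _ ≤ ∑ _j : Fin J, η₀ := by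
              apply Finset.sum_le_sum_of_subset_of_nonneg (Finset.subset_univ _)
              intro j _ _
              exact hη₀pos.le
          _ = J * η₀ := by
              rw [Finset.sum_const, Finset.card_univ, Fintype.card_fin, nsmul_eq_mul]
      refine (Finset.sum_le_sum h1).trans (le_of_eq ?_)
      rw [Finset.sum_const, Finset.card_univ, Fintype.card_fin, nsmul_eq_mul]
      ring
    have hP : ∑ i, Of (m + 3) q α (μ₀ i) μn - ∑ i, Of (m + 3) q α (μ₁ i) μn ≤ J * η₀ := by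
      rw [← Finset.sum_sub_distrib]
      calc ∑ i, (Of (m + 3) q α (μ₀ i) μn - Of (m + 3) q α (μ₁ i) μn) ≤ ∑ _i : Fin J, η₀ := by
            refine Finset.sum_le_sum fun i _ => ?_
            exact (le_abs_self _).trans (Of_near q α (hωp i) hωn (hdm y₀) (hdm y) (hdm y)
              (hdm y) (hnorm0 i) (hnorm1 i) hnn hnn hQ (hdd i) (Eventually.of_forall fun x => by
                rw [sub_self, norm_zero]; positivity))
        _ = J * η₀ := by
            rw [Finset.sum_const, Finset.card_univ, Fintype.card_fin, nsmul_eq_mul]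
    have hpsi : ∫ x, psi m q c μ₀ (dir (x - y)) ∂ωn = ∑ i, Of (m + 3) q α (μ₀ i) μn := by
      rw [← psi_int q α μ₀ hμ₀ hμn]
      exact (integral_map (hdm y).aemeasurable
        (psi_cont q c μ₀ hμ₀).aestronglyMeasurable).symm
    rw [hpsi] at hineq
    refine ⟨y, Fin.cons ωn ω, Fin.cons an (fun i => a i / 2), Fin.cons Dn D, hK' y hy, hy, ?_, ?_⟩
    · intro i
      refine Fin.cases ?_ (fun i => ?_) i
      · simpa only [Fin.cons_zero] using hWn
      · simp only [Fin.cons_succ]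
        exact Wit.shrink (hW i) (hyd.le.trans (hε1 i))
    · rw [sum_cons, Fin.sum_univ_succ]
      simp only [Fin.cons_zero, Fin.cons_succ]
      have e1 : ∑ i, Of (m + 3) q α (ωn.map (fun x => dir (x - y)))
          ((ω i).map (fun x => dir (x - y))) = ∑ i, Of (m + 3) q α (μ₁ i) μn :=
        Finset.sum_congr rfl fun i _ => Of_symm q α hμn (hμ₁ i)
      rw [e1]
      have hη : (J : ℝ) ^ 2 * η₀ + J * η₀ ≤ δ := by
        rw [hη₀, ← add_mul, mul_div_assoc', div_le_iff₀ (by positivity)]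
        nlinarith
      have hsum' : τ * ∑ i, D i - A ≤ J * (X + δ) := hsum
      have hineq' : τ * Dn - ∑ i, Of (m + 3) q α (μ₀ i) μn ≤ X := hineq
      show τ * (Dn + ∑ i, D i) - (∑ i, Of (m + 3) q α (μ₁ i) μn + B) ≤ ((J + 1 : ℕ) : ℝ) * (X + δ)
      push_cast
      linarith

end Pool.Agent.H83.AG
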