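import Pool.Graph.R_seed8.W342.AG.Cap2

/-!
Frostman measures on compact sets.
-/

set_option autoImplicit false
set_option linter.unusedSectionVars false

open MeasureTheory Metric Set Filter Topology
open scoped ENNReal NNReal

namespace Pool.Agent.H83.AG

open Pool.Agent.W778.AG Pool.Agent.W342.AG

variable {n : ℕ}

/-- mass of a cell of level `j` -/
noncomputable def mass (F : Finset (En n)) (ν : En n → ℝ) (j : ℕ) (a : Fin n → ℤ) : ℝ := by
  classical
  exact ∑ y ∈ F with dcell j y = a, ν y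

lemma greedy (N : ℕ) (cap : ℕ → ℝ) (hcap : ∀ l, 0 ≤ cap l) (F : Finset (En n)) :
    ∃ ν : En n → ℝ, (∀ y, 0 ≤ ν y) ∧ (∀ j ≤ N, ∀ a, mass F ν j a ≤ cap j) ∧
      ∀ y ∈ F, ∃ j ≤ N, mass F ν j (dcell j y) = cap j := by
  classical
  induction F using Finset.induction_on with
  | empty => exact ⟨fun _ => 0, fun _ => le_rfl, fun l _ a => by simpa [mass] using hcap l, by simp⟩
  | insert x F hx ih =>
    obtain ⟨ν, h0, h1, h2⟩ := ih
    obtain ⟨l0, hl0, hmin⟩ := Finset.exists_min_image (Finset.range (N + 1))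
      (fun l => cap l - mass F ν l (dcell l x)) ⟨0, by simp⟩
    set δ : ℝ := cap l0 - mass F ν l0 (dcell l0 x) with hδ
    have hl0' : l0 ≤ N := Nat.lt_succ_iff.1 (Finset.mem_range.1 hl0)
    have hδ0 : 0 ≤ δ := sub_nonneg.2 (h1 l0 hl0' _)
    set ν' : En n → ℝ := fun y => if y = x then δ else ν y with hν'
    have hold : ∀ l a, ∑ y ∈ F with dcell l y = a, ν' y = mass F ν l a := by
      intro l a
      unfold mass
      refine Finset.sum_congr rfl fun y hy => ?_
      have : y ≠ x := fun h => hx (h ▸ (Finset.mem_filter.1 hy).1)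
      simp [hν', this]
    have hmass : ∀ l a, mass (insert x F) ν' l a =
        mass F ν l a + if dcell l x = a then δ else 0 := by
      intro l a
      unfold mass
      rw [Finset.filter_insert]
      split_ifs with h
      · rw [Finset.sum_insert (by simp [hx]), hold]
        simp only [hν', if_true]
        unfold mass
        ring
      · rw [hold, add_zero]
        rfl
    refine ⟨ν', fun y => ?_, fun l hl a => ?_, fun y hy => ?_⟩
    · simp only [hν']
      split_ifs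
      · exact hδ0
      · exact h0 y
    · rw [hmass]
      split_ifs with h
      · subst h
        have := hmin l (Finset.mem_range.2 (Nat.lt_succ_iff.2 hl))
        linarith
      · rw [add_zero]; exact h1 l hl a
    · rcases Finset.mem_insert.1 hy with rfl | hy
      · refine ⟨l0, hl0', ?_⟩
        rw [hmass, if_pos rfl]
        linarith
      · obtain ⟨l, hl, ht⟩ := h2 y hy
        refine ⟨l, hl, ?_⟩
        rw [hmass]
        split_ifs with h
        · have := hmin l (Finset.mem_range.2 (Nat.lt_succ_iff.2 hl))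
          rw [h, ht] at this
          have h3 : δ = 0 := by linarith
          rw [ht, h3, add_zero]
        · rw [ht, add_zero]

lemma greedy_cover (N : ℕ) (cap : ℕ → ℝ) (F : Finset (En n)) (ν : En n → ℝ)
    (h2 : ∀ y ∈ F, ∃ j ≤ N, mass F ν j (dcell j y) = cap j) :
    ∃ C : Finset (Nd n), (∀ y ∈ F, ∃ p ∈ C, y ∈ cube p) ∧ (∀ p ∈ C, p.1 ≤ N) ∧
      ∑ p ∈ C, cap p.1 = ∑ y ∈ F, ν y := by
  classical
  have hmin : ∀ y ∈ F, ∃ l ≤ N, mass F ν l (dcell l y) = cap l ∧
      ∀ l' ≤ N, mass F ν l' (dcell l' y) = cap l' → l ≤ l' := by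
    intro y hy
    have hne : ((Finset.range (N + 1)).filter
        fun l => mass F ν l (dcell l y) = cap l).Nonempty := by
      obtain ⟨l, hl, ht⟩ := h2 y hy
      exact ⟨l, Finset.mem_filter.2 ⟨Finset.mem_range.2 (Nat.lt_succ_iff.2 hl), ht⟩⟩
    obtain ⟨l, hl, hm⟩ := Finset.exists_min_image _ id hne
    obtain ⟨hl1, hl2⟩ := Finset.mem_filter.1 hl
    refine ⟨l, Nat.lt_succ_iff.1 (Finset.mem_range.1 hl1), hl2, fun l' hl' ht => ?_⟩
    exact hm l' (Finset.mem_filter.2 ⟨Finset.mem_range.2 (Nat.lt_succ_iff.2 hl'), ht⟩)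
  choose! lev hlev1 hlev2 hlev3 using hmin
  set τ : En n → Nd n := fun y => (lev y, dcell (lev y) y) with hτ
  have hfib : ∀ y' ∈ F, ∀ y ∈ F, dcell (lev y') y = dcell (lev y') y' → τ y = τ y' := by
    intro y' hy' y hy h
    have hle : lev y ≤ lev y' := by
      refine hlev3 y hy _ (hlev1 y' hy') ?_
      rw [h]; exact hlev2 y' hy'
    have h3 : dcell (lev y) y = dcell (lev y) y' := dcell_nest hle h
    have hge : lev y' ≤ lev y := by
      refine hlev3 y' hy' _ (hlev1 y hy) ?_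
      rw [← h3]; exact hlev2 y hy
    have heq : lev y = lev y' := le_antisymm hle hge
    simp only [hτ, heq, h]
  refine ⟨F.image τ, ?_, ?_, ?_⟩
  · intro y hy
    exact ⟨τ y, Finset.mem_image_of_mem _ hy, rfl⟩
  · intro p hp
    obtain ⟨y, hy, rfl⟩ := Finset.mem_image.1 hp
    exact hlev1 y hy
  · rw [← Finset.sum_fiberwise_of_maps_to (g := τ) (t := F.image τ)
      (fun y hy => Finset.mem_image_of_mem _ hy)]
    refine Finset.sum_congr rfl fun c hc => ?_
    obtain ⟨y', hy', rfl⟩ := Finset.mem_image.1 hc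
    have h6 := hlev2 y' hy'
    simp only [hτ]
    rw [← h6]
    unfold mass
    refine Finset.sum_congr ?_ fun _ _ => rfl
    ext y
    simp only [Finset.mem_filter]
    constructor
    · rintro ⟨hy, h⟩
      exact ⟨hy, hfib y' hy' y hy h⟩
    · rintro ⟨hy, h⟩
      refine ⟨hy, ?_⟩
      have h7 : lev y = lev y' := congrArg Prod.fst h
      have h8 : dcell (lev y) y = dcell (lev y') y' := congrArg Prod.snd h
      rw [← h8, h7]

/-- a ball is covered by few cells -/
lemma ball_cells (x : En n) (r : ℝ) (j : ℕ) (hr : r ≤ (1 / 2) ^ j) :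
    ∃ G : Finset (Fin n → ℤ), (G.card : ℝ) ≤ 3 ^ n ∧ ∀ y ∈ ball x r, dcell j y ∈ G := by
  classical
  refine ⟨Fintype.piFinset (fun i => Finset.Icc (⌊(2 : ℝ) ^ j * x i⌋ - 1)
      (⌊(2 : ℝ) ^ j * x i⌋ + 1)), ?_, ?_⟩
  · rw [Fintype.card_piFinset]
    have : ∀ i : Fin n, (Finset.Icc (⌊(2 : ℝ) ^ j * x i⌋ - 1)
        (⌊(2 : ℝ) ^ j * x i⌋ + 1)).card = 3 := by
      intro i
      rw [Int.card_Icc]
      omega
    simp [this, Finset.prod_const, Finset.card_univ, Fintype.card_fin]
  · intro y hy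
    rw [Fintype.mem_piFinset]
    intro i
    rw [Finset.mem_Icc]
    have h1 : |y i - x i| < r := by
      have h2 : ‖(y - x) i‖ ≤ ‖y - x‖ := PiLp.norm_apply_le (y - x) i
      rw [mem_ball, dist_eq_norm] at hy
      have h3 := lt_of_le_of_lt h2 hy
      simpa using h3
    have h4 : |(2 : ℝ) ^ j * y i - 2 ^ j * x i| < 1 := by
      rw [← mul_sub, abs_mul, abs_of_pos (by positivity : (0 : ℝ) < 2 ^ j)]
      calc (2 : ℝ) ^ j * |y i - x i| < 2 ^ j * r := by gcongr
        _ ≤ 2 ^ j * (1 / 2) ^ j := by gcongr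
        _ = 1 := by rw [← mul_pow]; norm_num
    rw [abs_lt] at h4
    unfold dcell
    constructor
    · have : (⌊(2 : ℝ) ^ j * x i⌋ : ℝ) ≤ 2 ^ j * x i := Int.floor_le _
      rw [Int.le_floor]; push_cast; linarith [h4.1]
    · have : 2 ^ j * x i < (⌊(2 : ℝ) ^ j * x i⌋ : ℝ) + 1 := Int.lt_floor_add_one _
      rw [← Int.lt_add_one_iff, Int.floor_lt]; push_cast; linarith [h4.2]

/-- finite nets of a bounded set -/
lemma exists_net (K : Set (En n)) (hK : Bornology.IsBounded K) (N : ℕ) :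
    ∃ F : Finset (En n), (F : Set (En n)) ⊆ K ∧ ∀ x ∈ K, ∃ y ∈ F, dcell N x = dcell N y := by
  classical
  have hfin : (dcell N '' K).Finite := by
    obtain ⟨R, hR⟩ := hK.subset_ball 0
    refine Set.Finite.subset (Fintype.piFinset (fun _ : Fin n =>
      Finset.Icc (⌊-((2 : ℝ) ^ N * R)⌋) (⌊(2 : ℝ) ^ N * R⌋))).finite_toSet ?_
    rintro _ ⟨x, hx, rfl⟩
    rw [Finset.mem_coe, Fintype.mem_piFinset]
    intro i
    have h1 : ‖x i‖ ≤ ‖x‖ := PiLp.norm_apply_le x i
    have h2 : ‖x‖ < R := by simpa using hR hx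
    have h3 := abs_le.1 (h1.trans h2.le)
    rw [Finset.mem_Icc]
    unfold dcell
    constructor
    · apply Int.floor_le_floor
      nlinarith [h3.1, (by positivity : (0 : ℝ) < 2 ^ N)]
    · apply Int.floor_le_floor
      nlinarith [h3.2, (by positivity : (0 : ℝ) < 2 ^ N)]
  obtain ⟨F, hF1, hF2⟩ : ∃ F : Finset (En n), (F : Set (En n)) ⊆ K ∧
      dcell N '' (F : Set (En n)) = dcell N '' K := by
    obtain ⟨t, ht⟩ := hfin.exists_finset_coe
    have h3 : (t : Set (Fin n → ℤ)) ⊆ dcell N '' K := ht.subset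
    obtain ⟨F, hF, hFt⟩ := Finset.subset_set_image_iff.1 h3
    refine ⟨F, hF, ?_⟩
    rw [← ht, ← hFt, Finset.coe_image]
  refine ⟨F, hF1, fun x hx => ?_⟩
  have h4 : dcell N x ∈ dcell N '' (F : Set (En n)) := by
    rw [hF2]
    exact mem_image_of_mem _ hx
  obtain ⟨y, hy, hyx⟩ := h4
  exact ⟨y, hy, hyx.symm⟩

/-- discrete measures -/
noncomputable def dm (F : Finset (En n)) (ν : En n → ℝ) : Measure (En n) :=
  ∑ y ∈ F, ENNReal.ofReal (ν y) • Measure.dirac y

lemma dm_apply (F : Finset (En n)) (ν : En n → ℝ) (hν : ∀ y, 0 ≤ ν y) (A : Set (En n))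
    [DecidablePred (· ∈ A)] :
    dm F ν A = ENNReal.ofReal (∑ y ∈ F with y ∈ A, ν y) := by
  classical
  unfold dm
  rw [Measure.finsetSum_apply]
  rw [ENNReal.ofReal_sum_of_nonneg (fun y _ => hν y), Finset.sum_filter]
  refine Finset.sum_congr rfl fun y _ => ?_
  rw [Measure.smul_apply, Measure.dirac_apply, smul_eq_mul]
  by_cases h : y ∈ A
  · rw [indicator_of_mem h, if_pos h]
    simp
  · rw [indicator_of_notMem h, if_neg h, mul_zero]

/-- approximate Frostman measures -/
lemma approx (K : Set (En n)) (hK : Bornology.IsBounded K) (s : ℝ) (hs : 0 < s) (h₀ : ℝ)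
    (hh₀ : 0 < h₀) (hh : ENNReal.ofReal h₀ ≤ ph (wt s) K) (N : ℕ) :
    ∃ P : Measure (En n), IsProbabilityMeasure P ∧ P Kᶜ = 0 ∧
      ∀ x : En n, ∀ r : ℝ, ∀ j ≤ N, r ≤ (1 / 2) ^ j →
        P (ball x r) ≤ ENNReal.ofReal (3 ^ n * (((1 / 2) ^ j) ^ s / h₀)) := by
  classical
  obtain ⟨F, hF1, hF2⟩ := exists_net K hK N
  set cap : ℕ → ℝ := fun j => ((1 / 2 : ℝ) ^ j) ^ s with hcap
  obtain ⟨ν, h0, h1, h2⟩ := greedy N cap (fun j => by positivity) F
  obtain ⟨C, hC1, hC2, hC3⟩ := greedy_cover N cap F ν h2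
  set M := ∑ y ∈ F, ν y with hM
  have hcov : Cov (C : Set (Nd n)) K := by
    intro x hx
    obtain ⟨y, hy, hxy⟩ := hF2 x hx
    obtain ⟨p, hp, hyp⟩ := hC1 y hy
    exact ⟨p, hp, (dcell_nest (hC2 p hp) hxy).trans hyp⟩
  have hcost : cost (wt s) (C : Set (Nd n)) = ENNReal.ofReal M := by
    rw [← hC3, ENNReal.ofReal_sum_of_nonneg (fun p _ => by positivity)]
    unfold cost
    rw [← tsum_subtype]
    refine (Finset.tsum_subtype C (wt s)).trans ?_
    refine Finset.sum_congr rfl fun p _ => ?_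
    unfold wt
    rw [two_inv_pow, ENNReal.ofReal_rpow_of_nonneg (by positivity) hs.le]
  have hMh : h₀ ≤ M := by
    have h3 := hh.trans ((ph_le (wt s) hcov).trans hcost.le)
    by_contra hcon
    push Not at hcon
    have h4 : ENNReal.ofReal M < ENNReal.ofReal h₀ := (ENNReal.ofReal_lt_ofReal_iff hh₀).2 hcon
    exact absurd h3 (not_le.2 h4)
  have hM0 : 0 < M := hh₀.trans_le hMh
  have hν0 : ∀ y, 0 ≤ ν y / M := fun y => div_nonneg (h0 y) hM0.le
  refine ⟨dm F (fun y => ν y / M), ⟨?_⟩, ?_, ?_⟩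
  · rw [dm_apply F _ hν0]
    simp only [mem_univ, Finset.filter_true]
    rw [← Finset.sum_div, div_self hM0.ne', ENNReal.ofReal_one]
  · rw [dm_apply F _ hν0]
    have : F.filter (fun y => y ∈ Kᶜ) = ∅ := by
      apply Finset.filter_eq_empty_iff.2
      intro y hy hyK
      exact hyK (hF1 hy)
    rw [this]
    simp
  · intro x r j hj hr
    obtain ⟨G, hG1, hG2⟩ := ball_cells x r j hr
    rw [dm_apply F _ hν0]
    apply ENNReal.ofReal_le_ofReal
    have h5 : ∑ y ∈ F with y ∈ ball x r, ν y / M ≤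
        ∑ y ∈ F with dcell j y ∈ G, ν y / M := by
      apply Finset.sum_le_sum_of_subset_of_nonneg
      · intro y hy
        obtain ⟨hy1, hy2⟩ := Finset.mem_filter.1 hy
        exact Finset.mem_filter.2 ⟨hy1, hG2 y hy2⟩
      · intro y _ _
        exact hν0 y
    refine h5.trans ?_
    rw [← Finset.sum_fiberwise_of_maps_to (g := dcell j) (t := G)
      (fun y hy => (Finset.mem_filter.1 hy).2)]
    have h6 : ∀ a ∈ G, ∑ y ∈ (F.filter (fun y => dcell j y ∈ G)).filter
        (fun y => dcell j y = a), ν y / M ≤ cap j / h₀ := by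
      intro a ha
      have h7 : (F.filter (fun y => dcell j y ∈ G)).filter (fun y => dcell j y = a) =
          F.filter (fun y => dcell j y = a) := by
        ext y
        simp only [Finset.mem_filter]
        constructor
        · rintro ⟨⟨a1, a2⟩, a3⟩
          exact ⟨a1, a3⟩
        · rintro ⟨a1, a3⟩
          exact ⟨⟨a1, a3 ▸ ha⟩, a3⟩
      rw [h7, ← Finset.sum_div]
      have h8 : ∑ y ∈ F with dcell j y = a, ν y ≤ cap j := h1 j hj a
      exact div_le_div₀ (by positivity) h8 hh₀ hMh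
    refine (Finset.sum_le_sum h6).trans ?_
    rw [Finset.sum_const, nsmul_eq_mul]
    exact mul_le_mul_of_nonneg_right hG1 (by positivity)

/-- **Frostman's lemma** -/
theorem frostman (K : Set (En n)) (hK : IsCompact K) (s : ℝ) (hs : 0 < s)
    (hdim : ENNReal.ofReal s < dimH K) :
    ∃ (C : ℝ) (ν : Measure (En n)), 0 < C ∧ IsProbabilityMeasure ν ∧ ν Kᶜ = 0 ∧
      ∀ x : En n, ∀ r : ℝ, 0 < r → ν (closedBall x r) ≤ ENNReal.ofReal (C * r ^ s) := by
  classical
  have hph : ph (wt s) K ≠ 0 := by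
    intro h
    have h1 := haus_zero s hs K h
    have h2 : (((Real.toNNReal s : ℝ≥0)) : ℝ≥0∞) < dimH K := hdim
    have h3 := hausdorffMeasure_of_lt_dimH h2
    rw [Real.coe_toNNReal s hs.le, h1] at h3
    exact ENNReal.zero_ne_top h3
  obtain ⟨h₀, hh₀, hh⟩ : ∃ h₀ : ℝ, 0 < h₀ ∧ ENNReal.ofReal h₀ ≤ ph (wt s) K := by
    refine ⟨(min (ph (wt s) K) 1).toReal, ?_, ?_⟩
    · apply ENNReal.toReal_pos
      · rw [← pos_iff_ne_zero]
        exact lt_min (pos_iff_ne_zero.2 hph) one_pos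
      · exact ne_top_of_le_ne_top ENNReal.one_ne_top (min_le_right _ _)
    · rw [ENNReal.ofReal_toReal (ne_top_of_le_ne_top ENNReal.one_ne_top (min_le_right _ _))]
      exact min_le_left _ _
  have happ := approx K hK.isBounded s hs h₀ hh₀ hh
  choose P hP1 hP2 hP3 using happ
  let Q : ℕ → ProbabilityMeasure (En n) := fun N => ⟨P N, hP1 N⟩
  have hcomp := isCompact_setOfPred_probabilityMeasure_mass_eq_compl_isCompact_le (E := En n)
    (u := fun _ => 0) (K := fun _ => K) tendsto_const_nhds (fun _ => hK)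
    (Or.inl inferInstance)
  have hQmem : ∀ N, Q N ∈ {μ : ProbabilityMeasure (En n) | ∀ n : ℕ, μ Kᶜ ≤ 0} := by
    intro N k
    have h1 : (Q N) Kᶜ = (P N Kᶜ).toNNReal := rfl
    rw [h1, hP2 N]
    simp
  obtain ⟨μ, hμ, hlim⟩ := hcomp.ultrafilter_le_nhds' ((hyperfilter ℕ).map Q)
    (Ultrafilter.mem_map.2 (Eventually.of_forall hQmem))
  have hlim' : Tendsto Q (hyperfilter ℕ : Filter ℕ) (𝓝 μ) := hlim
  have hball : ∀ x : En n, ∀ r : ℝ, 0 < r → r ≤ 1 →
      (μ : Measure (En n)) (ball x r) ≤ ENNReal.ofReal (3 ^ n * ((2 * r) ^ s / h₀)) := by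
    intro x r hr hr1
    obtain ⟨j, hj1, hj2⟩ := exists_nat_pow_near_of_lt_one (x := r) (y := 1 / 2) hr hr1
      (by norm_num) (by norm_num)
    refine (ProbabilityMeasure.le_liminf_measure_open_of_tendsto hlim' isOpen_ball).trans ?_
    refine liminf_le_of_le (by isBoundedDefault) ?_
    intro b hb
    have hev : ∀ᶠ N : ℕ in (hyperfilter ℕ : Filter ℕ), j ≤ N :=
      (Nat.hyperfilter_le_atTop : (hyperfilter ℕ : Filter ℕ) ≤ atTop) (eventually_ge_atTop j)
    obtain ⟨N, hN1, hN2⟩ := (hb.and hev).exists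
    refine hN1.trans ((hP3 N x r j hN2 hj2).trans ?_)
    apply ENNReal.ofReal_le_ofReal
    have h3 : ((1 / 2 : ℝ) ^ j) ≤ 2 * r := by
      rw [pow_succ] at hj1
      linarith
    have h4 : (((1 / 2 : ℝ) ^ j)) ^ s ≤ (2 * r) ^ s :=
      Real.rpow_le_rpow (by positivity) h3 hs.le
    gcongr
  refine ⟨3 ^ n * (4 ^ s / h₀) + 2 ^ s, μ, by positivity, inferInstance, ?_, ?_⟩
  · have h1 := hμ 0
    have h2 : μ Kᶜ = 0 := le_antisymm h1 zero_le
    have h3 : (μ : Measure (En n)) Kᶜ = (μ Kᶜ : ℝ≥0) := (ProbabilityMeasure.ennreal_coeFn_eq_coeFn_toMeasure μ Kᶜ).symm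
    rw [h3, h2]
    rfl
  · intro x r hr
    by_cases h2r : 2 * r ≤ 1
    · calc (μ : Measure (En n)) (closedBall x r) ≤ (μ : Measure (En n)) (ball x (2 * r)) :=
            measure_mono (closedBall_subset_ball (by linarith))
        _ ≤ ENNReal.ofReal (3 ^ n * ((2 * (2 * r)) ^ s / h₀)) := hball x (2 * r) (by linarith) h2r
        _ ≤ _ := by
            apply ENNReal.ofReal_le_ofReal
            have h5 : (2 * (2 * r)) ^ s = 4 ^ s * r ^ s := by
              rw [← Real.mul_rpow (by norm_num) hr.le]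
              congr 1
              ring
            rw [h5, add_mul]
            have h6 : 0 ≤ 2 ^ s * r ^ s := by positivity
            have h7 : 3 ^ n * (4 ^ s * r ^ s / h₀) = 3 ^ n * (4 ^ s / h₀) * r ^ s := by ring
            rw [h7]
            linarith
    · push Not at h2r
      calc (μ : Measure (En n)) (closedBall x r) ≤ 1 := prob_le_one
        _ = ENNReal.ofReal 1 := ENNReal.ofReal_one.symm
        _ ≤ _ := by
            apply ENNReal.ofReal_le_ofReal
            have h5 : 1 ≤ (2 * r) ^ s := Real.one_le_rpow h2r.le hs.le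
            rw [Real.mul_rpow (by norm_num) hr.le] at h5
            rw [add_mul]
            have h6 : 0 ≤ 3 ^ n * (4 ^ s / h₀) * r ^ s := by positivity
            linarith

end Pool.Agent.H83.AG
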