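import Pool.Agent.H83.AG.Sph
import Pool.Graph.R_seed8.W376.AG.Sum

/-!
Concentration, mean value and positive definiteness.
-/

set_option autoImplicit false
set_option linter.unusedSectionVars false

open MeasureTheory Metric Set Filter Topology
open scoped ENNReal RealInnerProductSpace

namespace Pool.Agent.H83.AG

open Pool.Agent.W778.AG

lemma Pg_at_one (m k : ℕ) : Pg (m + 3) k 1 = 1 := by
  induction k using Nat.twoStepInduction with
  | zero => rfl
  | one => rfl
  | more k h1 h2 =>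
    have h := Pg_rec m k 1
    rw [h1, h2] at h
    have h3 : (k : ℝ) + m + 2 ≠ 0 := by positivity
    apply mul_left_cancel₀ h3
    rw [h]
    ring

lemma Pg_at_zero (m k : ℕ) : |Pg (m + 3) k 0| ≤ 1 ∧ Pg (m + 3) (k + 1) 0 ≠ 1 := by
  induction k using Nat.twoStepInduction with
  | zero => simp [Pg_zero, Pg_one]
  | one =>
    refine ⟨by simp [Pg_one], ?_⟩
    have h := Pg_rec m 0 0
    simp only [zero_add, Pg_zero] at h
    intro h1
    rw [show 1 + 1 = 2 from rfl] at h1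
    rw [h1] at h
    push_cast at h
    have : (0 : ℝ) ≤ m := Nat.cast_nonneg m
    linarith
  | more k h1 h2 =>
    obtain ⟨h1, h1'⟩ := h1
    obtain ⟨h2, h2'⟩ := h2
    have h := Pg_rec m k 0
    have h' := Pg_rec m (k + 1) 0
    simp only [mul_zero, zero_mul, zero_sub] at h h'
    have hk : (0 : ℝ) ≤ k := Nat.cast_nonneg k
    have hm : (0 : ℝ) ≤ m := Nat.cast_nonneg m
    constructor
    · have h3 : ((k : ℝ) + m + 2) * |Pg (m + 3) (k + 2) 0| = ((k : ℝ) + 1) * |Pg (m + 3) k 0| := by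
        have := congrArg abs h
        rw [abs_mul, abs_neg, abs_mul, abs_of_pos (by positivity : (0 : ℝ) < (k : ℝ) + m + 2),
          abs_of_pos (by positivity : (0 : ℝ) < (k : ℝ) + 1)] at this
        exact this
      have h4 : ((k : ℝ) + 1) * |Pg (m + 3) k 0| ≤ ((k : ℝ) + m + 2) * 1 := by nlinarith
      rw [← h3] at h4
      exact le_of_mul_le_mul_left h4 (by positivity)
    · intro h5
      rw [show k + 1 + 2 = k + 2 + 1 from rfl, h5] at h'
      push_cast at h'
      have h6 := (abs_le.1 h2).1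
      nlinarith

lemma dk_zero (m : ℕ) : dk (m + 3) 0 = 1 := by
  unfold dk
  have : (m : ℝ) + 3 - 2 ≠ 0 := by
    have : (0 : ℝ) ≤ m := Nat.cast_nonneg m
    linarith
  simp only [Nat.cast_zero, mul_zero, zero_add, Nat.choose_zero_right, Nat.cast_one, mul_one,
    add_zero]
  push_cast
  exact div_self this

lemma dk_nonneg (m k : ℕ) : 0 ≤ dk (m + 3) k := by
  unfold dk
  have h1 : (0 : ℝ) ≤ m := Nat.cast_nonneg m
  have h2 : (0 : ℝ) ≤ k := Nat.cast_nonneg k
  push_cast
  apply mul_nonneg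
  · apply div_nonneg <;> linarith
  · positivity

lemma Pg_abs_le (m k : ℕ) {t : ℝ} (ht : |t| ≤ 1) : |Pg (m + 3) k t| ≤ 1 :=
  Pool.Agent.W376.AG.Pg_le bd m k ht

lemma sumK : S_SUM := Pool.Agent.W376.AG.sum_of bd

lemma summable_dk (m : ℕ) {r : ℝ} (h0 : 0 ≤ r) (h1 : r < 1) :
    Summable (fun k : ℕ => r ^ k * dk (m + 3) k) := by
  have := (sumK (m + 3) (by omega) r h0 h1 1 (by simp)).summable
  simpa only [Pg_at_one, mul_one] using this

/-- integration of the expansion -/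
lemma hasSum_int {Ω : Type*} [MeasurableSpace Ω] (μ : Measure Ω) [IsFiniteMeasure μ] (m : ℕ)
    {r : ℝ} (h0 : 0 ≤ r) (h1 : r < 1) (t : Ω → ℝ) (htm : Measurable t) (ht : ∀ᵐ ω ∂μ, |t ω| ≤ 1) :
    HasSum (fun k : ℕ => r ^ k * dk (m + 3) k * ∫ ω, Pg (m + 3) k (t ω) ∂μ)
      (∫ ω, pk (m + 3) r (t ω) ∂μ) := by
  have hint : ∀ k, Integrable (fun ω => Pg (m + 3) k (t ω)) μ := by
    intro k
    refine Integrable.of_bound ((Pg_cont m k).measurable.comp htm).aestronglyMeasurable 1 ?_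
    filter_upwards [ht] with ω hω
    exact Pg_abs_le m k hω
  have hb : ∀ k, ∫ ω, ‖r ^ k * dk (m + 3) k * Pg (m + 3) k (t ω)‖ ∂μ ≤
      r ^ k * dk (m + 3) k * μ.real univ := by
    intro k
    have h2 : ∫ ω, ‖r ^ k * dk (m + 3) k * Pg (m + 3) k (t ω)‖ ∂μ ≤
        ∫ _, r ^ k * dk (m + 3) k ∂μ := by
      apply integral_mono_ae ((hint k).const_mul _).norm (integrable_const _)
      filter_upwards [ht] with ω hω
      rw [norm_mul, Real.norm_of_nonneg (mul_nonneg (pow_nonneg h0 k) (dk_nonneg m k)),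
        Real.norm_eq_abs]
      exact mul_le_of_le_one_right (mul_nonneg (pow_nonneg h0 k) (dk_nonneg m k))
        (Pg_abs_le m k hω)
    refine h2.trans (le_of_eq ?_)
    rw [integral_const, smul_eq_mul, mul_comm]
  have h := hasSum_integral_of_summable_integral_norm
    (F := fun k ω => r ^ k * dk (m + 3) k * Pg (m + 3) k (t ω))
    (fun k => (hint k).const_mul _)
    (Summable.of_nonneg_of_le (fun k => integral_nonneg fun ω => norm_nonneg _) hb
      ((summable_dk m h0 h1).mul_right _))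
  simp only [integral_const_mul] at h
  have h3 : ∫ ω, ∑' k, r ^ k * dk (m + 3) k * Pg (m + 3) k (t ω) ∂μ =
      ∫ ω, pk (m + 3) r (t ω) ∂μ := by
    apply integral_congr_ae
    filter_upwards [ht] with ω hω
    exact (sumK (m + 3) (by omega) r h0 h1 (t ω) hω).tsum_eq
  rwa [h3] at h

/-- concentration -/
theorem conc : S_CONC := by
  intro n hn r h0 h1 α θ hα0 hα1 hθ0 hθ1
  obtain ⟨m, rfl⟩ : ∃ m, n = m + 3 := ⟨n - 3, by omega⟩
  let v : En (m + 3) := EuclideanSpace.single 0 1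
  let v' : En (m + 3) := EuclideanSpace.single 1 1
  have hv : ‖v‖ = 1 := by simp [v]
  have hv' : ‖v'‖ = 1 := by simp [v']
  have hvv : ⟪v, v'⟫ = 0 := by simp [v, v', EuclideanSpace.inner_single_left]
  let x : En (m + 3) := Real.cos θ • v + Real.sin θ • v'
  have hvx : ⟪v, x⟫ = Real.cos θ := by
    show ⟪v, Real.cos θ • v + Real.sin θ • v'⟫ = _
    rw [inner_add_right, inner_smul_right, inner_smul_right, hvv, real_inner_self_eq_norm_sq, hv]
    ring
  have hx : ‖x‖ = 1 := by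
    have h2 : ‖x‖ ^ 2 = 1 := by
      show ‖Real.cos θ • v + Real.sin θ • v'‖ ^ 2 = 1
      rw [norm_add_sq_real, inner_smul_left, inner_smul_right, hvv, norm_smul, norm_smul, hv, hv']
      simp only [mul_zero, mul_one, add_zero, Real.norm_eq_abs, sq_abs]
      linarith [Real.sin_sq_add_cos_sq θ]
    have h3 := norm_nonneg x
    nlinarith
  obtain ⟨ρ, ⟨hρ, hρ1⟩, hρ2, hρ3⟩ := avg (m + 3) hn v α hv
  have hn1 : ∀ᵐ w ∂ρ, ‖w‖ = 1 := by
    rw [ae_iff]
    refine le_antisymm ((measure_mono ?_).trans hρ1.le) zero_le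
    intro w hw
    simpa using hw
  have hn2 : ∀ᵐ w ∂ρ, ⟪v, w⟫ = Real.cos α := by
    rw [ae_iff]
    exact hρ2
  have hab : ∀ᵐ w ∂ρ, |⟪w, x⟫| ≤ 1 := by
    filter_upwards [hn1] with w hw
    have := abs_real_inner_le_norm w x
    rwa [hw, hx, mul_one] at this
  have hS := hasSum_int ρ m h0 h1 (fun w => ⟪w, x⟫) (by fun_prop) hab
  simp only [hρ3 _ x hx, hvx] at hS
  rw [hS.tsum_eq]
  have hmain : ∀ᵐ w ∂ρ, pk (m + 3) r ⟪w, x⟫ ≤
      (1 - r ^ 2) / Real.sqrt (1 - 2 * r * Real.cos (θ - α) + r ^ 2) ^ (m + 3) := by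
    filter_upwards [hn1, hn2] with w hw1 hw2
    have hle : ⟪w, x⟫ ≤ Real.cos (θ - α) := by
      have h3 := real_inner_le_norm (w - Real.cos α • v) (x - Real.cos θ • v)
      have e1 : ⟪w - Real.cos α • v, x - Real.cos θ • v⟫ =
          ⟪w, x⟫ - Real.cos α * Real.cos θ := by
        have c1 : ⟪w, v⟫ = Real.cos α := by rw [real_inner_comm]; exact hw2
        rw [inner_sub_left, inner_sub_right, inner_sub_right, inner_smul_left, inner_smul_left,
          inner_smul_right, inner_smul_right, hvx, c1, real_inner_self_eq_norm_sq, hv]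
        simp only [conj_trivial]
        ring
      have e2 : ‖w - Real.cos α • v‖ = Real.sin α := by
        have : ‖w - Real.cos α • v‖ ^ 2 = Real.sin α ^ 2 := by
          have c1 : ⟪w, v⟫ = Real.cos α := by rw [real_inner_comm]; exact hw2
          rw [norm_sub_sq_real, inner_smul_right, c1, norm_smul, hw1, hv,
            Real.norm_eq_abs, mul_one, sq_abs, Real.sin_sq]
          ring
        exact (sq_eq_sq₀ (norm_nonneg _) (Real.sin_nonneg_of_nonneg_of_le_pi hα0 hα1)).1 this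
      have e3 : ‖x - Real.cos θ • v‖ = Real.sin θ := by
        have : ‖x - Real.cos θ • v‖ ^ 2 = Real.sin θ ^ 2 := by
          have c1 : ⟪x, v⟫ = Real.cos θ := by rw [real_inner_comm]; exact hvx
          rw [norm_sub_sq_real, inner_smul_right, c1, norm_smul, hx, hv,
            Real.norm_eq_abs, mul_one, sq_abs, Real.sin_sq]
          ring
        exact (sq_eq_sq₀ (norm_nonneg _) (Real.sin_nonneg_of_nonneg_of_le_pi hθ0 hθ1)).1 this
      rw [e1, e2, e3] at h3
      rw [Real.cos_sub]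
      linarith
    unfold pk
    have hpos : 0 < 1 - 2 * r * Real.cos (θ - α) + r ^ 2 := by
      have h4 := Real.cos_le_one (θ - α)
      nlinarith [mul_nonneg h0 (sub_nonneg.2 h4)]
    apply div_le_div_of_nonneg_left (by nlinarith) (by positivity)
    apply pow_le_pow_left₀ (Real.sqrt_nonneg _)
    apply Real.sqrt_le_sqrt
    nlinarith
  have hbd : Integrable (fun w => pk (m + 3) r ⟪w, x⟫) ρ := by
    refine Integrable.of_bound (((Pool.Agent.W646.AG.measurable_pk (m + 3) r).comp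
      (by fun_prop)).aestronglyMeasurable)
      ((1 - r ^ 2) / Real.sqrt (1 - 2 * r * Real.cos (θ - α) + r ^ 2) ^ (m + 3)) ?_
    filter_upwards [hmain] with w hw
    rw [Real.norm_of_nonneg (Pool.Agent.W646.AG.pk_nonneg _ h0 h1 _)]
    exact hw
  calc ∫ w, pk (m + 3) r ⟪w, x⟫ ∂ρ ≤ ∫ _, (1 - r ^ 2) / Real.sqrt (1 - 2 * r * Real.cos (θ - α) + r ^ 2) ^ (m + 3) ∂ρ :=
        integral_mono_ae hbd (integrable_const _) hmain
    _ = _ := by simp

/-- a point at which `P_k` is not one -/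
lemma avg_zero {m : ℕ} (μ : Measure (En (m + 3))) [IsFiniteMeasure μ] (hμ : Inv μ)
    (hn : ∀ᵐ u ∂μ, ‖u‖ = 1) {v : En (m + 3)} (hv : ‖v‖ = 1) (k : ℕ) :
    ∫ u, Pg (m + 3) (k + 1) ⟪v, u⟫ ∂μ = 0 := by
  obtain ⟨ρ, ⟨hρ, hρ1⟩, hρ2, hρ3⟩ := avg (m + 3) (by omega) v (Real.pi / 2) hv
  have hn1 : ∀ᵐ w ∂ρ, ‖w‖ = 1 := by
    rw [ae_iff]
    refine le_antisymm ((measure_mono ?_).trans hρ1.le) zero_le
    intro w hw
    simpa using hw
  rw [Real.cos_pi_div_two] at hρ3
  set P := Pg (m + 3) (k + 1) with hP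
  set M := ∫ u, P ⟪v, u⟫ ∂μ with hM
  have hPc : Continuous P := Pg_cont m (k + 1)
  have h1 : ∫ w, ∫ u, P ⟪w, u⟫ ∂μ ∂ρ = M := by
    have : ∀ᵐ w ∂ρ, ∫ u, P ⟪w, u⟫ ∂μ = M := by
      filter_upwards [hn1] with w hw
      obtain ⟨g, hg⟩ := exists_iso (e := v) (e' := w) (by rw [hv, hw])
      rw [hM, ← hμ.int g (fun u => P ⟪w, u⟫)]
      simp only [← hg, g.inner_map_map]
    rw [integral_congr_ae this]
    simp
  have h2 : ∫ w, ∫ u, P ⟪w, u⟫ ∂μ ∂ρ = ∫ u, ∫ w, P ⟪w, u⟫ ∂ρ ∂μ := by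
    apply integral_integral_swap
    refine Integrable.of_bound (C := 1) ?_ ?_
    · apply Continuous.aestronglyMeasurable
      apply hPc.comp
      fun_prop
    · have h3 : ∀ᵐ p ∂(ρ.prod μ), ‖p.1‖ = 1 ∧ ‖p.2‖ = 1 := by
        have a1 : ∀ᵐ p ∂(ρ.prod μ), ‖p.1‖ = 1 := Measure.quasiMeasurePreserving_fst.ae hn1
        have a2 : ∀ᵐ p ∂(ρ.prod μ), ‖p.2‖ = 1 := Measure.quasiMeasurePreserving_snd.ae hn
        filter_upwards [a1, a2] with p h1 h2 using ⟨h1, h2⟩
      filter_upwards [h3] with p hp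
      show ‖P ⟪p.1, p.2⟫‖ ≤ 1
      rw [Real.norm_eq_abs]
      apply Pg_abs_le
      have := abs_real_inner_le_norm p.1 p.2
      rwa [hp.1, hp.2, mul_one] at this
  have h3 : ∫ u, ∫ w, P ⟪w, u⟫ ∂ρ ∂μ = P 0 * M := by
    rw [hM, ← integral_const_mul]
    apply integral_congr_ae
    filter_upwards [hn] with u hu
    exact hρ3 (k + 1) u hu
  rw [h1, h3] at h2
  have h4 : P 0 ≠ 1 := (Pg_at_zero m k).2
  have h5 : (1 - P 0) * M = 0 := by linarith
  rcases mul_eq_zero.1 h5 with h | h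
  · exact absurd (by linarith) h4
  · exact h

lemma mean_pk {m : ℕ} (μ : Measure (En (m + 3))) [IsFiniteMeasure μ] (hμ : Inv μ)
    (hn : ∀ᵐ u ∂μ, ‖u‖ = 1) {v : En (m + 3)} (hv : ‖v‖ = 1) {r : ℝ} (h0 : 0 ≤ r) (h1 : r < 1) :
    ∫ u, pk (m + 3) r ⟪v, u⟫ ∂μ = μ.real univ := by
  have hab : ∀ᵐ w ∂μ, |⟪v, w⟫| ≤ 1 := by
    filter_upwards [hn] with w hw
    have := abs_real_inner_le_norm v w
    rwa [hw, hv, mul_one] at this
  have hS := hasSum_int μ m h0 h1 (fun w => ⟪v, w⟫) (by fun_prop) hab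
  have h2 : HasSum (fun k : ℕ => r ^ k * dk (m + 3) k * ∫ ω, Pg (m + 3) k ⟪v, ω⟫ ∂μ)
      (r ^ 0 * dk (m + 3) 0 * ∫ ω, Pg (m + 3) 0 ⟪v, ω⟫ ∂μ) := by
    apply hasSum_single 0
    intro k hk
    obtain ⟨j, rfl⟩ := Nat.exists_eq_succ_of_ne_zero hk
    rw [Nat.succ_eq_add_one, avg_zero μ hμ hn hv j, mul_zero]
  rw [hS.unique h2, dk_zero]
  simp [Pg_zero]

/-- the Poisson kernel has mean one -/
theorem mean : S_MEAN := by
  intro n hn r h0 h1 v hv g hg hfin
  obtain ⟨m, rfl⟩ : ∃ m, n = m + 3 := ⟨n - 3, by omega⟩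
  have hdm : Measurable (dir : En (m + 3) → En (m + 3)) := Pool.Agent.W646.AG.measurable_dir
  have hgm : Measurable (fun z : En (m + 3) => g ‖z‖) := hg.comp measurable_norm
  let κ : Measure (En (m + 3)) := (volume : Measure (En (m + 3))).withDensity (fun z => g ‖z‖)
  have hκ : IsFiniteMeasure κ := isFiniteMeasure_withDensity hfin
  let μ : Measure (En (m + 3)) := κ.map dir
  have hμf : IsFiniteMeasure μ := Measure.isFiniteMeasure_map κ dir
  have hκinv : Inv κ := by
    intro e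
    ext s hs
    rw [Measure.map_apply e.continuous.measurable hs, withDensity_apply _ (e.continuous.measurable hs),
      withDensity_apply _ hs]
    have h2 := (e.measurePreserving).setLIntegral_comp_preimage hs hgm
    simp only [e.norm_map] at h2
    exact h2
  have hμ : Inv μ := by
    intro e
    show (κ.map dir).map e = κ.map dir
    rw [Measure.map_map e.continuous.measurable hdm]
    have h3 : (⇑e ∘ dir : En (m + 3) → En (m + 3)) = dir ∘ e := by
      funext z
      exact dr_map e z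
    rw [h3, ← Measure.map_map hdm e.continuous.measurable, hκinv e]
  have hn1 : ∀ᵐ u ∂μ, ‖u‖ = 1 := by
    show ∀ᵐ u ∂(κ.map dir), ‖u‖ = 1
    rw [ae_map_iff hdm.aemeasurable (measurableSet_eq_fun measurable_norm measurable_const)]
    have hac : κ ≪ volume := withDensity_absolutelyContinuous _ _
    apply hac.ae_le
    have : ∀ᵐ z ∂(volume : Measure (En (m + 3))), z ≠ 0 := by
      have h0 : (volume : Measure (En (m + 3))) {0} = 0 := measure_singleton 0
      rw [ae_iff]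
      simp
    filter_upwards [this] with z hz
    exact Pool.Agent.W646.AG.norm_dir hz
  have hmp := mean_pk μ hμ hn1 hv h0 h1
  have hpm : Measurable (fun u : En (m + 3) => pk (m + 3) r ⟪v, u⟫) :=
    (Pool.Agent.W646.AG.measurable_pk (m + 3) r).comp (by fun_prop)
  have e1 : ∫⁻ z : En (m + 3), ENNReal.ofReal (pk (m + 3) r ⟪v, dir z⟫) * g ‖z‖ =
      ∫⁻ u, ENNReal.ofReal (pk (m + 3) r ⟪v, u⟫) ∂μ := by
    show _ = ∫⁻ u, ENNReal.ofReal (pk (m + 3) r ⟪v, u⟫) ∂(κ.map dir)
    have hm2 : Measurable (fun z : En (m + 3) => ENNReal.ofReal (pk (m + 3) r ⟪v, dir z⟫)) :=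
      (hpm.comp hdm).ennreal_ofReal
    rw [lintegral_map hpm.ennreal_ofReal hdm]
    refine Eq.trans ?_ (lintegral_withDensity_eq_lintegral_mul _ hgm hm2).symm
    apply lintegral_congr
    intro z
    rw [Pi.mul_apply, mul_comm]
  have hint : Integrable (fun u => pk (m + 3) r ⟪v, u⟫) μ := by
    refine Integrable.of_bound hpm.aestronglyMeasurable ((1 - r ^ 2) / (1 - r) ^ (m + 3)) ?_
    filter_upwards [hn1] with u hu
    rw [Real.norm_of_nonneg (Pool.Agent.W646.AG.pk_nonneg _ h0 h1 _),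
      Pool.Agent.W646.AG.pk_eq hv hu]
    apply div_le_div_of_nonneg_left (by nlinarith) (by have : 0 < 1 - r := by linarith
                                                       positivity)
    exact pow_le_pow_left₀ (by linarith) (Pool.Agent.W646.AG.norm_sub_ge h0 hv hu) _
  rw [e1, ← ofReal_integral_eq_lintegral_ofReal hint
    (Eventually.of_forall fun u => Pool.Agent.W646.AG.pk_nonneg _ h0 h1 _), hmp,
    ofReal_measureReal]
  show (κ.map dir) univ = _
  rw [Measure.map_apply hdm MeasurableSet.univ, preimage_univ, withDensity_apply _ MeasurableSet.univ,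
    Measure.restrict_univ]

end Pool.Agent.H83.AG
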