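import Pool.Graph.R_seed8.W778.AG.Lap

/-!
The product formula of the Gegenbauer polynomials.
-/

set_option autoImplicit false

open MeasureTheory Metric Set
open scoped ENNReal RealInnerProductSpace

namespace Pool.Agent.H83.AG

open Pool.Agent.W778.AG

/-- recurrence without division -/
lemma Pg_rec (m k : ℕ) (t : ℝ) : ((k : ℝ) + m + 2) * Pg (m + 3) (k + 2) t =
    (2 * (k : ℝ) + m + 3) * t * Pg (m + 3) (k + 1) t - ((k : ℝ) + 1) * Pg (m + 3) k t := by
  rw [Pg_add_two]
  have h : (k : ℝ) + ((m + 3 : ℕ) : ℝ) - 1 = (k : ℝ) + m + 2 := by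
    push_cast
    ring
  have h2 : (k : ℝ) + m + 2 ≠ 0 := by positivity
  rw [h]
  field_simp
  push_cast
  ring

/-- relation between consecutive dimensions -/
lemma Pg_C (m k : ℕ) (t : ℝ) : (2 * (k : ℝ) + m + 5) * (m + 2) * Pg (m + 3) (k + 2) t =
    ((k : ℝ) + m + 3) * (k + m + 4) * Pg (m + 5) (k + 2) t -
      ((k : ℝ) + 1) * (k + 2) * Pg (m + 5) k t := by
  induction k using Nat.twoStepInduction with
  | zero =>
    have h1 := Pg_rec m 0 t
    have h2 := Pg_rec (m + 2) 0 t
    rw [show m + 2 + 3 = m + 5 from rfl] at h2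
    simp only [zero_add, Pg_one, Pg_zero] at h1 h2 ⊢
    push_cast at h1 h2 ⊢
    linear_combination ((m : ℝ) + 5) * h1 - ((m : ℝ) + 3) * h2
  | one =>
    have h1 := Pg_rec m 0 t
    have h2 := Pg_rec (m + 2) 0 t
    have h3 := Pg_rec m 1 t
    have h4 := Pg_rec (m + 2) 1 t
    rw [show m + 2 + 3 = m + 5 from rfl] at h2 h4
    simp only [zero_add, Pg_one, Pg_zero, Nat.reduceAdd] at h1 h2 h3 h4 ⊢
    push_cast at h1 h2 h3 h4 ⊢
    have h5 : ((m : ℝ) + 3) * (m + 2) ≠ 0 := by positivity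
    have h6 : ((m : ℝ) + 4) ≠ 0 := by positivity
    apply mul_left_cancel₀ (mul_ne_zero h5 h6)
    linear_combination ((m : ℝ) + 7) * (m + 2) * (m + 2) * (m + 4) * h3 +
      ((m : ℝ) + 7) * (m + 5) * (m + 2) * (m + 4) * t * h1 -
      (m + 3) * (m + 2) * (m + 4) * (m + 4) * h4 -
      (m + 3) * (m + 2) * (m + 4) * (m + 7) * t * h2
  | more k c0 c1 =>
    have h4 := Pg_rec m (k + 2) t
    have r4 := Pg_rec (m + 2) (k + 2) t
    have r2 := Pg_rec (m + 2) k t
    rw [show m + 2 + 3 = m + 5 from rfl] at r4 r2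
    rw [show k + 2 + 2 = k + 4 from rfl, show k + 2 + 1 = k + 3 from rfl] at h4 r4
    rw [show k + 1 + 2 = k + 3 from rfl] at c1
    rw [show k + 2 + 2 = k + 4 from rfl]
    push_cast at c0 c1 h4 r4 r2 ⊢
    have h5 : ((k : ℝ) + m + 4) ≠ 0 := by positivity
    have h6 : (2 * (k : ℝ) + m + 5) ≠ 0 := by positivity
    apply mul_left_cancel₀ (mul_ne_zero h5 h6)
    linear_combination (2 * (k : ℝ) + m + 9) * (m + 2) * (2 * k + m + 5) * h4 +
      (2 * (k : ℝ) + m + 9) * (2 * k + m + 5) * t * c1 -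
      (2 * (k : ℝ) + m + 9) * (k + 3) * c0 -
      ((k : ℝ) + m + 4) * (2 * k + m + 5) * (k + m + 5) * r4 +
      (2 * (k : ℝ) + m + 9) * (k + 2) * (k + 3) * r2

/-- derivative -/
lemma Pg_deriv (m k : ℕ) (t : ℝ) : HasDerivAt (fun t => Pg (m + 3) (k + 1) t)
    (((k : ℝ) + 1) * (k + m + 2) / (m + 2) * Pg (m + 5) k t) t := by
  have hm : (m : ℝ) + 2 ≠ 0 := by positivity
  induction k using Nat.twoStepInduction with
  | zero =>
    simp only [zero_add, Pg_one, Pg_zero]
    refine (hasDerivAt_id t).congr_deriv ?_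
    push_cast
    field_simp
    ring
  | one =>
    have h : (fun t => Pg (m + 3) (1 + 1) t) = fun t => (((m : ℝ) + 3) * t ^ 2 - 1) / (m + 2) := by
      funext t
      have h1 := Pg_rec m 0 t
      simp only [zero_add, Pg_one, Pg_zero] at h1
      push_cast at h1
      rw [eq_div_iff hm]
      linear_combination h1
    rw [h, Pg_one]
    have h2 := (((hasDerivAt_pow 2 t).const_mul ((m : ℝ) + 3)).sub_const 1).div_const ((m : ℝ) + 2)
    refine h2.congr_deriv ?_
    push_cast
    field_simp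
    ring
  | more k h1 h2 =>
    have h : (fun t => Pg (m + 3) (k + 2 + 1) t) = fun t => ((2 * (k : ℝ) + m + 5) * (t *
        Pg (m + 3) (k + 1 + 1) t) - ((k : ℝ) + 2) * Pg (m + 3) (k + 1) t) / (k + m + 3) := by
      funext t
      have h1 := Pg_rec m (k + 1) t
      rw [show k + 1 + 2 = k + 2 + 1 from rfl] at h1
      push_cast at h1
      have h3 : (k : ℝ) + m + 3 ≠ 0 := by positivity
      rw [eq_div_iff h3]
      linear_combination h1
    rw [h]
    have h3 : (k : ℝ) + m + 3 ≠ 0 := by positivity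
    have h4 := (((hasDerivAt_id t).mul h2).const_mul (2 * (k : ℝ) + m + 5)).sub
      (h1.const_mul ((k : ℝ) + 2)) |>.div_const ((k : ℝ) + m + 3)
    refine h4.congr_deriv ?_
    have c := Pg_C m k t
    have r := Pg_rec (m + 2) k t
    rw [show m + 2 + 3 = m + 5 from rfl] at r
    push_cast at r ⊢
    simp only [id_eq, one_mul]
    rw [show k + 1 + 1 = k + 2 from rfl]
    field_simp
    linear_combination c - ((k : ℝ) + 2) * (k + m + 3) * r

/-- structural identity -/
lemma Pg_E (m k : ℕ) (a : ℝ) : ((k : ℝ) + m + 2) * ((1 - a ^ 2) * Pg (m + 5) k a) =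
    ((m : ℝ) + 2) * (Pg (m + 3) k a - a * Pg (m + 3) (k + 1) a) := by
  induction k using Nat.twoStepInduction with
  | zero => simp only [zero_add, Pg_one, Pg_zero]; push_cast; ring
  | one =>
    have h1 := Pg_rec m 0 a
    simp only [zero_add, Pg_one, Pg_zero, Nat.reduceAdd] at h1 ⊢
    push_cast at h1 ⊢
    linear_combination a * h1
  | more k h1 h2 =>
    have p2 := Pg_rec m k a
    have p3 := Pg_rec m (k + 1) a
    have r2 := Pg_rec (m + 2) k a
    rw [show m + 2 + 3 = m + 5 from rfl] at r2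
    rw [show k + 1 + 2 = k + 3 from rfl, show k + 1 + 1 = k + 2 from rfl] at p3
    rw [show k + 1 + 1 = k + 2 from rfl] at h2
    rw [show k + 2 + 1 = k + 3 from rfl]
    push_cast at h1 h2 p2 p3 r2 ⊢
    have h5 : ((k : ℝ) + m + 3) ≠ 0 := by positivity
    have h6 : ((k : ℝ) + m + 2) ≠ 0 := by positivity
    apply mul_left_cancel₀ (mul_ne_zero h5 h6)
    linear_combination ((k : ℝ) + m + 3) * (k + m + 2) * (1 - a ^ 2) * r2 +
      ((k : ℝ) + m + 2) * (2 * k + m + 5) * a * h2 - ((k : ℝ) + m + 3) * (k + 1) * h1 +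
      ((m : ℝ) + 2) * (k + m + 2) * a * p3 - ((m : ℝ) + 2) * (k + m + 3) * p2

lemma Pg_cont (m k : ℕ) : Continuous (fun t => Pg (m + 3) k t) := by
  induction k using Nat.twoStepInduction with
  | zero => simp only [Pg_zero]; exact continuous_const
  | one => simp only [Pg_one]; exact continuous_id
  | more k h1 h2 =>
    simp only [Pg_add_two]
    fun_prop

lemma sinI_pos (m : ℕ) : 0 < ∫ φ in (0 : ℝ)..Real.pi, Real.sin φ ^ m := integral_sin_pow_pos m

lemma sinI_rec (m : ℕ) : ((m : ℝ) + 2) * ∫ φ in (0 : ℝ)..Real.pi, Real.sin φ ^ (m + 2) =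
    ((m : ℝ) + 1) * ∫ φ in (0 : ℝ)..Real.pi, Real.sin φ ^ m := by
  rw [integral_sin_pow]
  simp only [Real.sin_zero, Real.sin_pi]
  rw [zero_pow (Nat.succ_ne_zero m)]
  have : (m : ℝ) + 2 ≠ 0 := by positivity
  field_simp
  ring

/-- integration by parts -/
lemma ibp (m : ℕ) (g g' : ℝ → ℝ) (hg : ∀ t, HasDerivAt g (g' t) t) (hg' : Continuous g') :
    ((m : ℝ) + 1) * ∫ φ in (0 : ℝ)..Real.pi, (Real.cos φ * g (Real.cos φ)) * Real.sin φ ^ m =
      ∫ φ in (0 : ℝ)..Real.pi, g' (Real.cos φ) * Real.sin φ ^ (m + 2) := by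
  have hgc : Continuous g := continuous_iff_continuousAt.2 fun t => (hg t).continuousAt
  have hder : ∀ φ ∈ uIcc (0 : ℝ) Real.pi, HasDerivAt
      (fun φ : ℝ => Real.sin φ ^ (m + 1) * g (Real.cos φ))
      (((m : ℝ) + 1) * ((Real.cos φ * g (Real.cos φ)) * Real.sin φ ^ m) -
        g' (Real.cos φ) * Real.sin φ ^ (m + 2)) φ := by
    intro φ _
    have h1 := (Real.hasDerivAt_sin φ).fun_pow (m + 1)
    have h2 : HasDerivAt (fun φ => g (Real.cos φ)) (g' (Real.cos φ) * (-Real.sin φ)) φ :=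
      (hg (Real.cos φ)).comp φ (Real.hasDerivAt_cos φ)
    refine (h1.fun_mul h2).congr_deriv ?_
    rw [Nat.add_sub_cancel]
    push_cast
    ring
  have i1 : IntervalIntegrable (fun φ => ((m : ℝ) + 1) * ((Real.cos φ * g (Real.cos φ)) *
      Real.sin φ ^ m)) volume 0 Real.pi := by
    apply Continuous.intervalIntegrable
    fun_prop
  have i2 : IntervalIntegrable (fun φ => g' (Real.cos φ) * Real.sin φ ^ (m + 2)) volume 0
      Real.pi := by
    apply Continuous.intervalIntegrable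
    fun_prop
  have hI := intervalIntegral.integral_eq_sub_of_hasDerivAt hder (i1.sub i2)
  rw [intervalIntegral.integral_sub i1 i2, intervalIntegral.integral_const_mul] at hI
  simp only [Real.sin_pi, Real.sin_zero] at hI
  rw [zero_pow (Nat.succ_ne_zero m)] at hI
  linarith

lemma LE_ibp (m : ℕ) (g g' : ℝ → ℝ) (hg : ∀ t, HasDerivAt g (g' t) t) (hg' : Continuous g') :
    ((m : ℝ) + 2) * LE (m + 3) (fun φ => Real.cos φ * g (Real.cos φ)) =
      LE (m + 5) (fun φ => g' (Real.cos φ)) := by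
  unfold Pool.Agent.W778.AG.LE
  rw [show m + 3 - 3 = m from rfl, show m + 5 - 3 = m + 2 from rfl, ← ibp m g g' hg hg']
  have h1 := sinI_pos m
  have h2 := sinI_pos (m + 2)
  have h3 := sinI_rec m
  have hm : (m : ℝ) + 2 ≠ 0 := by positivity
  have hm1 : (m : ℝ) + 1 ≠ 0 := by positivity
  have h4 : ∫ φ in (0 : ℝ)..Real.pi, Real.sin φ ^ (m + 2) =
      ((m : ℝ) + 1) / (m + 2) * ∫ φ in (0 : ℝ)..Real.pi, Real.sin φ ^ m := by
    field_simp
    linarith
  rw [h4]
  field_simp

lemma LE_add (n : ℕ) (f g : ℝ → ℝ) (hf : Continuous f) (hg : Continuous g) :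
    LE n (fun φ => f φ + g φ) = LE n f + LE n g := by
  unfold Pool.Agent.W778.AG.LE
  rw [← add_div, ← intervalIntegral.integral_add]
  · congr 1
    congr 1
    ext φ
    ring
  · apply Continuous.intervalIntegrable; fun_prop
  · apply Continuous.intervalIntegrable; fun_prop

lemma LE_const_mul (n : ℕ) (c : ℝ) (f : ℝ → ℝ) :
    LE n (fun φ => c * f φ) = c * LE n f := by
  unfold Pool.Agent.W778.AG.LE
  rw [← mul_div_assoc, ← intervalIntegral.integral_const_mul]
  congr 1
  congr 1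
  ext φ
  ring

lemma LE_const (m : ℕ) (c : ℝ) : LE (m + 3) (fun _ => c) = c := by
  unfold Pool.Agent.W778.AG.LE
  rw [show m + 3 - 3 = m from rfl, intervalIntegral.integral_const_mul]
  have := (sinI_pos m).ne'
  field_simp

/-- the product formula -/
theorem prodF (k m : ℕ) (a b s s' : ℝ) (ha : a ^ 2 + s ^ 2 = 1) (hb : b ^ 2 + s' ^ 2 = 1) :
    LE (m + 3) (fun φ => Pg (m + 3) k (a * b + s * s' * Real.cos φ)) =
      Pg (m + 3) k a * Pg (m + 3) k b := by
  induction k using Nat.twoStepInduction generalizing m with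
  | zero => simp only [Pg_zero, mul_one]; exact LE_const m 1
  | one =>
    simp only [Pg_one]
    rw [LE_add _ _ _ (by fun_prop) (by fun_prop), LE_const, LE_const_mul]
    have h := LE_ibp m (fun _ => 1) (fun _ => 0) (fun t => hasDerivAt_const t 1) continuous_const
    simp only [mul_one] at h
    rw [LE_const (m + 2)] at h
    have hm : (m : ℝ) + 2 ≠ 0 := by positivity
    have h2 : LE (m + 3) (fun φ => Real.cos φ) = 0 := by
      rcases mul_eq_zero.1 h with h | h
      · exact absurd h hm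
      · exact h
    rw [h2]
    ring
  | more k h1 h2 =>
    have IH := h1 (m + 2)
    rw [show m + 2 + 3 = m + 5 from rfl] at IH
    have hc := Pg_cont m k
    have hc1 := Pg_cont m (k + 1)
    have hr := Pg_cont (m + 2) k
    rw [show m + 2 + 3 = m + 5 from rfl] at hr
    set x := a * b with hx
    set y := s * s' with hy
    have e1 : ∀ φ : ℝ, Pg (m + 3) (k + 2) (x + y * Real.cos φ) =
        (2 * (k : ℝ) + m + 3) / (k + m + 2) * x * Pg (m + 3) (k + 1) (x + y * Real.cos φ) +
        ((2 * (k : ℝ) + m + 3) / (k + m + 2) * y *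
          (Real.cos φ * Pg (m + 3) (k + 1) (x + y * Real.cos φ)) +
        (-((k : ℝ) + 1) / (k + m + 2)) * Pg (m + 3) k (x + y * Real.cos φ)) := by
      intro φ
      have := Pg_rec m k (x + y * Real.cos φ)
      have h3 : (k : ℝ) + m + 2 ≠ 0 := by positivity
      field_simp
      linear_combination this
    simp_rw [e1]
    rw [LE_add _ _ _ (by fun_prop) (by fun_prop), LE_add _ _ _ (by fun_prop) (by fun_prop),
      LE_const_mul, LE_const_mul, LE_const_mul, h1 m, h2 m]
    have h3 := LE_ibp m (fun t => Pg (m + 3) (k + 1) (x + y * t))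
      (fun t => y * (((k : ℝ) + 1) * (k + m + 2) / (m + 2)) * Pg (m + 5) k (x + y * t))
      (fun t => by
        have h4 : HasDerivAt (fun t : ℝ => x + y * t) y t := by
          simpa using ((hasDerivAt_id t).const_mul y).const_add x
        have h5 := (Pg_deriv m k (x + y * t)).comp t h4
        refine h5.congr_deriv ?_
        ring) (by fun_prop)
    rw [LE_const_mul, IH] at h3
    have ea := Pg_E m k a
    have eb := Pg_E m k b
    have hs : s ^ 2 = 1 - a ^ 2 := by linarith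
    have hs' : s' ^ 2 = 1 - b ^ 2 := by linarith
    have pa := Pg_rec m k a
    have pb := Pg_rec m k b
    have hm : (m : ℝ) + 2 ≠ 0 := by positivity
    have hk : (k : ℝ) + m + 2 ≠ 0 := by positivity
    set T := LE (m + 3) (fun φ => Real.cos φ * Pg (m + 3) (k + 1) (x + y * Real.cos φ)) with hT
    -- key: y * T
    have key : ((k : ℝ) + m + 2) * (y * T) = ((k : ℝ) + 1) * (Pg (m + 3) k a - a * Pg (m + 3) (k + 1) a) *
        (Pg (m + 3) k b - b * Pg (m + 3) (k + 1) b) := by
      have h6 : y ^ 2 = (1 - a ^ 2) * (1 - b ^ 2) := by rw [hy, mul_pow, hs, hs']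
      have h7 : ((m : ℝ) + 2) * ((m : ℝ) + 2) ≠ 0 := mul_ne_zero hm hm
      apply mul_left_cancel₀ h7
      have h8 : ((m : ℝ) + 2) * ((m : ℝ) + 2) * (((k : ℝ) + m + 2) * (y * T)) =
          ((k : ℝ) + m + 2) * y * (m + 2) * ((m + 2) * T) := by ring
      rw [h8, h3]
      have h9 : ((k : ℝ) + m + 2) * y * (m + 2) * (y * (((k : ℝ) + 1) * (k + m + 2) / (m + 2)) *
          (Pg (m + 5) k a * Pg (m + 5) k b)) = ((k : ℝ) + 1) * (k + m + 2) ^ 2 * y ^ 2 *
          (Pg (m + 5) k a * Pg (m + 5) k b) := by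
        field_simp
      rw [h9, h6]
      linear_combination ((k : ℝ) + 1) * ((k : ℝ) + m + 2) * ((1 - b ^ 2) * Pg (m + 5) k b) * ea +
        ((k : ℝ) + 1) * (((m : ℝ) + 2) * (Pg (m + 3) k a - a * Pg (m + 3) (k + 1) a)) * eb
    have h10 : ((k : ℝ) + m + 2) * ((k : ℝ) + m + 2) ≠ 0 := mul_ne_zero hk hk
    apply mul_left_cancel₀ h10
    have h11 : ((k : ℝ) + m + 2) * ((k : ℝ) + m + 2) * (Pg (m + 3) (k + 2) a * Pg (m + 3) (k + 2) b) =
        (((k : ℝ) + m + 2) * Pg (m + 3) (k + 2) a) * (((k : ℝ) + m + 2) * Pg (m + 3) (k + 2) b) := by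
      ring
    rw [h11, pa, pb]
    field_simp
    linear_combination (2 * (k : ℝ) + m + 3) * key

end Pool.Agent.H83.AG
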