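import Pool.Agent.H83.AG.Ker

/-!
Positive definiteness of the Gegenbauer kernels.
-/

set_option autoImplicit false
set_option linter.unusedSectionVars false

open MeasureTheory Metric Set Filter Topology
open scoped ENNReal RealInnerProductSpace

namespace Pool.Agent.H83.AG

open Pool.Agent.W778.AG

lemma Sph.ae {n : ℕ} {μ : Measure (En n)} (h : Sph μ) : ∀ᵐ u ∂μ, ‖u‖ = 1 := by
  rw [ae_iff]
  refine le_antisymm ((measure_mono ?_).trans h.2.le) zero_le
  intro w hw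
  simpa using hw

lemma inner_abs {n : ℕ} {u v : En n} (hu : ‖u‖ = 1) (hv : ‖v‖ = 1) : |⟪u, v⟫| ≤ 1 := by
  have := abs_real_inner_le_norm u v
  rwa [hu, hv, mul_one] at this

/-- integrability of the kernels on products -/
lemma int_prod {n : ℕ} {μ μ' : Measure (En n)} [IsFiniteMeasure μ] [IsFiniteMeasure μ']
    (h : ∀ᵐ u ∂μ, ‖u‖ = 1) (h' : ∀ᵐ u ∂μ', ‖u‖ = 1) (f : En n × En n → ℝ)
    (hf : Measurable f) (C : ℝ) (hC : ∀ u v, ‖u‖ = 1 → ‖v‖ = 1 → |f (u, v)| ≤ C) :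
    Integrable f (μ.prod μ') := by
  refine Integrable.of_bound hf.aestronglyMeasurable C ?_
  have a1 : ∀ᵐ p ∂(μ.prod μ'), ‖p.1‖ = 1 := Measure.quasiMeasurePreserving_fst.ae h
  have a2 : ∀ᵐ p ∂(μ.prod μ'), ‖p.2‖ = 1 := Measure.quasiMeasurePreserving_snd.ae h'
  filter_upwards [a1, a2] with p h1 h2
  exact hC p.1 p.2 h1 h2

variable {m : ℕ}

/-- the normalising constant -/
noncomputable def ck (m k : ℕ) : ℝ := LE (m + 4) (fun φ => Pg (m + 3) k (Real.cos φ) ^ 2)

lemma ck_pos (m k : ℕ) : 0 < ck m k := by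
  unfold ck Pool.Agent.W778.AG.LE
  have hc := Pg_cont m k
  refine div_pos ?_ (sinI_pos _)
  refine intervalIntegral.integral_pos Real.pi_pos (by fun_prop) ?_ ?_
  · intro x hx
    exact mul_nonneg (sq_nonneg _) (pow_nonneg (Real.sin_nonneg_of_nonneg_of_le_pi hx.1.le hx.2) _)
  · have h1 : Tendsto (fun φ : ℝ => Pg (m + 3) k (Real.cos φ)) (𝓝 0) (𝓝 1) := by
      have : Continuous (fun φ : ℝ => Pg (m + 3) k (Real.cos φ)) := by fun_prop
      have h2 := this.tendsto 0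
      rwa [Real.cos_zero, Pg_at_one] at h2
    have h2 : ∀ᶠ φ : ℝ in 𝓝[>] 0, 0 < Pg (m + 3) k (Real.cos φ) :=
      (h1.mono_left nhdsWithin_le_nhds).eventually (lt_mem_nhds one_pos)
    have h3 : ∀ᶠ φ : ℝ in 𝓝[>] 0, φ ∈ Ioo 0 Real.pi := Ioo_mem_nhdsGT Real.pi_pos
    obtain ⟨φ, h4, h5⟩ := (h2.and h3).exists
    exact ⟨φ, Ioo_subset_Icc_self h5, mul_pos (pow_pos h4 2)
      (pow_pos (Real.sin_pos_of_pos_of_lt_pi h5.1 h5.2) _)⟩

lemma Pg_pol' (m k : ℕ) : Pol (fun t => Pg (m + 3) k t) := by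
  have := Pg_pol m k 0 1
  simpa only [zero_add, one_mul] using this

instance : Nontrivial (En (m + 3)) := by
  have : Nonempty (Fin (m + 3)) := ⟨0⟩
  infer_instance

/-- reproducing property -/
lemma repr (k : ℕ) {u v : En (m + 3)} (hu : ‖u‖ = 1) (hv : ‖v‖ = 1) :
    ∫ x, Pg (m + 3) k ⟪u, x⟫ * Pg (m + 3) k ⟪x, v⟫ ∂(sph (En (m + 3))) =
      ck m k * Pg (m + 3) k ⟪u, v⟫ := by
  set P := Pg (m + 3) k with hP
  have hPc : Continuous P := Pg_cont m k
  have hin := abs_le.1 (inner_abs hu hv)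
  set α := Real.arccos ⟪u, v⟫ with hα
  have hcos : Real.cos α = ⟪u, v⟫ := Real.cos_arccos hin.1 hin.2
  obtain ⟨ρ, hρ, hρ2, hρ3⟩ := avg (m + 3) (by omega) u α hu
  have hρp := hρ.1
  have hn1 := Sph.ae hρ
  have hn2 : ∀ᵐ w ∂ρ, ⟪u, w⟫ = Real.cos α := by
    rw [ae_iff]
    exact hρ2
  have hs : ∀ᵐ x ∂(sph (En (m + 3))), ‖x‖ = 1 := sph_norm
  have h1 : ∫ w, ∫ x, P ⟪u, x⟫ * P ⟪x, w⟫ ∂(sph (En (m + 3))) ∂ρ =
      ∫ x, P ⟪u, x⟫ * P ⟪x, v⟫ ∂(sph (En (m + 3))) := by
    have : ∀ᵐ w ∂ρ, ∫ x, P ⟪u, x⟫ * P ⟪x, w⟫ ∂(sph (En (m + 3))) =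
        ∫ x, P ⟪u, x⟫ * P ⟪x, v⟫ ∂(sph (En (m + 3))) := by
      filter_upwards [hn1, hn2] with w hw1 hw2
      obtain ⟨g, hg1, hg2⟩ := exists_iso2 (u := u) (v := w) (u' := u) (v' := v) rfl
        (by rw [hv, hw1]) (by rw [hw2, hcos])
      rw [← sph_inv.int g (fun x => P ⟪u, x⟫ * P ⟪x, v⟫)]
      have e1 : ∀ x, ⟪u, g x⟫ = ⟪u, x⟫ := by
        intro x
        conv_lhs => rw [← hg1]
        exact g.inner_map_map _ _
      have e2 : ∀ x, ⟪g x, v⟫ = ⟪x, w⟫ := by
        intro x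
        conv_lhs => rw [← hg2]
        exact g.inner_map_map _ _
      simp only [e1, e2]
    rw [integral_congr_ae this]
    simp
  have h2 : ∫ w, ∫ x, P ⟪u, x⟫ * P ⟪x, w⟫ ∂(sph (En (m + 3))) ∂ρ =
      ∫ x, ∫ w, P ⟪u, x⟫ * P ⟪x, w⟫ ∂ρ ∂(sph (En (m + 3))) := by
    apply integral_integral_swap
    refine int_prod hn1 hs _ ?_ 1 ?_
    · apply Continuous.measurable
      fun_prop
    · intro w x hw hx
      show |P ⟪u, x⟫ * P ⟪x, w⟫| ≤ 1
      rw [abs_mul]
      exact mul_le_one₀ (Pg_abs_le m k (inner_abs hu hx)) (abs_nonneg _)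
        (Pg_abs_le m k (inner_abs hx hw))
  have h3 : ∫ x, ∫ w, P ⟪u, x⟫ * P ⟪x, w⟫ ∂ρ ∂(sph (En (m + 3))) =
      ∫ x, P (Real.cos α) * P ⟪x, u⟫ ^ 2 ∂(sph (En (m + 3))) := by
    apply integral_congr_ae
    filter_upwards [hs] with x hx
    rw [integral_const_mul]
    have e3 : ∫ w, P ⟪x, w⟫ ∂ρ = ∫ w, P ⟪w, x⟫ ∂ρ := by
      congr 1
      ext w
      rw [real_inner_comm]
    rw [e3, hρ3 k x hx, real_inner_comm]
    ring
  have h4 : ∫ x, P ⟪x, u⟫ ^ 2 ∂(sph (En (m + 3))) = ck m k := by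
    have hpol : Pol (fun t => P t ^ 2) := by
      obtain ⟨p, hp⟩ := Pg_pol' m k
      refine ⟨p ^ 2, fun t => ?_⟩
      rw [Polynomial.eval_pow, ← hp t]
    have := marg (V := En (m + 3)) (μ := sph (En (m + 3))) sph_inv hs (m := m + 1)
      (by rw [finrank_euclideanSpace, Fintype.card_fin]) hu hpol
    exact this
  rw [← h1, h2, h3, integral_const_mul, h4, hcos, mul_comm]

/-- positive definiteness -/
theorem psd : S_PSD := by
  intro n k J hn μ a hμ
  obtain ⟨m, rfl⟩ : ∃ m, n = m + 3 := ⟨n - 3, by omega⟩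
  set P := Pg (m + 3) k with hP
  have hPc : Continuous P := Pg_cont m k
  have hPr : ∀ i, IsProbabilityMeasure (μ i) := fun i => (hμ i).1
  have hae : ∀ i, ∀ᵐ u ∂(μ i), ‖u‖ = 1 := fun i => Sph.ae (hμ i)
  let σ : Measure (En (m + 3)) := sph (En (m + 3))
  have hs : ∀ᵐ x ∂σ, ‖x‖ = 1 := sph_norm
  let h : Fin J → En (m + 3) → ℝ := fun i x => ∫ u, P ⟪u, x⟫ ∂(μ i)
  have hhm : ∀ i, Measurable (h i) := by
    intro i
    have : StronglyMeasurable (fun p : En (m + 3) × En (m + 3) => P ⟪p.2, p.1⟫) := by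
      apply Continuous.stronglyMeasurable
      fun_prop
    exact this.integral_prod_right.measurable
  have hhb : ∀ i x, ‖x‖ = 1 → |h i x| ≤ 1 := by
    intro i x hx
    have : ‖∫ u, P ⟪u, x⟫ ∂(μ i)‖ ≤ 1 * (μ i).real univ := by
      apply norm_integral_le_of_norm_le_const
      filter_upwards [hae i] with u hu
      exact Pg_abs_le m k (inner_abs hu hx)
    simpa using this
  have key : ∀ i j, ck m k * fm (m + 3) k (μ i) (μ j) = ∫ x, h i x * h j x ∂σ := by
    intro i j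
    unfold fm
    rw [← integral_const_mul]
    have e1 : ∫ u, ck m k * ∫ v, Pg (m + 3) k ⟪u, v⟫ ∂(μ j) ∂(μ i) =
        ∫ u, ∫ x, P ⟪u, x⟫ * h j x ∂σ ∂(μ i) := by
      apply integral_congr_ae
      filter_upwards [hae i] with u hu
      rw [← integral_const_mul]
      have e2 : ∫ v, ck m k * Pg (m + 3) k ⟪u, v⟫ ∂(μ j) =
          ∫ v, ∫ x, P ⟪u, x⟫ * P ⟪x, v⟫ ∂σ ∂(μ j) := by
        apply integral_congr_ae
        filter_upwards [hae j] with v hv
        exact (repr k hu hv).symm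
      rw [e2, integral_integral_swap]
      · apply integral_congr_ae
        refine Eventually.of_forall fun x => ?_
        show ∫ v, P ⟪u, x⟫ * P ⟪x, v⟫ ∂(μ j) = P ⟪u, x⟫ * ∫ v, P ⟪v, x⟫ ∂(μ j)
        rw [integral_const_mul]
        congr 2
        ext v
        rw [real_inner_comm]
      · refine int_prod (hae j) hs _ ?_ 1 ?_
        · apply Continuous.measurable
          fun_prop
        · intro w x hw hx
          show |P ⟪u, x⟫ * P ⟪x, w⟫| ≤ 1
          rw [abs_mul]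
          exact mul_le_one₀ (Pg_abs_le m k (inner_abs hu hx)) (abs_nonneg _)
            (Pg_abs_le m k (inner_abs hx hw))
    rw [e1, integral_integral_swap]
    · apply integral_congr_ae
      refine Eventually.of_forall fun x => ?_
      show ∫ u, P ⟪u, x⟫ * h j x ∂(μ i) = h i x * h j x
      rw [integral_mul_const]
    · refine int_prod (hae i) hs _ ?_ 1 ?_
      · apply Measurable.mul
        · apply Continuous.measurable
          fun_prop
        · exact (hhm j).comp measurable_snd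
      · intro u x hu hx
        show |P ⟪u, x⟫ * h j x| ≤ 1
        rw [abs_mul]
        exact mul_le_one₀ (Pg_abs_le m k (inner_abs hu hx)) (abs_nonneg _) (hhb j x hx)
  have hint : ∀ i j, Integrable (fun x => h i x * h j x) σ := by
    intro i j
    refine Integrable.of_bound ((hhm i).mul (hhm j)).aestronglyMeasurable 1 ?_
    filter_upwards [hs] with x hx
    show |h i x * h j x| ≤ 1
    rw [abs_mul]
    exact mul_le_one₀ (hhb i x hx) (abs_nonneg _) (hhb j x hx)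
  have hfin : ck m k * (∑ i, ∑ j, a i * a j * fm (m + 3) k (μ i) (μ j)) =
      ∫ x, (∑ i, a i * h i x) ^ 2 ∂σ := by
    rw [Finset.mul_sum]
    have e3 : ∀ x, (∑ i, a i * h i x) ^ 2 = ∑ i, ∑ j, a i * a j * (h i x * h j x) := by
      intro x
      rw [sq, Finset.sum_mul_sum]
      refine Finset.sum_congr rfl fun i _ => Finset.sum_congr rfl fun j _ => ?_
      ring
    simp_rw [e3]
    rw [integral_finsetSum]
    · refine Finset.sum_congr rfl fun i _ => ?_
      rw [integral_finsetSum]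
      · rw [Finset.mul_sum]
        refine Finset.sum_congr rfl fun j _ => ?_
        rw [integral_const_mul, ← key]
        ring
      · intro j _
        exact (hint i j).const_mul _
    · intro i _
      apply integrable_finsetSum
      intro j _
      exact (hint i j).const_mul _
  have h0 : 0 ≤ ck m k * (∑ i, ∑ j, a i * a j * fm (m + 3) k (μ i) (μ j)) := by
    rw [hfin]
    exact integral_nonneg fun x => sq_nonneg _
  exact nonneg_of_mul_nonneg_right h0 (ck_pos m k)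

end Pool.Agent.H83.AG
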