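import Pool.Agent.H83.AG.Tr
import Pool.Agent.H83.AG.Large
import Pool.Graph.R_seed8.W342.AG.Slice

/-!
Right angles.
-/

set_option autoImplicit false
set_option linter.unusedSectionVars false

open MeasureTheory Metric Set Filter Topology
open scoped ENNReal NNReal RealInnerProductSpace

namespace Pool.Agent.H83.AG

open Pool.Agent.W778.AG

/-- fibres with a single point -/
lemma fib_null {n m : ℕ} (q : En n →L[ℝ] En m) (ν : Measure (En n)) (K : Set (En n))
    (hK : IsCompact K) (hνK : ν Kᶜ = 0)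
    (h : ∀ L : Set (En n), MeasurableSet L → InjOn q L → ν L = 0) :
    ∀ᵐ y ∂ν, y ∈ K ∧ ∃ x ∈ K, x ≠ y ∧ q x = q y := by
  set Z : ℕ → Set (En n) := fun j => Prod.snd '' ((K ×ˢ K) ∩
    ({p : En n × En n | 1 / ((j : ℝ) + 1) ≤ dist p.1 p.2} ∩ {p | q p.1 = q p.2})) with hZ
  have hZm : ∀ j, MeasurableSet (Z j) := by
    intro j
    apply IsCompact.measurableSet
    apply IsCompact.image _ continuous_snd
    apply (hK.prod hK).inter_right
    apply IsClosed.inter
    · exact isClosed_le continuous_const (by fun_prop)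
    · exact isClosed_eq (by fun_prop) (by fun_prop)
  have hmem : ∀ y, y ∈ ⋃ j, Z j ↔ (y ∈ K ∧ ∃ x ∈ K, x ≠ y ∧ q x = q y) := by
    intro y
    rw [mem_iUnion]
    constructor
    · rintro ⟨j, p, ⟨hp, hp1, hp2⟩, rfl⟩
      refine ⟨hp.2, p.1, hp.1, ?_, hp2⟩
      intro h0
      have hp1' : 1 / ((j : ℝ) + 1) ≤ dist p.1 p.2 := hp1
      rw [h0, dist_self] at hp1'
      have : 0 < 1 / ((j : ℝ) + 1) := by positivity
      linarith
    · rintro ⟨hy, x, hx, hxy, hq⟩
      obtain ⟨j, hj⟩ := exists_nat_one_div_lt (dist_pos.2 hxy)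
      exact ⟨j, (x, y), ⟨⟨hx, hy⟩, hj.le, hq⟩, rfl⟩
  have hL : ν (K \ ⋃ j, Z j) = 0 := by
    apply h
    · exact hK.measurableSet.diff (MeasurableSet.iUnion hZm)
    · rintro y ⟨hy1, hy2⟩ y' ⟨hy1', hy2'⟩ hq
      by_contra hne
      apply hy2
      rw [hmem]
      exact ⟨hy1, y', hy1', fun h => hne h.symm, hq.symm⟩
  have h1 : ∀ᵐ y ∂ν, y ∈ K := by rw [ae_iff]; exact hνK
  have h2 : ∀ᵐ y ∂ν, y ∉ K \ ⋃ j, Z j := by
    rw [ae_iff]
    exact measure_mono_null (fun y hy => not_not.1 hy) hL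
  filter_upwards [h1, h2] with y h1 h2
  rw [← hmem]
  by_contra hcon
  exact h2 ⟨h1, hcon⟩

lemma norm_le_sum {m : ℕ} (v : En m) : ‖v‖ ≤ ∑ i, |v i| := by
  rw [EuclideanSpace.norm_eq]
  refine Real.sqrt_le_iff.2 ⟨Finset.sum_nonneg fun i _ => abs_nonneg _, ?_⟩
  simp only [Real.norm_eq_abs]
  exact Finset.sum_sq_le_sq_sum_of_nonneg (fun i _ => abs_nonneg _)

lemma case_bound {Ω : Type} [MeasurableSpace Ω] {n m : ℕ} (P : Measure Ω) (p : Ω → En n → En m)
    (w : En n) (hw : w ≠ 0) (X Y N M : ℝ) (hN : 0 ≤ N) (hX : 0 ≤ X) (hXY : ‖w‖ ≤ X + Y)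
    (hlow : ∀ᵐ o ∂P, Y - N * X ≤ ‖p o w‖) (hM : 0 ≤ M) (hPM : P univ ≤ ENNReal.ofReal M)
    (hup : 0 < X → ∀ δ : ℝ, 0 < δ → P {o | ‖p o w‖ ≤ δ} ≤ ENNReal.ofReal ((δ / X) ^ m * M))
    (δ : ℝ) (hδ : 0 < δ) :
    P {o | ‖p o w‖ ≤ δ} ≤ ENNReal.ofReal ((4 * N + 4) ^ m * (M + 1) * (δ / ‖w‖) ^ m) := by
  have hw0 : 0 < ‖w‖ := norm_pos_iff.2 hw
  have hN4 : 0 < 4 * N + 4 := by linarith
  by_cases hc : ‖w‖ ≤ (4 * N + 4) * X
  · have hX0 : 0 < X := by
      by_contra h
      have : X = 0 := le_antisymm (not_lt.1 h) hX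
      rw [this, mul_zero] at hc
      linarith
    refine (hup hX0 δ hδ).trans (ENNReal.ofReal_le_ofReal ?_)
    have h1 : δ / X ≤ (4 * N + 4) * (δ / ‖w‖) := by
      rw [mul_div_assoc', div_le_div_iff₀ hX0 hw0]
      nlinarith
    calc (δ / X) ^ m * M ≤ ((4 * N + 4) * (δ / ‖w‖)) ^ m * (M + 1) := by
          apply mul_le_mul (pow_le_pow_left₀ (by positivity) h1 m) (by linarith) hM (by positivity)
      _ = _ := by rw [mul_pow]; ring
  · push Not at hc
    by_cases hδ2 : δ < ‖w‖ / 2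
    · have h0 : P {o | ‖p o w‖ ≤ δ} = 0 := by
        have h1 : ∀ᵐ o ∂P, ¬ (‖p o w‖ ≤ δ) := by
          filter_upwards [hlow] with o ho
          rw [not_le]
          nlinarith
        rw [ae_iff] at h1
        simpa using h1
      rw [h0]
      exact zero_le
    · push Not at hδ2
      refine (measure_mono (subset_univ _)).trans (hPM.trans (ENNReal.ofReal_le_ofReal ?_))
      have h1 : 1 ≤ (4 * N + 4) * (δ / ‖w‖) := by
        have : 1 / 2 ≤ δ / ‖w‖ := by
          rw [div_le_div_iff₀ (by norm_num) hw0]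
          linarith
        nlinarith
      have h2 : 1 ≤ ((4 * N + 4) * (δ / ‖w‖)) ^ m := one_le_pow₀ h1
      rw [mul_pow] at h2
      have h3 : (4 * N + 4) ^ m * (M + 1) * (δ / ‖w‖) ^ m =
          ((4 * N + 4) ^ m * (δ / ‖w‖) ^ m) * (M + 1) := by ring
      rw [h3]
      nlinarith

/-- multiplication by a matrix -/
noncomputable def mA {a b : ℕ} (A : Fin a → Fin b → ℝ) (x : En b) : En a :=
  WithLp.toLp 2 (fun i => ∑ j, A i j * x j)

lemma mA_apply {a b : ℕ} (A : Fin a → Fin b → ℝ) (x : En b) (i : Fin a) :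
    mA A x i = ∑ j, A i j * x j := rfl

lemma mA_norm {a b : ℕ} (A : Fin a → Fin b → ℝ) (hA : ∀ i j, |A i j| ≤ 1) (x : En b) :
    ‖mA A x‖ ≤ (a * b : ℝ) * ‖x‖ := by
  refine (norm_le_sum _).trans ?_
  have h1 : ∀ i, |mA A x i| ≤ b * ‖x‖ := by
    intro i
    rw [mA_apply]
    refine (Finset.abs_sum_le_sum_abs _ _).trans ?_
    calc ∑ j, |A i j * x j| ≤ ∑ _j : Fin b, ‖x‖ := by
          refine Finset.sum_le_sum fun j _ => ?_
          rw [abs_mul]
          have h2 : |x j| ≤ ‖x‖ := PiLp.norm_apply_le x j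
          have h3 := hA i j
          calc |A i j| * |x j| ≤ 1 * ‖x‖ := mul_le_mul h3 h2 (abs_nonneg _) zero_le_one
            _ = ‖x‖ := one_mul _
      _ = b * ‖x‖ := by rw [Finset.sum_const, Finset.card_univ, Fintype.card_fin, nsmul_eq_mul]
  calc ∑ i, |mA A x i| ≤ ∑ _i : Fin a, b * ‖x‖ := Finset.sum_le_sum fun i _ => h1 i
    _ = _ := by rw [Finset.sum_const, Finset.card_univ, Fintype.card_fin, nsmul_eq_mul]; ring

lemma mA_add {a b : ℕ} (A B : Fin a → Fin b → ℝ) (x : En b) :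
    mA (A + B) x = mA A x + mA B x := by
  ext i
  rw [PiLp.add_apply, mA_apply, mA_apply, mA_apply, ← Finset.sum_add_distrib]
  refine Finset.sum_congr rfl fun j _ => ?_
  rw [Pi.add_apply, Pi.add_apply]
  ring

lemma mA_rank {a b : ℕ} (z : En a) (x : En b) (hx : 0 < ‖x‖) :
    mA (fun i j => z i * x j / ‖x‖ ^ 2) x = z := by
  ext i
  rw [mA_apply]
  have h1 : ∑ j, z i * x j / ‖x‖ ^ 2 * x j = z i * (∑ j, x j ^ 2) / ‖x‖ ^ 2 := by
    rw [Finset.mul_sum, Finset.sum_div]
    refine Finset.sum_congr rfl fun j _ => ?_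
    ring
  rw [h1, ← EuclideanSpace.real_norm_sq_eq]
  field_simp

lemma mat_bound {a b : ℕ} {Ω : Type} [NormedAddCommGroup Ω] [MeasurableSpace Ω] [BorelSpace Ω]
    [SecondCountableTopology Ω] (μ : Measure Ω) [SFinite μ] [μ.IsAddRightInvariant]
    (T : Ω → Fin a → Fin b → ℝ) (T' : (Fin a → Fin b → ℝ) → Ω) (hT : Continuous T)
    (hT' : Continuous T') (hadd : ∀ A B, T (A + T' B) = T A + B)
    (hnorm : ∀ B : Fin a → Fin b → ℝ, (∀ i j, |B i j| ≤ 1) → ‖T' B‖ ≤ 1)
    (x : En b) (y : En a) (hx : 0 < ‖x‖) (δ : ℝ) (hδ : 0 < δ) :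
    μ {A | ‖A‖ < 1 ∧ ‖y + mA (T A) x‖ ≤ δ} ≤ ENNReal.ofReal ((δ / ‖x‖) ^ a) * μ (ball 0 2) := by
  have hmc : Continuous (fun B : Fin a → Fin b → ℝ => mA B x) := by
    unfold mA
    apply (PiLp.continuous_toLp 2 _).comp
    fun_prop
  have h := trans_le (F := En a) μ (fun A => y + mA (T A) x)
    (fun z => T' (fun i j => z i * x j / ‖x‖ ^ 2)) (by
      apply Continuous.measurable
      exact continuous_const.add (hmc.comp hT)) (by
      apply Continuous.measurable
      apply hT'.comp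
      fun_prop) (by
      intro A z
      rw [hadd, mA_add, mA_rank z x hx, add_assoc]) hx (by
      intro z hz
      apply hnorm
      intro i j
      rw [abs_div, abs_mul, abs_of_pos (by positivity : 0 < ‖x‖ ^ 2), div_le_one (by positivity)]
      have h1 : |z i| ≤ ‖z‖ := PiLp.norm_apply_le z i
      have h2 : |x j| ≤ ‖x‖ := PiLp.norm_apply_le x j
      calc |z i| * |x j| ≤ ‖x‖ * ‖x‖ := mul_le_mul (h1.trans hz.le) h2 (abs_nonneg _)
            (norm_nonneg _)
        _ = ‖x‖ ^ 2 := by ring) hδ.le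
  rw [finrank_euclideanSpace, Fintype.card_fin] at h
  exact h

/-- first block -/
noncomputable def xp {a b : ℕ} (w : En (b + a)) : En b :=
  WithLp.toLp 2 (fun j => w (Fin.castAdd a j))

/-- second block -/
noncomputable def yp {a b : ℕ} (w : En (b + a)) : En a :=
  WithLp.toLp 2 (fun i => w (Fin.natAdd b i))

lemma norm_xy {a b : ℕ} (w : En (b + a)) : ‖w‖ ^ 2 = ‖xp w‖ ^ 2 + ‖yp w‖ ^ 2 := by
  rw [EuclideanSpace.real_norm_sq_eq, EuclideanSpace.real_norm_sq_eq,
    EuclideanSpace.real_norm_sq_eq, Fin.sum_univ_add]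
  rfl

lemma norm_xy_le {a b : ℕ} (w : En (b + a)) : ‖w‖ ≤ ‖xp w‖ + ‖yp w‖ := by
  have h := norm_xy w
  have h1 := norm_nonneg (xp w)
  have h2 := norm_nonneg (yp w)
  have h3 : ‖w‖ ^ 2 ≤ (‖xp w‖ + ‖yp w‖) ^ 2 := by nlinarith
  exact (sq_le_sq₀ (norm_nonneg _) (by positivity)).1 h3

lemma xp_cont {a b : ℕ} : Continuous (xp : En (b + a) → En b) := by
  unfold xp
  apply (PiLp.continuous_toLp 2 _).comp
  fun_prop

lemma yp_cont {a b : ℕ} : Continuous (yp : En (b + a) → En a) := by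
  unfold yp
  apply (PiLp.continuous_toLp 2 _).comp
  fun_prop

lemma mA_cont {a b : ℕ} : Continuous (fun p : (Fin a → Fin b → ℝ) × En b => mA p.1 p.2) := by
  unfold mA
  apply (PiLp.continuous_toLp 2 _).comp
  fun_prop

/-- the projection with kernel the graph of `A` -/
noncomputable def p2 {a b : ℕ} (A : Fin a → Fin b → ℝ) : En (b + a) →L[ℝ] En a :=
  LinearMap.toContinuousLinearMap
    { toFun := fun w => yp w + mA (-A) (xp w)
      map_add' := by
        intro w w'
        ext i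
        simp only [yp, xp, mA, PiLp.add_apply, Pi.neg_apply]
        have : ∑ j, -A i j * (w (Fin.castAdd a j) + w' (Fin.castAdd a j)) =
            ∑ j, -A i j * w (Fin.castAdd a j) + ∑ j, -A i j * w' (Fin.castAdd a j) := by
          rw [← Finset.sum_add_distrib]
          exact Finset.sum_congr rfl fun j _ => by ring
        rw [this]
        ring
      map_smul' := by
        intro c w
        ext i
        simp only [yp, xp, mA, PiLp.add_apply, Pi.neg_apply, PiLp.smul_apply, smul_eq_mul,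
          RingHom.id_apply]
        have : ∑ j, -A i j * (c * w (Fin.castAdd a j)) =
            c * ∑ j, -A i j * w (Fin.castAdd a j) := by
          rw [Finset.mul_sum]
          exact Finset.sum_congr rfl fun j _ => by ring
        rw [this]
        ring }

/-- the projection with kernel the orthogonal complement of the graph of `A` -/
noncomputable def p1 {a b : ℕ} (A : Fin a → Fin b → ℝ) : En (b + a) →L[ℝ] En b :=
  LinearMap.toContinuousLinearMap
    { toFun := fun w => xp w + mA (fun j i => A i j) (yp w)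
      map_add' := by
        intro w w'
        ext j
        simp only [yp, xp, mA, PiLp.add_apply]
        have : ∑ i, A i j * (w (Fin.natAdd b i) + w' (Fin.natAdd b i)) =
            ∑ i, A i j * w (Fin.natAdd b i) + ∑ i, A i j * w' (Fin.natAdd b i) := by
          rw [← Finset.sum_add_distrib]
          exact Finset.sum_congr rfl fun j _ => by ring
        rw [this]
        ring
      map_smul' := by
        intro c w
        ext j
        simp only [yp, xp, mA, PiLp.add_apply, PiLp.smul_apply, smul_eq_mul,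
          RingHom.id_apply]
        have : ∑ i, A i j * (c * w (Fin.natAdd b i)) =
            c * ∑ i, A i j * w (Fin.natAdd b i) := by
          rw [Finset.mul_sum]
          exact Finset.sum_congr rfl fun j _ => by ring
        rw [this]
        ring }

lemma p2_apply {a b : ℕ} (A : Fin a → Fin b → ℝ) (w : En (b + a)) :
    p2 A w = yp w + mA (-A) (xp w) := rfl

lemma p1_apply {a b : ℕ} (A : Fin a → Fin b → ℝ) (w : En (b + a)) :
    p1 A w = xp w + mA (fun j i => A i j) (yp w) := rfl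

/-- the kernels are orthogonal -/
lemma ker_orth {a b : ℕ} (A : Fin a → Fin b → ℝ) (d d' : En (b + a)) (h2 : p2 A d = 0)
    (h1 : p1 A d' = 0) : ⟪d, d'⟫ = 0 := by
  have e2 : ∀ i, d (Fin.natAdd b i) = ∑ j, A i j * d (Fin.castAdd a j) := by
    intro i
    have := congrArg (fun v : En a => v i) h2
    simp only [p2_apply, PiLp.add_apply, mA_apply, yp, xp, Pi.neg_apply, PiLp.zero_apply] at this
    have h3 : ∑ j, -A i j * d (Fin.castAdd a j) = -∑ j, A i j * d (Fin.castAdd a j) := by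
      rw [← Finset.sum_neg_distrib]
      exact Finset.sum_congr rfl fun j _ => by ring
    rw [h3] at this
    linarith
  have e1 : ∀ j, d' (Fin.castAdd a j) = -∑ i, A i j * d' (Fin.natAdd b i) := by
    intro j
    have := congrArg (fun v : En b => v j) h1
    simp only [p1_apply, PiLp.add_apply, mA_apply, yp, xp, PiLp.zero_apply] at this
    linarith
  rw [PiLp.inner_apply, Fin.sum_univ_add]
  simp only [RCLike.inner_apply, conj_trivial]
  have s1 : ∑ j, d' (Fin.castAdd a j) * d (Fin.castAdd a j) =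
      -∑ j, ∑ i, A i j * d' (Fin.natAdd b i) * d (Fin.castAdd a j) := by
    rw [← Finset.sum_neg_distrib]
    refine Finset.sum_congr rfl fun j _ => ?_
    rw [e1 j, neg_mul, Finset.sum_mul]
  have s2 : ∑ i, d' (Fin.natAdd b i) * d (Fin.natAdd b i) =
      ∑ j, ∑ i, A i j * d' (Fin.natAdd b i) * d (Fin.castAdd a j) := by
    rw [Finset.sum_comm]
    refine Finset.sum_congr rfl fun i _ => ?_
    rw [e2 i, Finset.mul_sum]
    refine Finset.sum_congr rfl fun j _ => ?_
    ring
  rw [s1, s2]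
  ring

lemma restrict_le {Ω : Type} [NormedAddCommGroup Ω] [MeasurableSpace Ω] [BorelSpace Ω]
    (μ : Measure Ω) (S : Set Ω) :
    μ.restrict (ball 0 1) S ≤ μ {A | ‖A‖ < 1 ∧ A ∈ S} := by
  rw [Measure.restrict_apply' measurableSet_ball]
  apply measure_mono
  rintro A ⟨h1, h2⟩
  exact ⟨by simpa using h2, h1⟩

/-- right angles -/
theorem right : S_RIGHT := by
  intro n hn K hK hdim
  obtain ⟨a, b, rfl, ha, hb⟩ : ∃ a b : ℕ, n = b + a ∧ (a : ℝ) < 3 / 4 * (n : ℝ) ∧
      (b : ℝ) < 3 / 4 * (n : ℝ) := by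
    rcases Nat.even_or_odd' n with ⟨k, rfl | rfl⟩
    · have hk : (1 : ℝ) ≤ k := by
        have : 1 ≤ k := by omega
        exact_mod_cast this
      refine ⟨k, k, by ring, ?_, ?_⟩ <;> · push_cast; linarith
    · have hk : (1 : ℝ) ≤ k := by
        have : 1 ≤ k := by omega
        exact_mod_cast this
      refine ⟨k, k + 1, by ring, ?_, ?_⟩ <;> · push_cast; linarith
  set s : ℝ := 3 / 4 * ((b + a : ℕ) : ℝ) with hs
  have hs0 : 0 < s := lt_of_le_of_lt (Nat.cast_nonneg a) ha
  obtain ⟨C', ν, hC', hν, hνK, hball⟩ := frostman K hK s hs0 hdim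
  let Ω := Fin a → Fin b → ℝ
  let μ : Measure Ω := volume
  let P : Measure Ω := μ.restrict (ball 0 1)
  have hμ2 : μ (ball 0 2) < ∞ := measure_ball_lt_top
  set M := (μ (ball 0 2)).toReal with hM
  have hM0 : 0 ≤ M := ENNReal.toReal_nonneg
  have hMe : ENNReal.ofReal M = μ (ball 0 2) := ENNReal.ofReal_toReal hμ2.ne
  have hPu : P univ ≤ ENNReal.ofReal M := by
    rw [hMe, Measure.restrict_apply_univ]
    exact measure_mono (ball_subset_ball (by norm_num))
  have hPae : ∀ᵐ A ∂P, ∀ i j, |A i j| ≤ 1 := by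
    have h1 : ∀ᵐ A ∂P, A ∈ ball (0 : Ω) 1 := ae_restrict_mem measurableSet_ball
    filter_upwards [h1] with A hA i j
    rw [mem_ball_zero_iff] at hA
    have h2 : ‖A i j‖ ≤ ‖A i‖ := norm_le_pi_norm (A i) j
    have h3 : ‖A i‖ ≤ ‖A‖ := norm_le_pi_norm A i
    exact (h2.trans h3).trans hA.le
  have hnn : ∀ B : Ω, (∀ i j, |B i j| ≤ 1) → ‖B‖ ≤ 1 := by
    intro B hB
    rw [pi_norm_le_iff_of_nonneg zero_le_one]
    intro i
    rw [pi_norm_le_iff_of_nonneg zero_le_one]
    intro j
    exact hB i j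
  have ab0 : (0 : ℝ) ≤ (a : ℝ) * b := by positivity
  -- first family
  have t2 : ∀ w : En (b + a), w ≠ 0 → ∀ δ : ℝ, 0 < δ → P {o | ‖p2 o w‖ ≤ δ} ≤
      ENNReal.ofReal ((4 * (a * b) + 4) ^ a * (M + 1) * (δ / ‖w‖) ^ a) := by
    intro w hw δ hδ
    refine case_bound P (fun A w => p2 A w) w hw ‖xp w‖ ‖yp w‖ (a * b) M ab0
      (norm_nonneg _) (norm_xy_le w) ?_ hM0 hPu ?_ δ hδ
    · filter_upwards [hPae] with A hA
      have h1 := mA_norm (-A) (fun i j => by rw [Pi.neg_apply, Pi.neg_apply, abs_neg]; exact hA i j)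
        (xp w)
      show ‖yp w‖ - a * b * ‖xp w‖ ≤ ‖yp w + mA (-A) (xp w)‖
      have h2 := norm_sub_norm_le (yp w) (-(mA (-A) (xp w)))
      rw [sub_neg_eq_add, norm_neg] at h2
      linarith
    · intro hx δ hδ
      refine (restrict_le μ _).trans ?_
      have h1 := mat_bound (Ω := Ω) μ (fun A => -A) (fun B => -B) (by fun_prop) (by fun_prop)
        (by intro A B; abel) (by
          intro B hB
          rw [norm_neg]
          exact hnn B hB) (xp w) (yp w) hx δ hδ
      rw [ENNReal.ofReal_mul (by positivity), hMe]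
      exact h1
  have t1 : ∀ w : En (b + a), w ≠ 0 → ∀ δ : ℝ, 0 < δ → P {o | ‖p1 o w‖ ≤ δ} ≤
      ENNReal.ofReal ((4 * (b * a) + 4) ^ b * (M + 1) * (δ / ‖w‖) ^ b) := by
    intro w hw δ hδ
    refine case_bound P (fun A w => p1 A w) w hw ‖yp w‖ ‖xp w‖ (b * a) M (by positivity)
      (norm_nonneg _) ((norm_xy_le w).trans (add_comm _ _).le) ?_ hM0 hPu ?_ δ hδ
    · filter_upwards [hPae] with A hA
      have h1 := mA_norm (fun j i => A i j) (fun j i => hA i j) (yp w)
      show ‖xp w‖ - b * a * ‖yp w‖ ≤ ‖xp w + mA (fun j i => A i j) (yp w)‖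
      have h2 := norm_sub_norm_le (xp w) (-(mA (fun j i => A i j) (yp w)))
      rw [sub_neg_eq_add, norm_neg] at h2
      linarith
    · intro hx δ hδ
      refine (restrict_le μ _).trans ?_
      have h1 := mat_bound (Ω := Ω) μ (fun A j i => A i j) (fun B i j => B j i)
        (by fun_prop) (by fun_prop) (by intro A B; rfl) (by
          intro B hB
          exact hnn _ fun i j => hB j i) (yp w) (xp w) hx δ hδ
      rw [ENNReal.ofReal_mul (by positivity), hMe]
      exact h1
  have s2 := Pool.Agent.W342.AG.slice (b + a) a Ω inferInstance P (fun A => p2 A)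
    ((4 * (a * b) + 4) ^ a * (M + 1)) C' s ν K inferInstance (by
      apply Continuous.measurable
      show Continuous (fun z : Ω × En (b + a) => yp z.2 + mA (-z.1) (xp z.2))
      exact (yp_cont.comp continuous_snd).add
        (mA_cont.comp ((continuous_fst.neg).prodMk (xp_cont.comp continuous_snd)))) t2
    inferInstance hK hνK ha (by positivity) hC' hball
  have s1 := Pool.Agent.W342.AG.slice (b + a) b Ω inferInstance P (fun A => p1 A)
    ((4 * (b * a) + 4) ^ b * (M + 1)) C' s ν K inferInstance (by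
      apply Continuous.measurable
      show Continuous (fun z : Ω × En (b + a) => xp z.2 + mA (fun j i => z.1 i j) (yp z.2))
      refine (xp_cont.comp continuous_snd).add
        (mA_cont.comp (Continuous.prodMk ?_ (yp_cont.comp continuous_snd)))
      fun_prop) t1
    inferInstance hK hνK hb (by positivity) hC' hball
  have hP0 : P ≠ 0 := by
    intro h
    have h1 : P univ = 0 := by rw [h]; rfl
    rw [Measure.restrict_apply_univ] at h1
    exact (measure_ball_pos μ 0 one_pos).ne' h1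
  have hne : NeBot (ae P) := ae_neBot.2 hP0
  obtain ⟨A, hA1, hA2⟩ := (s1.and s2).exists
  have g1 := fib_null (p1 A) ν K hK hνK hA1
  have g2 := fib_null (p2 A) ν K hK hνK hA2
  have hνne : NeBot (ae ν) := inferInstance
  obtain ⟨y, ⟨hyK, z, hz, hzy, hqz⟩, ⟨_, x, hx, hxy, hqx⟩⟩ := (g1.and g2).exists
  refine hasAngle_of (by positivity) (by linarith [Real.pi_pos]) hx hyK hz hxy hzy ?_
  rw [Real.cos_pi_div_two, inner_dir, ker_orth A (x - y) (z - y) (by
    rw [map_sub, hqx, sub_self]) (by rw [map_sub, hqz, sub_self]), zero_div]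

end Pool.Agent.H83.AG
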