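import Pool.Agent.H83.AG.Psd
import Pool.Graph.R_seed8.W646.AG.Const

/-!
The sphere lemma.
-/

set_option autoImplicit false
set_option linter.unusedSectionVars false

open MeasureTheory Metric Set Filter Topology
open scoped ENNReal RealInnerProductSpace

namespace Pool.Agent.H83.AG

open Pool.Agent.W778.AG

/-- integration of the expansion with bounded coefficients -/
lemma hasSum_int' {Ω : Type*} [MeasurableSpace Ω] (μ : Measure Ω) [IsFiniteMeasure μ] (m : ℕ)
    {r : ℝ} (h0 : 0 ≤ r) (h1 : r < 1) (t : Ω → ℝ) (htm : Measurable t) (ht : ∀ᵐ ω ∂μ, |t ω| ≤ 1)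
    (c : ℕ → ℝ) (hc : ∀ k, |c k| ≤ 1) :
    HasSum (fun k : ℕ => r ^ k * dk (m + 3) k * (c k * ∫ ω, Pg (m + 3) k (t ω) ∂μ))
      (∫ ω, ∑' k, r ^ k * dk (m + 3) k * (c k * Pg (m + 3) k (t ω)) ∂μ) := by
  have hint : ∀ k, Integrable (fun ω => Pg (m + 3) k (t ω)) μ := by
    intro k
    refine Integrable.of_bound ((Pg_cont m k).measurable.comp htm).aestronglyMeasurable 1 ?_
    filter_upwards [ht] with ω hω
    exact Pg_abs_le m k hω
  have hb : ∀ k, ∫ ω, ‖r ^ k * dk (m + 3) k * (c k * Pg (m + 3) k (t ω))‖ ∂μ ≤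
      r ^ k * dk (m + 3) k * μ.real univ := by
    intro k
    have h2 : ∫ ω, ‖r ^ k * dk (m + 3) k * (c k * Pg (m + 3) k (t ω))‖ ∂μ ≤
        ∫ _, r ^ k * dk (m + 3) k ∂μ := by
      apply integral_mono_ae (((hint k).const_mul _).const_mul _).norm (integrable_const _)
      filter_upwards [ht] with ω hω
      rw [norm_mul, Real.norm_of_nonneg (mul_nonneg (pow_nonneg h0 k) (dk_nonneg m k)),
        Real.norm_eq_abs, abs_mul]
      exact mul_le_of_le_one_right (mul_nonneg (pow_nonneg h0 k) (dk_nonneg m k))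
        (mul_le_one₀ (hc k) (abs_nonneg _) (Pg_abs_le m k hω))
    refine h2.trans (le_of_eq ?_)
    rw [integral_const, smul_eq_mul, mul_comm]
  have h := hasSum_integral_of_summable_integral_norm
    (F := fun k ω => r ^ k * dk (m + 3) k * (c k * Pg (m + 3) k (t ω)))
    (fun k => ((hint k).const_mul _).const_mul _)
    (Summable.of_nonneg_of_le (fun k => integral_nonneg fun ω => norm_nonneg _) hb
      ((summable_dk m h0 h1).mul_right _))
  simp only [integral_const_mul] at h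
  exact h

variable {m : ℕ}

lemma abs_pair {μ μ' : Measure (En (m + 3))} (h : Sph μ) (h' : Sph μ') :
    ∀ᵐ p ∂(μ.prod μ'), |⟪p.1, p.2⟫| ≤ 1 := by
  have := h.1
  have := h'.1
  have a1 : ∀ᵐ p ∂(μ.prod μ'), ‖p.1‖ = 1 := Measure.quasiMeasurePreserving_fst.ae (Sph.ae h)
  have a2 : ∀ᵐ p ∂(μ.prod μ'), ‖p.2‖ = 1 := Measure.quasiMeasurePreserving_snd.ae (Sph.ae h')
  filter_upwards [a1, a2] with p h1 h2
  exact inner_abs h1 h2

lemma fm_prod (k : ℕ) {μ μ' : Measure (En (m + 3))} (h : Sph μ) (h' : Sph μ') :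
    fm (m + 3) k μ μ' = ∫ p, Pg (m + 3) k ⟪p.1, p.2⟫ ∂(μ.prod μ') := by
  have := h.1
  have := h'.1
  have hPc := Pg_cont m k
  unfold fm
  rw [integral_prod]
  refine int_prod (Sph.ae h) (Sph.ae h') _ ?_ 1 ?_
  · apply Continuous.measurable
    fun_prop
  · intro u v hu hv
    exact Pg_abs_le m k (inner_abs hu hv)

lemma fm_symm (k : ℕ) {μ μ' : Measure (En (m + 3))} (h : Sph μ) (h' : Sph μ') :
    fm (m + 3) k μ μ' = fm (m + 3) k μ' μ := by
  have := h.1
  have := h'.1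
  have hPc := Pg_cont m k
  unfold fm
  rw [integral_integral_swap]
  · congr 1
    ext u
    congr 1
    ext v
    rw [real_inner_comm]
  · refine int_prod (Sph.ae h) (Sph.ae h') _ ?_ 1 ?_
    · apply Continuous.measurable
      show Continuous (fun p : En (m + 3) × En (m + 3) => Pg (m + 3) k ⟪p.1, p.2⟫)
      fun_prop
    · intro u v hu hv
      exact Pg_abs_le m k (inner_abs hu hv)

lemma fm_zero {μ μ' : Measure (En (m + 3))} (h : Sph μ) (h' : Sph μ') :
    fm (m + 3) 0 μ μ' = 1 := by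
  have := h.1
  have := h'.1
  unfold fm
  simp [Pg_zero]

lemma fm_self (k : ℕ) {μ : Measure (En (m + 3))} (h : Sph μ) : 0 ≤ fm (m + 3) k μ μ := by
  have := psd (m + 3) k 1 (by omega) (fun _ => μ) (fun _ => 1) (fun _ => h)
  simpa using this

lemma fm_abs (k : ℕ) {μ μ' : Measure (En (m + 3))} (h : Sph μ) (h' : Sph μ') :
    |fm (m + 3) k μ μ'| ≤ (fm (m + 3) k μ μ + fm (m + 3) k μ' μ') / 2 := by
  have key : ∀ s : ℝ, 0 ≤ fm (m + 3) k μ μ + 2 * s * fm (m + 3) k μ μ' +
      s ^ 2 * fm (m + 3) k μ' μ' := by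
    intro s
    have := psd (m + 3) k 2 (by omega) ![μ, μ'] ![1, s] (by
      intro i
      fin_cases i
      · exact h
      · exact h')
    simp only [Fin.sum_univ_two, Matrix.cons_val_zero, Matrix.cons_val_one] at this
    rw [fm_symm k h' h] at this
    linarith
  rw [abs_le]
  constructor
  · have := key 1
    linarith
  · have := key (-1)
    linarith

lemma sum_split {J : ℕ} (f : Fin J → Fin J → ℝ) (hf : ∀ i j, f i j = f j i) :
    ∑ i, ∑ j, f i j =
      ∑ i, f i i + 2 * ∑ i, ∑ j ∈ Finset.univ.filter (fun j => i < j), f i j := by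
  have h := Finset.sum_sum_Ioi_add_eq_sum_sum_off_diag f
  have h1 : ∀ i, ∑ j ∈ ({i} : Finset (Fin J))ᶜ, f j i = ∑ j, f i j - f i i := by
    intro i
    rw [← Finset.sum_add_sum_compl {i} (fun j => f i j), Finset.sum_singleton, add_sub_cancel_left]
    exact Finset.sum_congr rfl fun j _ => hf j i
  have h2 : ∀ i : Fin J, ∑ j ∈ Finset.Ioi i, (f j i + f i j) =
      2 * ∑ j ∈ Finset.univ.filter (fun j => i < j), f i j := by
    intro i
    rw [Finset.filter_lt_eq_Ioi, Finset.mul_sum]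
    refine Finset.sum_congr rfl fun j _ => ?_
    rw [hf j i]
    ring
  simp_rw [h1, h2] at h
  rw [Finset.sum_sub_distrib, ← Finset.mul_sum] at h
  linarith

lemma sum_pairs_le {J : ℕ} (e : Fin J → ℝ) (he : ∀ i, 0 ≤ e i) :
    ∑ i, ∑ j ∈ Finset.univ.filter (fun j => i < j), (e i + e j) ≤ J * ∑ i, e i := by
  have h := Finset.sum_sum_Ioi_add_eq_sum_sum_off_diag (fun i _ : Fin J => e i)
  have h1 : ∀ i, ∑ j ∈ ({i} : Finset (Fin J))ᶜ, e j ≤ ∑ j, e j := by
    intro i
    apply Finset.sum_le_sum_of_subset_of_nonneg (Finset.subset_univ _)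
    intro j _ _
    exact he j
  have h2 : ∀ i : Fin J, ∑ j ∈ Finset.univ.filter (fun j => i < j), (e i + e j) =
      ∑ j ∈ Finset.Ioi i, (e j + e i) := by
    intro i
    rw [Finset.filter_lt_eq_Ioi]
    refine Finset.sum_congr rfl fun j _ => ?_
    ring
  simp_rw [h2]
  rw [h]
  calc ∑ i, ∑ j ∈ ({i} : Finset (Fin J))ᶜ, e j ≤ ∑ _i : Fin J, ∑ j, e j :=
        Finset.sum_le_sum fun i _ => h1 i
    _ = J * ∑ i, e i := by
        rw [Finset.sum_const, Finset.card_univ, Fintype.card_fin, nsmul_eq_mul]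

lemma sum_pairs_one (J : ℕ) :
    ∑ i : Fin J, ∑ _j ∈ Finset.univ.filter (fun j => i < j), (1 : ℝ) = (J : ℝ) * (J - 1) / 2 := by
  have h := sum_split (fun _ _ : Fin J => (1 : ℝ)) (fun _ _ => rfl)
  simp only [Finset.sum_const, Finset.card_univ, Fintype.card_fin, nsmul_eq_mul, mul_one] at h
  simp only [Finset.sum_const, nsmul_eq_mul, mul_one]
  linarith

/-- partial sums of the energy -/
lemma energy_le {μ : Measure (En (m + 3))} (h : Sph μ) {D Γ s : ℝ} (h0 : 0 < s) (h1 : s < 1)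
    (hb : ∀ v : En (m + 3), ‖v‖ = 1 → ∫ u, pk (m + 3) s ⟪v, u⟫ ∂μ ≤ D * Γ) (N : ℕ) :
    ∑ k ∈ Finset.range N, s ^ k * dk (m + 3) k * fm (m + 3) k μ μ ≤ D * Γ := by
  have hp := h.1
  have hS := hasSum_int (μ.prod μ) m h0.le h1 (fun p => ⟪p.1, p.2⟫) (by fun_prop) (abs_pair h h)
  simp_rw [← fm_prod _ h h] at hS
  have h2 := sum_le_hasSum (Finset.range N) (fun k _ => mul_nonneg
    (mul_nonneg (pow_nonneg h0.le k) (dk_nonneg m k)) (fm_self k h)) hS
  refine h2.trans ?_
  have hpm : Measurable (pk (m + 3) s) := Pool.Agent.W646.AG.measurable_pk (m + 3) s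
  have hi : Integrable (fun p : En (m + 3) × En (m + 3) => pk (m + 3) s ⟪p.1, p.2⟫)
      (μ.prod μ) := by
    refine int_prod (Sph.ae h) (Sph.ae h) _ (hpm.comp (by fun_prop))
      ((1 - s ^ 2) / (1 - s) ^ (m + 3)) ?_
    intro u v hu hv
    rw [abs_of_nonneg (Pool.Agent.W646.AG.pk_nonneg _ h0.le h1 _),
      Pool.Agent.W646.AG.pk_eq hu hv]
    apply div_le_div_of_nonneg_left (by nlinarith) (by have : 0 < 1 - s := by linarith
                                                       positivity)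
    exact pow_le_pow_left₀ (by linarith) (Pool.Agent.W646.AG.norm_sub_ge h0.le hu hv) _
  rw [integral_prod _ hi]
  have h3 : ∫ u, ∫ v, pk (m + 3) s ⟪u, v⟫ ∂μ ∂μ ≤ ∫ _, D * Γ ∂μ := by
    apply integral_mono_ae hi.integral_prod_left (integrable_const _)
    filter_upwards [Sph.ae h] with u hu
    exact hb u hu
  simpa using h3

lemma LE_mono (n : ℕ) {f g : ℝ → ℝ}
    (hf : IntervalIntegrable (fun φ => f φ * Real.sin φ ^ (n - 3)) volume 0 Real.pi)
    (hg : IntervalIntegrable (fun φ => g φ * Real.sin φ ^ (n - 3)) volume 0 Real.pi)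
    (h : ∀ φ ∈ Ioo 0 Real.pi, f φ ≤ g φ) : LE n f ≤ LE n g := by
  unfold Pool.Agent.W778.AG.LE
  apply div_le_div_of_nonneg_right _ (sinI_pos _).le
  apply intervalIntegral.integral_mono_on_of_le_Ioo Real.pi_pos.le hf hg
  intro x hx
  exact mul_le_mul_of_nonneg_right (h x hx)
    (pow_nonneg (Real.sin_nonneg_of_nonneg_of_le_pi hx.1.le hx.2.le) _)

lemma LE_sum (n : ℕ) {ι : Type*} (s : Finset ι) (f : ι → ℝ → ℝ) (hf : ∀ i, Continuous (f i)) :
    LE n (fun φ => ∑ i ∈ s, f i φ) = ∑ i ∈ s, LE n (f i) := by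
  classical
  induction s using Finset.induction_on with
  | empty =>
    simp only [Finset.sum_empty]
    unfold Pool.Agent.W778.AG.LE
    simp
  | insert i s hi ih =>
    simp_rw [Finset.sum_insert hi]
    rw [LE_add n _ _ (hf i) (continuous_finsetSum s fun i _ => hf i), ih]

lemma wf_cont (α : ℝ) : Continuous (wf α) := by
  unfold wf
  fun_prop

lemma wf_mem {α φ : ℝ} (h0 : 0 < α) (h1 : α < Real.pi) (hc : Real.cos α ≠ 0)
    (hφ : φ ∈ Ioo 0 Real.pi) : wf α φ ∈ Ioo (0 : ℝ) 1 := by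
  have hsq := Pool.Agent.W646.AG.wf_sq (α := α) (φ := φ)
  have h2 := Pool.Agent.W646.AG.wf_nonneg α φ
  have h3 : 0 < Real.sin α := Real.sin_pos_of_pos_of_lt_pi h0 h1
  have h4 : 0 < Real.sin φ := Real.sin_pos_of_pos_of_lt_pi hφ.1 hφ.2
  have h5 : 0 < Real.sin α ^ 2 * Real.sin φ ^ 2 := by positivity
  have h6 : Real.sin α ^ 2 < 1 := by
    have := Real.sin_sq_add_cos_sq α
    have h7 : 0 < Real.cos α ^ 2 := by positivity
    linarith
  have h7 : Real.sin φ ^ 2 ≤ 1 := Real.sin_sq_le_one φ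
  constructor
  · rcases h2.eq_or_lt with h | h
    · rw [← h] at hsq
      nlinarith [sq_nonneg (Real.sin φ), sq_nonneg (Real.sin α)]
    · exact h
  · nlinarith

end Pool.Agent.H83.AG
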