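import Pool.Agent.H83.AG.SA

/-!
The sphere lemma, conclusion.
-/

set_option autoImplicit false
set_option linter.unusedSectionVars false

open MeasureTheory Metric Set Filter Topology
open scoped ENNReal RealInnerProductSpace

namespace Pool.Agent.H83.AG

open Pool.Agent.W778.AG

variable {m : ℕ}

/-- the bound for one pair -/
lemma pair_bound {μ μ' : Measure (En (m + 3))} (h : Sph μ) (h' : Sph μ') {α M : ℝ}
    (hα0 : 0 ≤ α) (hα1 : α ≤ Real.pi) (hM : M < 1)
    (hpM : ∀ᵐ p ∂(μ.prod μ'), ⟪p.1, p.2⟫ * Real.cos α +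
      Real.sqrt (1 - ⟪p.1, p.2⟫ ^ 2) * Real.sin α ≤ M)
    {r : ℝ} (hr0 : 0 < r) (hr1 : r < 1) :
    ∃ S, HasSum (fun k : ℕ => r ^ k * dk (m + 3) k *
      (Pg (m + 3) k (Real.cos α) * fm (m + 3) k μ μ')) S ∧
      S ≤ (1 - r ^ 2) / Real.sqrt (1 - 2 * r * M + r ^ 2) ^ (m + 3) := by
  have hp := h.1
  have hp' := h'.1
  have hS := hasSum_int' (μ.prod μ') m hr0.le hr1 (fun p => ⟪p.1, p.2⟫) (by fun_prop)
    (abs_pair h h') (fun k => Pg (m + 3) k (Real.cos α))
    (fun k => Pg_abs_le m k (Real.abs_cos_le_one α))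
  simp_rw [← fm_prod _ h h'] at hS
  refine ⟨_, hS, ?_⟩
  have hpos : 0 < 1 - 2 * r * M + r ^ 2 := by nlinarith [sq_nonneg (1 - r)]
  set B := (1 - r ^ 2) / Real.sqrt (1 - 2 * r * M + r ^ 2) ^ (m + 3) with hB
  have hB0 : 0 ≤ B := by
    apply div_nonneg
    · nlinarith
    · positivity
  set G : En (m + 3) × En (m + 3) → ℝ := fun p =>
    ∑' k, r ^ k * dk (m + 3) k * (Pg (m + 3) k (Real.cos α) * Pg (m + 3) k ⟪p.1, p.2⟫) with hG
  have hGB : ∀ᵐ p ∂(μ.prod μ'), G p ≤ B := by
    filter_upwards [hpM, abs_pair h h'] with p hpM hab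
    have hab' := abs_le.1 hab
    have h1 := conc (m + 3) (by omega) r hr0.le hr1 α (Real.arccos ⟪p.1, p.2⟫) hα0 hα1
      (Real.arccos_nonneg _) (Real.arccos_le_pi _)
    rw [Real.cos_arccos hab'.1 hab'.2, Real.cos_sub, Real.cos_arccos hab'.1 hab'.2,
      Real.sin_arccos] at h1
    refine h1.trans ?_
    apply div_le_div_of_nonneg_left (by nlinarith) (by positivity)
    apply pow_le_pow_left₀ (Real.sqrt_nonneg _)
    apply Real.sqrt_le_sqrt
    nlinarith
  by_cases hi : Integrable G (μ.prod μ')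
  · have h2 := integral_mono_ae hi (integrable_const B) hGB
    simpa using h2
  · have h3 : ∫ p, G p ∂(μ.prod μ') = 0 := integral_undef hi
    show ∫ p, G p ∂(μ.prod μ') ≤ B
    rw [h3]
    exact hB0

lemma strict_aux {t c σ s : ℝ} (h1 : t ^ 2 + s ^ 2 = 1) (h2 : c ^ 2 + σ ^ 2 = 1) (hne : t ≠ c) :
    t * c + s * σ < 1 := by
  have h3 : (t * c + s * σ) ^ 2 + (t * σ - s * c) ^ 2 = 1 := by
    have : (t * c + s * σ) ^ 2 + (t * σ - s * c) ^ 2 = (t ^ 2 + s ^ 2) * (c ^ 2 + σ ^ 2) := by ring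
    rw [this, h1, h2, one_mul]
  by_contra hcon
  push Not at hcon
  have h4 : (t * σ - s * c) ^ 2 ≤ 0 := by nlinarith
  have h5 : t * σ - s * c = 0 := by
    have := le_antisymm h4 (sq_nonneg _)
    exact pow_eq_zero_iff (two_ne_zero) |>.1 this
  have h6 : t * c + s * σ = 1 := by
    rw [h5] at h3
    nlinarith
  apply hne
  have h7 : t = c * (t * c + s * σ) + σ * (t * σ - s * c) := by
    have : c * (t * c + s * σ) + σ * (t * σ - s * c) = t * (c ^ 2 + σ ^ 2) := by ring
    rw [this, h2, mul_one]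
  rw [h5, h6] at h7
  linarith

lemma lim_aux {M : ℝ} (hM : M < 1) (n : ℕ) :
    Tendsto (fun r : ℝ => (1 - r ^ 2) / Real.sqrt (1 - 2 * r * M + r ^ 2) ^ n) (𝓝[<] 1) (𝓝 0) := by
  have hc : ContinuousAt (fun r : ℝ => (1 - r ^ 2) / Real.sqrt (1 - 2 * r * M + r ^ 2) ^ n) 1 := by
    apply ContinuousAt.div
    · fun_prop
    · fun_prop
    · have : 0 < 1 - 2 * 1 * M + 1 ^ 2 := by linarith
      positivity
  have h := hc.tendsto
  norm_num at h
  exact h.mono_left nhdsWithin_le_nhds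

/-- the sphere lemma -/
theorem sA : S_A := by
  intro n q J α Γ η' η μ D F hn hα0 hα1 hcos hpos hΓ hI1 hI2 hη' hη hμ hD hpk hF hFs hFμ hmain
  obtain ⟨m, rfl⟩ : ∃ m, n = m + 3 := ⟨n - 3, by omega⟩
  by_contra hno
  push Not at hno
  have hprob : ∀ i, IsProbabilityMeasure (μ i) := fun i => (hμ i).1
  have hFne : ∀ i, (F i).Nonempty := by
    intro i
    by_contra h
    rw [Set.not_nonempty_iff_eq_empty] at h
    have h1 := hFμ i
    rw [h, compl_empty, measure_univ] at h1
    exact one_ne_zero h1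
  have hM : ∀ i j, ∃ M < (1 : ℝ), i < j → ∀ u ∈ F i, ∀ v ∈ F j,
      ⟪u, v⟫ * Real.cos α + Real.sqrt (1 - ⟪u, v⟫ ^ 2) * Real.sin α ≤ M := by
    intro i j
    by_cases hij : i < j
    · have hne : (F i ×ˢ F j).Nonempty := (hFne i).prod (hFne j)
      obtain ⟨p, hp, hpmax⟩ := ((hF i).prod (hF j)).exists_isMaxOn hne
        (f := fun p => ⟪p.1, p.2⟫ * Real.cos α + Real.sqrt (1 - ⟪p.1, p.2⟫ ^ 2) * Real.sin α)
        (by fun_prop)
      refine ⟨_, ?_, fun _ u hu v hv => hpmax (mk_mem_prod hu hv)⟩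
      rw [Set.mem_prod] at hp
      have hp1 : ‖p.1‖ = 1 := by simpa using hFs i hp.1
      have hp2 : ‖p.2‖ = 1 := by simpa using hFs j hp.2
      have hab := inner_abs hp1 hp2
      have ht : ⟪p.1, p.2⟫ ^ 2 ≤ 1 := (sq_le_one_iff_abs_le_one _).2 hab
      refine strict_aux ?_ (Real.cos_sq_add_sin_sq α) (hno i j hij p.1 hp.1 p.2 hp.2)
      rw [Real.sq_sqrt (by linarith)]
      ring
    · exact ⟨0, one_pos, fun h => absurd h hij⟩
  choose M hM1 hM2 using hM
  set c := Real.cos α with hc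
  set w : ℝ → ℝ := wf α with hw
  have hwc : Continuous w := wf_cont α
  have hw01 : ∀ φ ∈ Ioo 0 Real.pi, w φ ∈ Ioo (0 : ℝ) 1 := fun φ hφ => wf_mem hα0 hα1 hcos hφ
  set E : ℕ → ℝ := fun k => ∑ i, fm (m + 3) k (μ i) (μ i) with hE
  set T : ℕ → ℝ := fun k => ∑ i, ∑ j ∈ Finset.univ.filter (fun j => i < j),
    fm (m + 3) k (μ i) (μ j) with hT
  have hE0 : ∀ k, 0 ≤ E k := fun k => Finset.sum_nonneg fun i _ => fm_self k (hμ i)
  have hd0 : ∀ k, 0 ≤ dk (m + 3) k := dk_nonneg m
  have hJ0 : (0 : ℝ) ≤ J := Nat.cast_nonneg J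
  have hT0 : T 0 = (J : ℝ) * (J - 1) / 2 := by
    show ∑ i, ∑ j ∈ Finset.univ.filter (fun j => i < j), fm (m + 3) 0 (μ i) (μ j) = _
    rw [← sum_pairs_one J]
    refine Finset.sum_congr rfl fun i _ => Finset.sum_congr rfl fun j _ => ?_
    exact fm_zero (hμ i) (hμ j)
  have hT1 : ∀ k, -(E k / 2) ≤ T k := by
    intro k
    have h1 := psd (m + 3) k J (by omega) μ (fun _ => 1) hμ
    simp only [one_mul] at h1
    rw [sum_split _ (fun i j => fm_symm k (hμ i) (hμ j))] at h1
    show -((∑ i, fm (m + 3) k (μ i) (μ i)) / 2) ≤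
      ∑ i, ∑ j ∈ Finset.univ.filter (fun j => i < j), fm (m + 3) k (μ i) (μ j)
    linarith
  have hT2 : ∀ k, |T k| ≤ J / 2 * E k := by
    intro k
    have h1 : |T k| ≤ ∑ i, ∑ j ∈ Finset.univ.filter (fun j => i < j),
        (fm (m + 3) k (μ i) (μ i) / 2 + fm (m + 3) k (μ j) (μ j) / 2) := by
      refine (Finset.abs_sum_le_sum_abs _ _).trans ?_
      refine Finset.sum_le_sum fun i _ => ?_
      refine (Finset.abs_sum_le_sum_abs _ _).trans ?_
      refine Finset.sum_le_sum fun j _ => ?_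
      have := fm_abs k (hμ i) (hμ j)
      linarith
    refine h1.trans ((sum_pairs_le _ fun i => div_nonneg (fm_self k (hμ i)) zero_le_two).trans ?_)
    rw [← Finset.sum_div]
    apply le_of_eq
    show (J : ℝ) * (E k / 2) = J / 2 * E k
    ring
  have hsum : ∀ s ∈ Ioo (0 : ℝ) 1, ∀ N, ∑ k ∈ Finset.range N, s ^ k * dk (m + 3) k * E k ≤
      Γ s * ∑ i, D i := by
    intro s hs N
    have h1 : ∑ k ∈ Finset.range N, s ^ k * dk (m + 3) k * E k =
        ∑ i, ∑ k ∈ Finset.range N, s ^ k * dk (m + 3) k * fm (m + 3) k (μ i) (μ i) := by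
      rw [Finset.sum_comm]
      refine Finset.sum_congr rfl fun k _ => ?_
      rw [Finset.mul_sum]
    rw [h1, Finset.mul_sum]
    refine Finset.sum_le_sum fun i _ => ?_
    rw [mul_comm (Γ s)]
    exact energy_le (hμ i) hs.1 hs.2 (fun v hv => hpk i s hs v hv) N
  have hD0 : 0 ≤ ∑ i, D i := Finset.sum_nonneg fun i _ => hD i
  have hLk0 : ∀ k, 0 ≤ LE (m + 3) (fun φ => w φ ^ k) := by
    intro k
    refine div_nonneg ?_ (sinI_pos _).le
    apply intervalIntegral.integral_nonneg Real.pi_pos.le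
    intro φ hφ
    exact mul_nonneg (pow_nonneg (Pool.Agent.W646.AG.wf_nonneg α φ) k)
      (pow_nonneg (Real.sin_nonneg_of_nonneg_of_le_pi hφ.1 hφ.2) _)
  have hLk0' : ∀ k, 0 ≤ LE (m + 3) (fun φ => w φ ^ q * Real.sqrt (w φ) ^ k) := by
    intro k
    refine div_nonneg ?_ (sinI_pos _).le
    apply intervalIntegral.integral_nonneg Real.pi_pos.le
    intro φ hφ
    exact mul_nonneg (mul_nonneg (pow_nonneg (Pool.Agent.W646.AG.wf_nonneg α φ) q)
      (pow_nonneg (Real.sqrt_nonneg _) k))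
      (pow_nonneg (Real.sin_nonneg_of_nonneg_of_le_pi hφ.1 hφ.2) _)
  have hL1 : ∀ N, ∑ k ∈ Finset.range N, dk (m + 3) k * LE (m + 3) (fun φ => w φ ^ k) * E k ≤
      η' * ∑ i, D i := by
    intro N
    have e1 : ∑ k ∈ Finset.range N, dk (m + 3) k * LE (m + 3) (fun φ => w φ ^ k) * E k =
        LE (m + 3) (fun φ => ∑ k ∈ Finset.range N, (dk (m + 3) k * E k) * w φ ^ k) := by
      rw [LE_sum (m + 3) (Finset.range N) (fun k φ => (dk (m + 3) k * E k) * w φ ^ k)
        (fun k => by fun_prop)]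
      refine Finset.sum_congr rfl fun k _ => ?_
      rw [LE_const_mul]
      ring
    have e2 : LE (m + 3) (fun φ => (∑ i, D i) * Γ (w φ)) = (∑ i, D i) * LE (m + 3)
        (fun φ => Γ (w φ)) := LE_const_mul _ _ _
    rw [e1]
    refine (LE_mono (m + 3) (g := fun φ => (∑ i, D i) * Γ (w φ)) ?_ ?_ ?_).trans ?_
    · apply Continuous.intervalIntegrable
      fun_prop
    · have := hI1.const_mul (∑ i, D i)
      refine this.congr ?_
      intro φ _
      show (∑ i, D i) * (Γ (w φ) * Real.sin φ ^ (m + 3 - 3)) =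
        (∑ i, D i) * Γ (w φ) * Real.sin φ ^ (m + 3 - 3)
      ring
    · intro φ hφ
      have := hsum (w φ) (hw01 φ hφ) N
      rw [mul_comm (∑ i, D i)]
      refine le_trans (le_of_eq ?_) this
      refine Finset.sum_congr rfl fun k _ => ?_
      ring
    · rw [e2, mul_comm]
      exact mul_le_mul_of_nonneg_right hη' hD0
  have hL2 : ∀ N, ∑ k ∈ Finset.range N, dk (m + 3) k *
      LE (m + 3) (fun φ => w φ ^ q * Real.sqrt (w φ) ^ k) * E k ≤ η * ∑ i, D i := by
    intro N
    have e1 : ∑ k ∈ Finset.range N, dk (m + 3) k *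
        LE (m + 3) (fun φ => w φ ^ q * Real.sqrt (w φ) ^ k) * E k =
        LE (m + 3) (fun φ => ∑ k ∈ Finset.range N, (dk (m + 3) k * E k) *
          (w φ ^ q * Real.sqrt (w φ) ^ k)) := by
      rw [LE_sum (m + 3) (Finset.range N) (fun k φ => (dk (m + 3) k * E k) *
          (w φ ^ q * Real.sqrt (w φ) ^ k)) (fun k => by fun_prop)]
      refine Finset.sum_congr rfl fun k _ => ?_
      rw [LE_const_mul]
      ring
    have e2 : LE (m + 3) (fun φ => (∑ i, D i) * (w φ ^ q * Γ (Real.sqrt (w φ)))) =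
        (∑ i, D i) * LE (m + 3) (fun φ => w φ ^ q * Γ (Real.sqrt (w φ))) := LE_const_mul _ _ _
    rw [e1]
    refine (LE_mono (m + 3) (g := fun φ => (∑ i, D i) * (w φ ^ q * Γ (Real.sqrt (w φ))))
      ?_ ?_ ?_).trans ?_
    · apply Continuous.intervalIntegrable
      fun_prop
    · have := hI2.const_mul (∑ i, D i)
      refine this.congr ?_
      intro φ _
      show (∑ i, D i) * (w φ ^ q * Γ (Real.sqrt (w φ)) * Real.sin φ ^ (m + 3 - 3)) =
        (∑ i, D i) * (w φ ^ q * Γ (Real.sqrt (w φ))) * Real.sin φ ^ (m + 3 - 3)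
      ring
    · intro φ hφ
      have hwm := hw01 φ hφ
      have hs : Real.sqrt (w φ) ∈ Ioo (0 : ℝ) 1 :=
        ⟨Real.sqrt_pos.2 hwm.1, by rw [Real.sqrt_lt' one_pos]; simpa using hwm.2⟩
      have h2 := hsum _ hs N
      have h3 := mul_le_mul_of_nonneg_left h2 (pow_nonneg hwm.1.le q)
      have h4 : w φ ^ q * (Γ (Real.sqrt (w φ)) * ∑ i, D i) =
          (∑ i, D i) * (w φ ^ q * Γ (Real.sqrt (w φ))) := by ring
      rw [h4] at h3
      refine le_trans (le_of_eq ?_) h3
      rw [Finset.mul_sum]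
      refine Finset.sum_congr rfl fun k _ => ?_
      ring
    · rw [e2, mul_comm]
      exact mul_le_mul_of_nonneg_right hη hD0
  have hBD : ∀ k, |Pg (m + 3) k c| ≤ LE (m + 3) (fun φ => w φ ^ k) := fun k =>
    bd (m + 3) k (by omega) α
  have hBD2 : ∀ k, 2 * q ≤ k → LE (m + 3) (fun φ => w φ ^ k) ≤
      LE (m + 3) (fun φ => w φ ^ q * Real.sqrt (w φ) ^ k) := by
    intro k hk
    apply LE_mono
    · apply Continuous.intervalIntegrable
      fun_prop
    · apply Continuous.intervalIntegrable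
      fun_prop
    · intro φ hφ
      have hwm := hw01 φ hφ
      have h1 : w φ = Real.sqrt (w φ) ^ 2 := (Real.sq_sqrt hwm.1.le).symm
      have hs0 := Real.sqrt_nonneg (w φ)
      have hs1 : Real.sqrt (w φ) ≤ 1 := Real.sqrt_le_one.2 hwm.2.le
      calc w φ ^ k = Real.sqrt (w φ) ^ k * Real.sqrt (w φ) ^ k := by
            conv_lhs => rw [h1]
            rw [← pow_mul, ← pow_add]
            congr 1
            ring
        _ ≤ Real.sqrt (w φ) ^ (2 * q) * Real.sqrt (w φ) ^ k := by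
            apply mul_le_mul_of_nonneg_right _ (pow_nonneg hs0 _)
            exact pow_le_pow_of_le_one hs0 hs1 hk
        _ = w φ ^ q * Real.sqrt (w φ) ^ k := by
            rw [pow_mul, ← h1]
  set C0 := (J : ℝ) * (J - 1) / 2 with hC0
  have hpt : ∀ r ∈ Ioo (0 : ℝ) 1, ∀ k : ℕ, (if k = 0 then C0 else 0) +
      (if Odd k ∧ k < 2 * q then r ^ k * dk (m + 3) k * (Pg (m + 3) k c * T k) else 0) -
      1 / 2 * (dk (m + 3) k * LE (m + 3) (fun φ => w φ ^ k) * E k) -
      J / 2 * (dk (m + 3) k * LE (m + 3) (fun φ => w φ ^ q * Real.sqrt (w φ) ^ k) * E k) ≤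
      r ^ k * dk (m + 3) k * (Pg (m + 3) k c * T k) := by
    intro r hr k
    have n1 : 0 ≤ dk (m + 3) k * LE (m + 3) (fun φ => w φ ^ k) * E k :=
      mul_nonneg (mul_nonneg (hd0 k) (hLk0 k)) (hE0 k)
    have n2 : 0 ≤ J / 2 * (dk (m + 3) k *
        LE (m + 3) (fun φ => w φ ^ q * Real.sqrt (w φ) ^ k) * E k) :=
      mul_nonneg (div_nonneg hJ0 zero_le_two) (mul_nonneg (mul_nonneg (hd0 k) (hLk0' k)) (hE0 k))
    have hrk0 : 0 ≤ r ^ k := pow_nonneg hr.1.le k
    have hrk1 : r ^ k ≤ 1 := pow_le_one₀ hr.1.le hr.2.le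
    rcases Nat.eq_zero_or_pos k with hk | hk
    · subst hk
      rw [if_pos rfl, if_neg (by simp)]
      rw [pow_zero, dk_zero, Pg_zero, hT0]
      rw [dk_zero] at n1 n2
      linarith
    · rw [if_neg hk.ne']
      by_cases ho : Odd k ∧ k < 2 * q
      · rw [if_pos ho]
        linarith
      · rw [if_neg ho]
        by_cases hk2 : k < 2 * q
        · have hev : Even k := by
            rw [← Nat.not_odd_iff_even]
            exact fun h => ho ⟨h, hk2⟩
          have hP0 := hpos k hk2 hev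
          have h1 := hT1 k
          have h2 : Pg (m + 3) k c * (-(E k / 2)) ≤ Pg (m + 3) k c * T k :=
            mul_le_mul_of_nonneg_left h1 hP0
          have h3 : r ^ k * dk (m + 3) k * (Pg (m + 3) k c * (-(E k / 2))) ≤
              r ^ k * dk (m + 3) k * (Pg (m + 3) k c * T k) :=
            mul_le_mul_of_nonneg_left h2 (mul_nonneg hrk0 (hd0 k))
          have h4 : Pg (m + 3) k c ≤ LE (m + 3) (fun φ => w φ ^ k) := (le_abs_self _).trans (hBD k)
          have h5 : r ^ k * (dk (m + 3) k * Pg (m + 3) k c * E k) ≤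
              dk (m + 3) k * LE (m + 3) (fun φ => w φ ^ k) * E k := by
            have h6 : dk (m + 3) k * Pg (m + 3) k c * E k ≤
                dk (m + 3) k * LE (m + 3) (fun φ => w φ ^ k) * E k :=
              mul_le_mul_of_nonneg_right (mul_le_mul_of_nonneg_left h4 (hd0 k)) (hE0 k)
            have h7 : 0 ≤ dk (m + 3) k * Pg (m + 3) k c * E k :=
              mul_nonneg (mul_nonneg (hd0 k) hP0) (hE0 k)
            exact (mul_le_of_le_one_left h7 hrk1).trans h6
          have h8 : r ^ k * dk (m + 3) k * (Pg (m + 3) k c * (-(E k / 2))) =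
              -(1 / 2) * (r ^ k * (dk (m + 3) k * Pg (m + 3) k c * E k)) := by ring
          linarith
        · push Not at hk2
          have h1 : |Pg (m + 3) k c * T k| ≤
              LE (m + 3) (fun φ => w φ ^ q * Real.sqrt (w φ) ^ k) * (J / 2 * E k) := by
            rw [abs_mul]
            exact mul_le_mul ((hBD k).trans (hBD2 k hk2)) (hT2 k) (abs_nonneg _) (hLk0' k)
          have h2 : r ^ k * dk (m + 3) k * |Pg (m + 3) k c * T k| ≤
              dk (m + 3) k * (LE (m + 3) (fun φ => w φ ^ q * Real.sqrt (w φ) ^ k) *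
                (J / 2 * E k)) := by
            have h3 := mul_le_mul_of_nonneg_left h1 (hd0 k)
            have h4 : 0 ≤ dk (m + 3) k * |Pg (m + 3) k c * T k| :=
              mul_nonneg (hd0 k) (abs_nonneg _)
            calc r ^ k * dk (m + 3) k * |Pg (m + 3) k c * T k| =
                r ^ k * (dk (m + 3) k * |Pg (m + 3) k c * T k|) := by ring
              _ ≤ dk (m + 3) k * |Pg (m + 3) k c * T k| := mul_le_of_le_one_left h4 hrk1
              _ ≤ _ := h3
          have h5 : -(r ^ k * dk (m + 3) k * |Pg (m + 3) k c * T k|) ≤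
              r ^ k * dk (m + 3) k * (Pg (m + 3) k c * T k) := by
            have := mul_le_mul_of_nonneg_left (neg_abs_le (Pg (m + 3) k c * T k))
              (mul_nonneg hrk0 (hd0 k))
            linarith
          have h6 : dk (m + 3) k * (LE (m + 3) (fun φ => w φ ^ q * Real.sqrt (w φ) ^ k) *
                (J / 2 * E k)) = J / 2 * (dk (m + 3) k *
                LE (m + 3) (fun φ => w φ ^ q * Real.sqrt (w φ) ^ k) * E k) := by ring
          linarith
  -- the bound for fixed `r`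
  have hfix : ∀ r ∈ Ioo (0 : ℝ) 1, C0 + (∑ k ∈ (Finset.range (2 * q)).filter (fun k => Odd k),
      r ^ k * dk (m + 3) k * (Pg (m + 3) k c * T k)) - (η' + J * η) / 2 * ∑ i, D i ≤
      ∑ i, ∑ j ∈ Finset.univ.filter (fun j => i < j),
        (1 - r ^ 2) / Real.sqrt (1 - 2 * r * M i j + r ^ 2) ^ (m + 3) := by
    intro r hr
    have hpair : ∀ i j : Fin J, i < j → ∃ S, HasSum (fun k : ℕ => r ^ k * dk (m + 3) k *
        (Pg (m + 3) k c * fm (m + 3) k (μ i) (μ j))) S ∧
        S ≤ (1 - r ^ 2) / Real.sqrt (1 - 2 * r * M i j + r ^ 2) ^ (m + 3) := by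
      intro i j hij
      apply pair_bound (hμ i) (hμ j) hα0.le hα1.le (hM1 i j) _ hr.1 hr.2
      have a1 : ∀ᵐ p ∂((μ i).prod (μ j)), p.1 ∈ F i :=
        Measure.quasiMeasurePreserving_fst.ae (by rw [ae_iff]; exact hFμ i)
      have a2 : ∀ᵐ p ∂((μ i).prod (μ j)), p.2 ∈ F j :=
        Measure.quasiMeasurePreserving_snd.ae (by rw [ae_iff]; exact hFμ j)
      filter_upwards [a1, a2] with p hp1 hp2
      exact hM2 i j hij p.1 hp1 p.2 hp2
    have hpair' : ∀ i j : Fin J, ∃ S, i < j → (HasSum (fun k : ℕ => r ^ k * dk (m + 3) k *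
        (Pg (m + 3) k c * fm (m + 3) k (μ i) (μ j))) S ∧
        S ≤ (1 - r ^ 2) / Real.sqrt (1 - 2 * r * M i j + r ^ 2) ^ (m + 3)) := by
      intro i j
      by_cases hij : i < j
      · obtain ⟨S, hS⟩ := hpair i j hij
        exact ⟨S, fun _ => hS⟩
      · exact ⟨0, fun h => absurd h hij⟩
    choose S hS using hpair'
    have hSum : HasSum (fun k : ℕ => r ^ k * dk (m + 3) k * (Pg (m + 3) k c * T k))
        (∑ i, ∑ j ∈ Finset.univ.filter (fun j => i < j), S i j) := by
      have h1 : (fun k : ℕ => r ^ k * dk (m + 3) k * (Pg (m + 3) k c * T k)) = fun k =>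
          ∑ i, ∑ j ∈ Finset.univ.filter (fun j => i < j), r ^ k * dk (m + 3) k *
            (Pg (m + 3) k c * fm (m + 3) k (μ i) (μ j)) := by
        funext k
        show r ^ k * dk (m + 3) k * (Pg (m + 3) k c * ∑ i,
          ∑ j ∈ Finset.univ.filter (fun j => i < j), fm (m + 3) k (μ i) (μ j)) = _
        simp only [Finset.mul_sum]
      rw [h1]
      apply hasSum_sum
      intro i _
      apply hasSum_sum
      intro j hj
      exact (hS i j (Finset.mem_filter.1 hj).2).1
    refine le_trans ?_ (Finset.sum_le_sum fun i _ => Finset.sum_le_sum fun j hj =>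
      (hS i j (Finset.mem_filter.1 hj).2).2)
    refine ge_of_tendsto hSum.tendsto_sum_nat ?_
    filter_upwards [eventually_ge_atTop (2 * q + 1)] with N hN
    have h2 := Finset.sum_le_sum (s := Finset.range N) fun k _ => hpt r hr k
    rw [Finset.sum_sub_distrib, Finset.sum_sub_distrib, Finset.sum_add_distrib,
      ← Finset.mul_sum, ← Finset.mul_sum] at h2
    have h3 : ∑ k ∈ Finset.range N, (if k = 0 then C0 else 0) = C0 := by
      rw [Finset.sum_ite_eq' (Finset.range N) 0 (fun _ => C0), if_pos]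
      exact Finset.mem_range.2 (by omega)
    have h4 : ∑ k ∈ Finset.range N, (if Odd k ∧ k < 2 * q then
        r ^ k * dk (m + 3) k * (Pg (m + 3) k c * T k) else 0) =
        ∑ k ∈ (Finset.range (2 * q)).filter (fun k => Odd k),
          r ^ k * dk (m + 3) k * (Pg (m + 3) k c * T k) := by
      rw [← Finset.sum_filter]
      apply Finset.sum_congr _ fun _ _ => rfl
      ext k
      simp only [Finset.mem_filter, Finset.mem_range]
      constructor
      · rintro ⟨_, h1, h2⟩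
        exact ⟨h2, h1⟩
      · rintro ⟨h1, h2⟩
        exact ⟨by omega, h2, h1⟩
    rw [h3, h4] at h2
    have h5 := hL1 N
    have h6 := mul_le_mul_of_nonneg_left (hL2 N) (div_nonneg hJ0 zero_le_two)
    have h7 : (η' + J * η) / 2 * ∑ i, D i =
        1 / 2 * (η' * ∑ i, D i) + J / 2 * (η * ∑ i, D i) := by ring
    rw [h7]
    linarith
  -- the limit
  have hlimB : Tendsto (fun r : ℝ => ∑ i, ∑ j ∈ Finset.univ.filter (fun j => i < j),
        (1 - r ^ 2) / Real.sqrt (1 - 2 * r * M i j + r ^ 2) ^ (m + 3)) (𝓝[<] 1) (𝓝 0) := by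
    have h1 : Tendsto (fun r : ℝ => ∑ i, ∑ j ∈ Finset.univ.filter (fun j => i < j),
        (1 - r ^ 2) / Real.sqrt (1 - 2 * r * M i j + r ^ 2) ^ (m + 3)) (𝓝[<] 1)
        (𝓝 (∑ i : Fin J, ∑ j ∈ Finset.univ.filter (fun j => i < j), 0)) := by
      apply tendsto_finsetSum
      intro i _
      apply tendsto_finsetSum
      intro j _
      exact lim_aux (hM1 i j) (m + 3)
    simpa using h1
  have hlimX : Tendsto (fun r : ℝ => C0 + (∑ k ∈ (Finset.range (2 * q)).filter (fun k => Odd k),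
      r ^ k * dk (m + 3) k * (Pg (m + 3) k c * T k)) - (η' + J * η) / 2 * ∑ i, D i) (𝓝[<] 1)
      (𝓝 (C0 + (∑ k ∈ (Finset.range (2 * q)).filter (fun k => Odd k),
      dk (m + 3) k * (Pg (m + 3) k c * T k)) - (η' + J * η) / 2 * ∑ i, D i)) := by
    have h1 : Continuous (fun r : ℝ => C0 + (∑ k ∈ (Finset.range (2 * q)).filter (fun k => Odd k),
      r ^ k * dk (m + 3) k * (Pg (m + 3) k c * T k)) - (η' + J * η) / 2 * ∑ i, D i) := by
      fun_prop
    have h2 := h1.tendsto 1
    simp only [one_pow, one_mul] at h2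
    exact h2.mono_left nhdsWithin_le_nhds
  have hlim := le_of_tendsto_of_tendsto hlimX hlimB (by
    filter_upwards [Ioo_mem_nhdsLT (zero_lt_one (α := ℝ))] with r hr
    exact hfix r hr)
  have hOf : ∑ i, ∑ j ∈ Finset.univ.filter (fun j => i < j), Of (m + 3) q α (μ i) (μ j) =
      ∑ k ∈ (Finset.range (2 * q)).filter (fun k => Odd k),
        dk (m + 3) k * (Pg (m + 3) k c * T k) := by
    unfold Of
    simp_rw [Finset.sum_comm (s := Finset.univ.filter _) (t := (Finset.range (2 * q)).filter _)]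
    rw [Finset.sum_comm]
    refine Finset.sum_congr rfl fun k _ => ?_
    show _ = dk (m + 3) k * (Pg (m + 3) k c * ∑ i,
      ∑ j ∈ Finset.univ.filter (fun j => i < j), fm (m + 3) k (μ i) (μ j))
    simp only [Finset.mul_sum]
    refine Finset.sum_congr rfl fun i _ => Finset.sum_congr rfl fun j _ => ?_
    ring
  rw [hOf] at hmain
  linarith

end Pool.Agent.H83.AG
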