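import Pool.Agent.H83.AG.Prod
import Pool.Graph.R_seed8.W646.AG.Basic

/-!
Rotation invariant measures on spheres and their moments.
-/

set_option autoImplicit false
set_option linter.unusedSectionVars false

open MeasureTheory Metric Set
open scoped ENNReal RealInnerProductSpace

namespace Pool.Agent.H83.AG

open Pool.Agent.W778.AG

section gen

variable {V : Type} [NormedAddCommGroup V] [InnerProductSpace ℝ V] [FiniteDimensional ℝ V]
  [MeasurableSpace V] [BorelSpace V]

/-- direction -/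
noncomputable def dr (z : V) : V := ‖z‖⁻¹ • z

lemma measurable_dr : Measurable (dr : V → V) := by
  unfold dr
  fun_prop

lemma dr_map (g : V ≃ₗᵢ[ℝ] V) (z : V) : g (dr z) = dr (g z) := by
  unfold dr
  rw [map_smul, g.norm_map]

lemma norm_dr {z : V} (hz : z ≠ 0) : ‖dr z‖ = 1 := by
  unfold dr
  rw [norm_smul, norm_inv, norm_norm, inv_mul_cancel₀ (norm_ne_zero_iff.2 hz)]

variable (V) in
/-- uniform measure on the unit sphere -/
noncomputable def sph : Measure V :=
  (volume (ball (0 : V) 1))⁻¹ • (volume.restrict (ball (0 : V) 1)).map dr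

/-- invariance under isometries -/
def Inv (μ : Measure V) : Prop := ∀ g : V ≃ₗᵢ[ℝ] V, μ.map g = μ

lemma sph_inv : Inv (sph V) := by
  intro g
  unfold sph
  rw [Measure.map_smul, Measure.map_map g.continuous.measurable measurable_dr]
  congr 1
  have h1 : (⇑g ∘ dr : V → V) = dr ∘ g := by
    funext z
    exact dr_map g z
  rw [h1, ← Measure.map_map measurable_dr g.continuous.measurable]
  congr 1
  have h2 := (g.measurePreserving).restrict_preimage (s := ball (0 : V) 1) measurableSet_ball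
  have h3 : ⇑g ⁻¹' ball (0 : V) 1 = ball 0 1 := by
    ext z
    simp
  rw [h3] at h2
  exact h2.map_eq

instance sph_prob : IsProbabilityMeasure (sph V) := by
  constructor
  unfold sph
  rw [Measure.smul_apply, Measure.map_apply measurable_dr MeasurableSet.univ, preimage_univ,
    Measure.restrict_apply_univ, smul_eq_mul]
  exact ENNReal.inv_mul_cancel (measure_ball_pos _ _ one_pos).ne' measure_ball_lt_top.ne

lemma sph_norm [Nontrivial V] : ∀ᵐ u ∂(sph V), ‖u‖ = 1 := by
  unfold sph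
  refine Measure.ae_smul_measure ?_ _
  rw [ae_map_iff measurable_dr.aemeasurable (measurableSet_eq_fun measurable_norm measurable_const)]
  refine ae_restrict_of_ae ?_
  have : ∀ᵐ z ∂(volume : Measure V), z ≠ 0 := by
    have h0 : (volume : Measure V) {0} = 0 := measure_singleton 0
    rw [ae_iff]
    simp
  filter_upwards [this] with z hz
  exact norm_dr hz

/-- isometries act transitively on the sphere -/
lemma exists_iso {e e' : V} (h : ‖e‖ = ‖e'‖) : ∃ g : V ≃ₗᵢ[ℝ] V, g e = e' := by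
  by_cases hzw : e = e'
  · exact ⟨LinearIsometryEquiv.refl ℝ V, by simpa using hzw⟩
  · exact ⟨Submodule.reflection (ℝ ∙ (e - e'))ᗮ, Submodule.reflection_sub h⟩

/-- two-point homogeneity -/
lemma exists_iso2 {u v u' v' : V} (hu : ‖u‖ = ‖u'‖) (hv : ‖v‖ = ‖v'‖) (huv : ⟪u, v⟫ = ⟪u', v'⟫) :
    ∃ g : V ≃ₗᵢ[ℝ] V, g u = u' ∧ g v = v' := by
  obtain ⟨g, hg⟩ := exists_iso hu
  by_cases h : g v = v'
  · exact ⟨g, hg, h⟩
  · have h1 : ‖g v‖ = ‖v'‖ := by rw [g.norm_map, hv]
    refine ⟨g.trans (Submodule.reflection (ℝ ∙ (g v - v'))ᗮ), ?_, ?_⟩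
    · rw [LinearIsometryEquiv.trans_apply, hg]
      rw [Submodule.reflection_mem_subspace_eq_self]
      rw [Submodule.mem_orthogonal_singleton_iff_inner_left, inner_sub_right, ← hg, g.inner_map_map,
        hg, huv, sub_self]
    · rw [LinearIsometryEquiv.trans_apply]
      exact Submodule.reflection_sub h1

lemma Inv.lint {μ : Measure V} (hμ : Inv μ) (g : V ≃ₗᵢ[ℝ] V) (f : V → ℝ≥0∞) (hf : Measurable f) :
    ∫⁻ u, f (g u) ∂μ = ∫⁻ u, f u ∂μ := by
  conv_rhs => rw [← hμ g]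
  rw [lintegral_map hf g.continuous.measurable]

lemma Inv.int {μ : Measure V} (hμ : Inv μ) (g : V ≃ₗᵢ[ℝ] V) (f : V → ℝ) :
    ∫ u, f (g u) ∂μ = ∫ u, f u ∂μ := by
  conv_rhs => rw [← hμ g]
  exact (g.toHomeomorph.measurableEmbedding.integral_map (μ := μ) f).symm

/-- functions which are polynomials -/
def Pol (f : ℝ → ℝ) : Prop := ∃ p : Polynomial ℝ, ∀ t, f t = p.eval t

lemma Pol.cont {f : ℝ → ℝ} (h : Pol f) : Continuous f := by
  obtain ⟨p, hp⟩ := h
  have : f = fun t => p.eval t := funext hp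
  rw [this]
  exact p.continuous

variable {μ : Measure V} [IsProbabilityMeasure μ]

lemma integrable_of_cont (hn : ∀ᵐ u ∂μ, ‖u‖ = 1) (f : V → ℝ) (hf : Continuous f) :
    Integrable f μ := by
  obtain ⟨C, hC⟩ := (isCompact_sphere (0 : V) 1).exists_bound_of_continuousOn hf.continuousOn
  refine Integrable.of_bound hf.aestronglyMeasurable C ?_
  filter_upwards [hn] with u hu
  exact hC u (by simpa using hu)

/-- mixed moments -/
noncomputable def mm (μ : Measure V) (e e' : V) (i j : ℕ) : ℝ := ∫ u, ⟪u, e⟫ ^ i * ⟪u, e'⟫ ^ j ∂μ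

lemma mom_inv (hμ : Inv μ) {e e' : V} (h : ‖e‖ = ‖e'‖) (f : ℝ → ℝ) :
    ∫ u, f ⟪u, e⟫ ∂μ = ∫ u, f ⟪u, e'⟫ ∂μ := by
  obtain ⟨g, hg⟩ := exists_iso h
  rw [← hμ.int g (fun u => f ⟪u, e'⟫)]
  simp only [← hg, g.inner_map_map]

lemma mom_odd (hμ : Inv μ) (e : V) (j : ℕ) (hj : Odd j) : ∫ u, ⟪u, e⟫ ^ j ∂μ = 0 := by
  have h := hμ.int (LinearIsometryEquiv.neg ℝ) (fun u => ⟪u, e⟫ ^ j)
  simp only [LinearIsometryEquiv.coe_neg, inner_neg_left, hj.neg_pow] at h
  rw [integral_neg] at h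
  linarith

lemma coeff_aux (m : ℕ) : ((1 + Polynomial.X ^ 2 : Polynomial ℝ) ^ m).coeff 2 = m := by
  have h : (1 + Polynomial.X ^ 2 : Polynomial ℝ) ^ m =
      Polynomial.expand ℝ 2 ((1 + Polynomial.X) ^ m) := by
    rw [map_pow, map_add, Polynomial.expand_X, map_one]
  rw [h, Polynomial.coeff_expand (by norm_num)]
  simp [Polynomial.coeff_one_add_X_pow]

lemma mixed (hμ : Inv μ) (hn : ∀ᵐ u ∂μ, ‖u‖ = 1) {e e' : V} (he : ‖e‖ = 1) (he' : ‖e'‖ = 1)
    (hee : ⟪e, e'⟫ = 0) (l : ℕ) :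
    (2 * (l : ℝ) + 1) * ∫ u, ⟪u, e⟫ ^ (2 * l) * ⟪u, e'⟫ ^ 2 ∂μ = ∫ u, ⟪u, e⟫ ^ (2 * l + 2) ∂μ := by
  classical
  set N := 2 * l + 2 with hN
  set M := ∫ u, ⟪u, e⟫ ^ N ∂μ with hM
  have hG : ∀ t : ℝ, ∫ u, (⟪u, e⟫ + t * ⟪u, e'⟫) ^ N ∂μ = (1 + t ^ 2) ^ (l + 1) * M := by
    intro t
    set w := e + t • e' with hw
    have hw2 : ‖w‖ ^ 2 = 1 + t ^ 2 := by
      rw [hw, norm_add_sq_real, inner_smul_right, hee, norm_smul, he, he']
      simp
    have h1 : ∀ u, ⟪u, e⟫ + t * ⟪u, e'⟫ = ⟪u, w⟫ := by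
      intro u
      rw [hw, inner_add_right, inner_smul_right]
    simp_rw [h1]
    have h2 : ‖w‖ = ‖(‖w‖ • e)‖ := by rw [norm_smul, norm_norm, he, mul_one]
    rw [mom_inv hμ h2 (fun x => x ^ N)]
    simp only [inner_smul_right, mul_pow]
    rw [integral_const_mul, ← hM, hN, show 2 * l + 2 = 2 * (l + 1) by ring, pow_mul, hw2]
  have hexp : ∀ t : ℝ, ∫ u, (⟪u, e⟫ + t * ⟪u, e'⟫) ^ N ∂μ =
      ∑ i ∈ Finset.range (N + 1), ((N.choose i : ℝ) * mm μ e e' i (N - i)) * t ^ (N - i) := by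
    intro t
    simp_rw [add_pow]
    rw [integral_finsetSum]
    · refine Finset.sum_congr rfl fun i _ => ?_
      unfold mm
      rw [← integral_const_mul, ← integral_mul_const]
      congr 1
      ext u
      rw [mul_pow]
      ring
    · intro i _
      apply integrable_of_cont hn
      fun_prop
  have hpoly : (∑ i ∈ Finset.range (N + 1), Polynomial.C ((N.choose i : ℝ) * mm μ e e' i (N - i)) *
      Polynomial.X ^ (N - i)) = Polynomial.C M * (1 + Polynomial.X ^ 2) ^ (l + 1) := by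
    apply Polynomial.funext
    intro t
    rw [Polynomial.eval_finsetSum]
    simp only [Polynomial.eval_mul, Polynomial.eval_C, Polynomial.eval_pow, Polynomial.eval_X,
      Polynomial.eval_add, Polynomial.eval_one]
    rw [← hexp, hG, mul_comm]
  have hc := congrArg (fun p => Polynomial.coeff p 2) hpoly
  simp only [Polynomial.finsetSum_coeff, Polynomial.coeff_C_mul, Polynomial.coeff_X_pow] at hc
  rw [Finset.sum_eq_single (2 * l)] at hc
  · have e1 : N - 2 * l = 2 := by omega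
    have e2 : N.choose (2 * l) = (l + 1) * (2 * l + 1) := by
      have h3 : N.choose (2 * l) = N.choose 2 := by
        rw [← Nat.choose_symm_of_eq_add (show N = 2 * l + 2 from hN)]
      rw [h3, Nat.choose_two_right, hN]
      have : (2 * l + 2) * (2 * l + 2 - 1) = 2 * ((l + 1) * (2 * l + 1)) := by
        rw [show 2 * l + 2 - 1 = 2 * l + 1 by omega]
        ring
      rw [this, Nat.mul_div_cancel_left _ (by norm_num)]
    rw [e1, coeff_aux, e2] at hc
    simp only [if_true, mul_one] at hc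
    unfold mm at hc
    push_cast at hc
    have h5 : (l : ℝ) + 1 ≠ 0 := by positivity
    apply mul_left_cancel₀ h5
    linarith
  · intro i hi hne
    rw [if_neg, mul_zero]
    intro h
    rw [Finset.mem_range] at hi
    omega
  · intro h
    exact absurd (Finset.mem_range.2 (by omega)) h

lemma mom_rec (hμ : Inv μ) (hn : ∀ᵐ u ∂μ, ‖u‖ = 1) {d : ℕ} (hd : Module.finrank ℝ V = d + 1)
    {e : V} (he : ‖e‖ = 1) (l : ℕ) :
    ((d : ℝ) + 1 + 2 * l) * ∫ u, ⟪u, e⟫ ^ (2 * l + 2) ∂μ =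
      (2 * (l : ℝ) + 1) * ∫ u, ⟪u, e⟫ ^ (2 * l) ∂μ := by
  classical
  let b : OrthonormalBasis (Fin (d + 1)) ℝ V := (stdOrthonormalBasis ℝ V).reindex (finCongr hd)
  have hb : ∀ i, ‖b i‖ = 1 := fun i => b.orthonormal.1 i
  have h0 : ∀ j : ℕ, ∫ u, ⟪u, e⟫ ^ j ∂μ = ∫ u, ⟪u, b 0⟫ ^ j ∂μ := fun j =>
    mom_inv hμ (by rw [he, hb]) (fun x => x ^ j)
  rw [h0, h0]
  have h1 : ∀ i : Fin d, (2 * (l : ℝ) + 1) * ∫ u, ⟪u, b 0⟫ ^ (2 * l) * ⟪u, b i.succ⟫ ^ 2 ∂μ =
      ∫ u, ⟪u, b 0⟫ ^ (2 * l + 2) ∂μ := fun i =>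
    mixed hμ hn (hb _) (hb _) (b.orthonormal.2 (Fin.succ_ne_zero i).symm) l
  have h2 : ∑ i : Fin d, ∫ u, ⟪u, b 0⟫ ^ (2 * l) * ⟪u, b i.succ⟫ ^ 2 ∂μ =
      ∫ u, ⟪u, b 0⟫ ^ (2 * l) ∂μ - ∫ u, ⟪u, b 0⟫ ^ (2 * l + 2) ∂μ := by
    rw [← integral_finsetSum, ← integral_sub]
    · apply integral_congr_ae
      filter_upwards [hn] with u hu
      rw [← Finset.mul_sum]
      have h3 : ∑ i : Fin (d + 1), ⟪u, b i⟫ ^ 2 = 1 := by
        have := b.sum_sq_norm_inner_left u
        simp only [Real.norm_eq_abs, sq_abs] at this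
        rw [this, hu]
        norm_num
      rw [Fin.sum_univ_succ] at h3
      have h4 : ∑ i : Fin d, ⟪u, b i.succ⟫ ^ 2 = 1 - ⟪u, b 0⟫ ^ 2 := by linarith
      rw [h4]
      ring
    · apply integrable_of_cont hn; fun_prop
    · apply integrable_of_cont hn; fun_prop
    · intro i _
      apply integrable_of_cont hn; fun_prop
  have h3 : ∑ i : Fin d, (2 * (l : ℝ) + 1) * ∫ u, ⟪u, b 0⟫ ^ (2 * l) * ⟪u, b i.succ⟫ ^ 2 ∂μ =
      d * ∫ u, ⟪u, b 0⟫ ^ (2 * l + 2) ∂μ := by
    simp_rw [h1]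
    simp
  rw [← Finset.mul_sum, h2] at h3
  linarith

/-- moments of the cosine -/
lemma LE_mom (m j : ℕ) : ((m : ℝ) + 2 + j) * LE (m + 3) (fun φ => Real.cos φ ^ (j + 2)) =
    ((j : ℝ) + 1) * LE (m + 3) (fun φ => Real.cos φ ^ j) := by
  have h := LE_ibp m (fun t => t ^ (j + 1)) (fun t => ((j + 1 : ℕ) : ℝ) * t ^ j)
    (fun t => hasDerivAt_pow (j + 1) t) (by fun_prop)
  rw [LE_const_mul] at h
  have h1 : (fun φ => Real.cos φ * Real.cos φ ^ (j + 1)) = fun φ => Real.cos φ ^ (j + 2) := by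
    ext φ; ring
  rw [h1] at h
  have h2 : ((m : ℝ) + 1) * LE (m + 5) (fun φ => Real.cos φ ^ j) =
      ((m : ℝ) + 2) * (LE (m + 3) (fun φ => Real.cos φ ^ j) -
        LE (m + 3) (fun φ => Real.cos φ ^ (j + 2))) := by
    unfold Pool.Agent.W778.AG.LE
    rw [show m + 3 - 3 = m from rfl, show m + 5 - 3 = m + 2 from rfl, ← sub_div,
      ← intervalIntegral.integral_sub]
    · have h3 := sinI_pos m
      have h4 := sinI_pos (m + 2)
      have h5 := sinI_rec m
      have e : (∫ φ in (0 : ℝ)..Real.pi, Real.cos φ ^ j * Real.sin φ ^ (m + 2)) =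
          ∫ φ in (0 : ℝ)..Real.pi, (Real.cos φ ^ j * Real.sin φ ^ m -
            Real.cos φ ^ (j + 2) * Real.sin φ ^ m) := by
        congr 1
        ext φ
        have := Real.sin_sq φ
        rw [pow_add (Real.sin φ), this]
        ring
      rw [e, ← mul_div_assoc, ← mul_div_assoc, div_eq_div_iff h4.ne' h3.ne']
      linear_combination (-(∫ φ in (0 : ℝ)..Real.pi, (Real.cos φ ^ j * Real.sin φ ^ m -
            Real.cos φ ^ (j + 2) * Real.sin φ ^ m))) * h5
    · apply Continuous.intervalIntegrable; fun_prop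
    · apply Continuous.intervalIntegrable; fun_prop
  push_cast at h
  have h6 : (m : ℝ) + 2 ≠ 0 := by positivity
  apply mul_left_cancel₀ h6
  linear_combination ((m : ℝ) + 1) * h + ((j : ℝ) + 1) * h2

lemma LE_mom_one (m : ℕ) : LE (m + 3) (fun φ => Real.cos φ ^ 1) = 0 := by
  have h := LE_ibp m (fun _ => 1) (fun _ => 0) (fun t => hasDerivAt_const t 1) continuous_const
  simp only [mul_one] at h
  rw [LE_const (m + 2)] at h
  have hm : (m : ℝ) + 2 ≠ 0 := by positivity
  simp only [pow_one]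
  rcases mul_eq_zero.1 h with h | h
  · exact absurd h hm
  · exact h

lemma LE_mom_odd (m l : ℕ) : LE (m + 3) (fun φ => Real.cos φ ^ (2 * l + 1)) = 0 := by
  induction l with
  | zero => exact LE_mom_one m
  | succ l ih =>
    have h := LE_mom m (2 * l + 1)
    rw [ih, mul_zero] at h
    rcases mul_eq_zero.1 h with h | h
    · exact absurd h (by positivity)
    · exact h

lemma marg_pow (hμ : Inv μ) (hn : ∀ᵐ u ∂μ, ‖u‖ = 1) {m : ℕ} (hd : Module.finrank ℝ V = m + 2)
    {e : V} (he : ‖e‖ = 1) (j : ℕ) :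
    ∫ u, ⟪u, e⟫ ^ j ∂μ = LE (m + 3) (fun φ => Real.cos φ ^ j) := by
  rcases Nat.even_or_odd' j with ⟨l, rfl | rfl⟩
  · induction l with
    | zero =>
      simp only [mul_zero, pow_zero, LE_const]
      simp
    | succ l ih =>
      have h1 := mom_rec hμ hn (d := m + 1) hd he l
      have h2 := LE_mom m (2 * l)
      rw [ih, show 2 * (l + 1) = 2 * l + 2 by ring] at *
      push_cast at h1 h2
      have h3 : (m : ℝ) + 2 + 2 * l ≠ 0 := by positivity
      apply mul_left_cancel₀ h3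
      linarith
  · rw [LE_mom_odd, mom_odd hμ e _ ⟨l, rfl⟩]

lemma marg (hμ : Inv μ) (hn : ∀ᵐ u ∂μ, ‖u‖ = 1) {m : ℕ} (hd : Module.finrank ℝ V = m + 2)
    {e : V} (he : ‖e‖ = 1) {f : ℝ → ℝ} (hf : Pol f) :
    ∫ u, f ⟪u, e⟫ ∂μ = LE (m + 3) (fun φ => f (Real.cos φ)) := by
  obtain ⟨p, hp⟩ := hf
  simp_rw [hp]
  induction p using Polynomial.induction_on' generalizing f with
  | add p q h1 h2 =>
    simp only [Polynomial.eval_add]
    rw [integral_add, LE_add, h1 (fun t => rfl), h2 (fun t => rfl)]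
    · exact p.continuous.comp Real.continuous_cos
    · exact q.continuous.comp Real.continuous_cos
    · apply integrable_of_cont hn
      exact p.continuous.comp (by fun_prop)
    · apply integrable_of_cont hn
      exact q.continuous.comp (by fun_prop)
  | monomial n a =>
    simp only [Polynomial.eval_monomial]
    rw [integral_const_mul, LE_const_mul, marg_pow hμ hn hd he]

end gen

lemma Pg_pol (m k : ℕ) (x y : ℝ) : Pol (fun t => Pg (m + 3) k (x + y * t)) := by
  induction k using Nat.twoStepInduction with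
  | zero => exact ⟨1, fun t => by simp [Pg_zero]⟩
  | one => exact ⟨Polynomial.C x + Polynomial.C y * Polynomial.X, fun t => by simp [Pg_one]⟩
  | more k h1 h2 =>
    obtain ⟨p, hp⟩ := h1
    obtain ⟨q, hq⟩ := h2
    refine ⟨Polynomial.C (1 / ((k : ℝ) + ((m + 3 : ℕ) : ℝ) - 1)) * (Polynomial.C (2 * (k : ℝ) + ((m + 3 : ℕ) : ℝ)) *
      (Polynomial.C x + Polynomial.C y * Polynomial.X) * q - Polynomial.C ((k : ℝ) + 1) * p),
      fun t => ?_⟩
    show Pg (m + 3) (k + 2) (x + y * t) = _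
    have hp' := hp t
    have hq' := hq t
    simp only at hp' hq'
    rw [Pg_add_two, hp', hq']
    simp only [Polynomial.eval_mul, Polynomial.eval_sub, Polynomial.eval_add, Polynomial.eval_C,
      Polynomial.eval_X]
    ring


/-- averaging over the points at angle `α` from `v` -/
theorem avg : S_AVG := by
  intro n hn v α hv
  obtain ⟨m, rfl⟩ : ∃ m, n = m + 3 := ⟨n - 3, by omega⟩
  have hv0 : v ≠ 0 := by
    intro h
    rw [h, norm_zero] at hv
    exact zero_ne_one hv
  let W : Submodule ℝ (En (m + 3)) := (ℝ ∙ v)ᗮ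
  have hfr : Module.finrank ℝ W = m + 2 := by
    have h1 := Submodule.finrank_add_finrank_orthogonal (ℝ ∙ v)
    rw [finrank_span_singleton hv0, finrank_euclideanSpace, Fintype.card_fin] at h1
    show Module.finrank ℝ (ℝ ∙ v)ᗮ = m + 2
    omega
  have hnt : Nontrivial W := Module.nontrivial_of_finrank_pos (R := ℝ) (by rw [hfr]; omega)
  let μ : Measure W := sph W
  have hμ : Inv μ := sph_inv
  have hμn : ∀ᵐ u ∂μ, ‖u‖ = 1 := sph_norm
  let T : W → En (m + 3) := fun u => Real.cos α • v + Real.sin α • (u : En (m + 3))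
  have hTc : Continuous T := by fun_prop
  have hT : Measurable T := hTc.measurable
  have hperp : ∀ u : W, ⟪v, (u : En (m + 3))⟫ = 0 := fun u =>
    Submodule.mem_orthogonal_singleton_iff_inner_right.1 u.2
  refine ⟨μ.map T, ⟨Measure.isProbabilityMeasure_map hT.aemeasurable, ?_⟩, ?_, ?_⟩
  · rw [Measure.map_apply hT isClosed_sphere.measurableSet.compl]
    have : ∀ᵐ u ∂μ, T u ∈ sphere (0 : En (m + 3)) 1 := by
      filter_upwards [hμn] with u hu
      rw [mem_sphere_zero_iff_norm]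
      have h2 : ‖T u‖ ^ 2 = 1 := by
        show ‖Real.cos α • v + Real.sin α • (u : En (m + 3))‖ ^ 2 = 1
        rw [norm_add_sq_real, inner_smul_left, inner_smul_right, hperp, norm_smul, norm_smul, hv]
        have hu' : ‖(u : En (m + 3))‖ = 1 := hu
        rw [hu']
        simp only [mul_zero, mul_one, add_zero, Real.norm_eq_abs, sq_abs]
        linarith [Real.sin_sq_add_cos_sq α]
      have h3 := norm_nonneg (T u)
      nlinarith
    rw [ae_iff] at this
    exact this
  · have hms : MeasurableSet {w : En (m + 3) | ⟪v, w⟫ ≠ Real.cos α} := by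
      have h1 : MeasurableSet {w : En (m + 3) | ⟪v, w⟫ = Real.cos α} :=
        measurableSet_eq_fun (by fun_prop) measurable_const
      exact h1.compl
    rw [Measure.map_apply hT hms]
    have : ∀ᵐ u ∂μ, ⟪v, T u⟫ = Real.cos α := by
      refine Filter.Eventually.of_forall fun u => ?_
      show ⟪v, Real.cos α • v + Real.sin α • (u : En (m + 3))⟫ = Real.cos α
      rw [inner_add_right, inner_smul_right, inner_smul_right, hperp, real_inner_self_eq_norm_sq, hv]
      ring
    rw [ae_iff] at this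
    exact this
  · intro k x hx
    rw [integral_map hT.aemeasurable (by
      apply Continuous.aestronglyMeasurable
      exact (Pg_cont m k).comp (by fun_prop))]
    -- decomposition of `x`
    set x' : W := W.orthogonalProjectionOnto x with hx'
    have h1 : ∀ u : W, ⟪(u : En (m + 3)), x⟫ = ⟪u, x'⟫ := by
      intro u
      rw [hx']
      exact (Submodule.inner_orthogonalProjectionOnto_eq_of_mem_left u x).symm
    obtain ⟨e, s', he, hs', hxe⟩ : ∃ (e : W) (s' : ℝ), ‖e‖ = 1 ∧ 0 ≤ s' ∧ x' = s' • e := by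
      by_cases h0 : x' = 0
      · obtain ⟨e, he⟩ := exists_norm_eq W zero_le_one
        exact ⟨e, 0, he, le_rfl, by rw [h0, zero_smul]⟩
      · exact ⟨‖x'‖⁻¹ • x', ‖x'‖, norm_dr h0, norm_nonneg _, by
          rw [smul_smul, mul_inv_cancel₀ (norm_ne_zero_iff.2 h0), one_smul]⟩
    have hb : ⟪v, x⟫ ^ 2 + s' ^ 2 = 1 := by
      have h3 := Submodule.norm_sq_eq_add_norm_sq_starProjection x (ℝ ∙ v)
      rw [Submodule.starProjection_unit_singleton ℝ hv, norm_smul, hv, hx, Real.norm_eq_abs,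
        mul_one, sq_abs] at h3
      have h4 : ‖(ℝ ∙ v)ᗮ.starProjection x‖ = s' := by
        have h5 : ‖(ℝ ∙ v)ᗮ.starProjection x‖ = ‖x'‖ := rfl
        rw [h5, hxe, norm_smul, he, mul_one, Real.norm_of_nonneg hs']
      rw [h4] at h3
      linarith
    have h2 : ∀ u : W, ⟪T u, x⟫ = ⟪v, x⟫ * Real.cos α + s' * Real.sin α * ⟪u, e⟫ := by
      intro u
      show ⟪Real.cos α • v + Real.sin α • (u : En (m + 3)), x⟫ = _
      rw [inner_add_left, inner_smul_left, inner_smul_left, h1, hxe, inner_smul_right]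
      simp only [conj_trivial]
      ring
    simp_rw [h2]
    rw [marg hμ hμn hfr he (Pg_pol m k (⟪v, x⟫ * Real.cos α) (s' * Real.sin α)),
      prodF k m ⟪v, x⟫ (Real.cos α) s' (Real.sin α) hb (Real.cos_sq_add_sin_sq α)]
    ring

end Pool.Agent.H83.AG
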