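import Pool.Agent.H83.AG.Right
import Pool.Agent.H83.AG.Sph

/-!
Small dimension, all angles.
-/

set_option autoImplicit false
set_option linter.unusedSectionVars false

open MeasureTheory Metric Set Filter Topology
open scoped ENNReal NNReal RealInnerProductSpace

namespace Pool.Agent.H83.AG

open Pool.Agent.W778.AG

variable {m : ℕ}

/-- the first basis vector -/
noncomputable def e0 (m : ℕ) : En (m + 1) := EuclideanSpace.single 0 1

/-- the projection along `u` -/
noncomputable def pu (u : En (m + 1)) : En (m + 1) →L[ℝ] En m :=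
  LinearMap.toContinuousLinearMap
    { toFun := fun w => WithLp.toLp 2 (fun i : Fin m =>
        w i.succ - 2 * ⟪u - e0 m, w⟫ / ‖u - e0 m‖ ^ 2 * u i.succ)
      map_add' := by
        intro w w'
        ext i
        simp only [PiLp.add_apply, inner_add_right]
        ring
      map_smul' := by
        intro c w
        ext i
        simp only [PiLp.smul_apply, smul_eq_mul, inner_smul_right, RingHom.id_apply]
        ring }

lemma pu_apply (u w : En (m + 1)) (i : Fin m) :
    pu u w i = w i.succ - 2 * ⟪u - e0 m, w⟫ / ‖u - e0 m‖ ^ 2 * u i.succ := rfl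

lemma inner_e0 (w : En (m + 1)) : ⟪e0 m, w⟫ = w 0 := by
  unfold e0
  rw [EuclideanSpace.inner_single_left]
  simp

lemma pu_norm {u : En (m + 1)} (hu : ‖u‖ = 1) (w : En (m + 1)) :
    ‖pu u w‖ ^ 2 = ‖w‖ ^ 2 - ⟪u, w⟫ ^ 2 := by
  have hU : ∑ i : Fin m, u i.succ ^ 2 = 1 - u 0 ^ 2 := by
    have h := EuclideanSpace.real_norm_sq_eq u
    rw [hu, Fin.sum_univ_succ] at h
    linarith
  have hW : ∑ i : Fin m, w i.succ ^ 2 = ‖w‖ ^ 2 - w 0 ^ 2 := by
    have h := EuclideanSpace.real_norm_sq_eq w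
    rw [Fin.sum_univ_succ] at h
    linarith
  have hV : ∑ i : Fin m, w i.succ * u i.succ = ⟪u, w⟫ - u 0 * w 0 := by
    rw [PiLp.inner_apply, Fin.sum_univ_succ]
    simp only [RCLike.inner_apply, conj_trivial]
    ring
  have hh : ‖u - e0 m‖ ^ 2 = 2 - 2 * u 0 := by
    rw [norm_sub_sq_real, hu, real_inner_comm, inner_e0]
    have : ‖e0 m‖ = 1 := by simp [e0]
    rw [this]
    ring
  have hhw : ⟪u - e0 m, w⟫ = ⟪u, w⟫ - w 0 := by
    rw [inner_sub_left, inner_e0]
  set c := 2 * ⟪u - e0 m, w⟫ / ‖u - e0 m‖ ^ 2 with hc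
  have h1 : ‖pu u w‖ ^ 2 = ‖w‖ ^ 2 - w 0 ^ 2 - 2 * c * (⟪u, w⟫ - u 0 * w 0) +
      c ^ 2 * (1 - u 0 ^ 2) := by
    rw [EuclideanSpace.real_norm_sq_eq, ← hU, ← hW, ← hV, Finset.mul_sum, Finset.mul_sum,
      ← Finset.sum_sub_distrib, ← Finset.sum_add_distrib]
    refine Finset.sum_congr rfl fun i _ => ?_
    rw [pu_apply, ← hc]
    ring
  rw [h1]
  by_cases h0 : u 0 = 1
  · have h2 : u - e0 m = 0 := by
      rw [← norm_eq_zero, ← sq_eq_zero_iff, hh, h0]
      ring
    have h3 : c = 0 := by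
      rw [hc, h2]
      simp
    have h4 : u = e0 m := sub_eq_zero.1 h2
    rw [h3]
    have h5 : ⟪u, w⟫ = w 0 := by rw [h4, inner_e0]
    rw [h5]
    ring
  · have h2 : 1 - u 0 ≠ 0 := fun h => h0 (by linarith)
    have h3 : c = (⟪u, w⟫ - w 0) / (1 - u 0) := by
      rw [hc, hh, hhw]
      field_simp
    rw [h3]
    field_simp
    ring

lemma pu_ker {u : En (m + 1)} (hu : ‖u‖ = 1) {d : En (m + 1)} (h : pu u d = 0) :
    d = ⟪u, d⟫ • u := by
  have h1 := pu_norm hu d
  rw [h, norm_zero] at h1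
  have h2 : ‖d - ⟪u, d⟫ • u‖ ^ 2 = 0 := by
    have h3 : ⟪d, u⟫ = ⟪u, d⟫ := real_inner_comm u d
    rw [norm_sub_sq_real, inner_smul_right, norm_smul, hu, mul_one,
      Real.norm_eq_abs, sq_abs, h3]
    linear_combination (-1 : ℝ) * h1
  rw [sq_eq_zero_iff, norm_eq_zero, sub_eq_zero] at h2
  exact h2

lemma pu_meas : Measurable (fun z : En (m + 1) × En (m + 1) => pu z.1 z.2) := by
  show Measurable (fun z : En (m + 1) × En (m + 1) => WithLp.toLp 2 (fun i : Fin m =>
        z.2 i.succ - 2 * ⟪z.1 - e0 m, z.2⟫ / ‖z.1 - e0 m‖ ^ 2 * z.1 i.succ))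
  apply (PiLp.continuous_toLp 2 _).measurable.comp
  apply measurable_pi_lambda
  intro i
  have h1 : Measurable (fun z : En (m + 1) × En (m + 1) => z.2 i.succ) := by
    apply Continuous.measurable
    fun_prop
  have h2 : Measurable (fun z : En (m + 1) × En (m + 1) => z.1 i.succ) := by
    apply Continuous.measurable
    fun_prop
  have h3 : Measurable (fun z : En (m + 1) × En (m + 1) => ⟪z.1 - e0 m, z.2⟫) := by
    apply Continuous.measurable
    fun_prop
  have h4 : Measurable (fun z : En (m + 1) × En (m + 1) => ‖z.1 - e0 m‖ ^ 2) := by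
    apply Continuous.measurable
    fun_prop
  exact h1.sub (((h3.const_mul 2).div h4).mul h2)

/-- points followed by another point on a ray -/
lemma ray_null {u : En (m + 1)} (hu : ‖u‖ = 1) (ν : Measure (En (m + 1))) (K : Set (En (m + 1)))
    (hK : IsCompact K) (hνK : ν Kᶜ = 0)
    (h : ∀ L : Set (En (m + 1)), MeasurableSet L → InjOn (pu u) L → ν L = 0) :
    ∀ᵐ y ∂ν, y ∈ K ∧ ∃ t : ℝ, 0 < t ∧ y + t • u ∈ K := by
  set Z : ℕ → Set (En (m + 1)) := fun j => (fun p : En (m + 1) × ℝ => p.1 - p.2 • u) ''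
    (K ×ˢ Icc (1 / ((j : ℝ) + 1)) ((j : ℝ) + 1)) with hZ
  have hZm : ∀ j, MeasurableSet (Z j) := by
    intro j
    apply IsCompact.measurableSet
    exact (hK.prod isCompact_Icc).image (by fun_prop)
  have hmem : ∀ y, y ∈ ⋃ j, Z j ↔ ∃ t : ℝ, 0 < t ∧ y + t • u ∈ K := by
    intro y
    rw [mem_iUnion]
    constructor
    · rintro ⟨j, ⟨x, t⟩, ⟨hx, ht⟩, rfl⟩
      refine ⟨t, lt_of_lt_of_le (by positivity) ht.1, ?_⟩
      show x - t • u + t • u ∈ K
      rwa [sub_add_cancel]
    · rintro ⟨t, ht, hy⟩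
      obtain ⟨j1, hj1⟩ := exists_nat_one_div_lt ht
      obtain ⟨j2, hj2⟩ := exists_nat_gt t
      refine ⟨max j1 j2, (y + t • u, t), ⟨hy, ?_, ?_⟩, ?_⟩
      · have : (j1 : ℝ) ≤ (max j1 j2 : ℕ) := by exact_mod_cast le_max_left _ _
        refine le_trans ?_ hj1.le
        apply one_div_le_one_div_of_le (by positivity)
        linarith
      · have : (j2 : ℝ) ≤ (max j1 j2 : ℕ) := by exact_mod_cast le_max_right _ _
        show t ≤ _
        linarith
      · show y + t • u - t • u = y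
        rw [add_sub_cancel_right]
  have hL : ν (K \ ⋃ j, Z j) = 0 := by
    apply h
    · exact hK.measurableSet.diff (MeasurableSet.iUnion hZm)
    · rintro y ⟨hy1, hy2⟩ y' ⟨hy1', hy2'⟩ hq
      rw [hmem] at hy2 hy2'
      push Not at hy2 hy2'
      have hd := pu_ker hu (d := y - y') (by rw [map_sub, hq, sub_self])
      set c := ⟪u, y - y'⟫ with hc
      rcases lt_trichotomy c 0 with h0 | h0 | h0
      · exfalso
        apply hy2 (-c) (by linarith)
        have : y + (-c) • u = y' := by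
          rw [neg_smul, ← hd]
          abel
        rwa [this]
      · rw [h0, zero_smul, sub_eq_zero] at hd
        exact hd
      · exfalso
        apply hy2' c h0
        have : y' + c • u = y := by
          rw [← hd]
          abel
        rwa [this]
  have h1 : ∀ᵐ y ∂ν, y ∈ K := by rw [ae_iff]; exact hνK
  have h2 : ∀ᵐ y ∂ν, y ∉ K \ ⋃ j, Z j := by
    rw [ae_iff]
    exact measure_mono_null (fun y hy => not_not.1 hy) hL
  filter_upwards [h1, h2] with y h1 h2
  refine ⟨h1, ?_⟩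
  rw [← hmem]
  by_contra hcon
  exact h2 ⟨h1, hcon⟩

/-- the measure of the directions -/
noncomputable def PB (m : ℕ) : Measure (En (m + 1) × En (m + 1)) :=
  (volume.restrict (ball (0 : En (m + 1)) 1)).prod (volume.restrict (ball (0 : En (m + 1)) 1))

instance : IsFiniteMeasure (volume.restrict (ball (0 : En (m + 1)) 1)) :=
  ⟨by rw [Measure.restrict_apply_univ]; exact measure_ball_lt_top⟩

instance : IsFiniteMeasure (PB m) := by
  unfold PB
  infer_instance

lemma ball_inv (g : En (m + 1) ≃ₗᵢ[ℝ] En (m + 1)) :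
    (volume.restrict (ball (0 : En (m + 1)) 1)).map g = volume.restrict (ball 0 1) := by
  have h2 := (g.measurePreserving).restrict_preimage (s := ball (0 : En (m + 1)) 1)
    measurableSet_ball
  have h3 : ⇑g ⁻¹' ball (0 : En (m + 1)) 1 = ball 0 1 := by
    ext z
    simp
  rw [h3] at h2
  exact h2.map_eq

lemma PB_inv (g : En (m + 1) ≃ₗᵢ[ℝ] En (m + 1)) : (PB m).map (Prod.map g g) = PB m := by
  unfold PB
  rw [← Measure.map_prod_map _ _ g.continuous.measurable g.continuous.measurable, ball_inv]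

/-- the tube -/
lemma tube {u : En (m + 1)} (hu : ‖u‖ = 1) {ε : ℝ} (hε : 0 < ε) :
    volume {x : En (m + 1) | ‖x‖ < 1 ∧ ‖x‖ ^ 2 - ⟪u, x⟫ ^ 2 ≤ ε ^ 2} ≤
      ENNReal.ofReal (ε ^ m) * volume (ball (0 : En (m + 1)) 2) := by
  let W : Submodule ℝ (En (m + 1)) := (ℝ ∙ u)ᗮ
  have hu0 : u ≠ 0 := by
    intro h
    rw [h, norm_zero] at hu
    exact zero_ne_one hu
  have hfr : Module.finrank ℝ W = m := by
    have h1 := Submodule.finrank_add_finrank_orthogonal (ℝ ∙ u)
    rw [finrank_span_singleton hu0, finrank_euclideanSpace, Fintype.card_fin] at h1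
    show Module.finrank ℝ (ℝ ∙ u)ᗮ = m
    omega
  have h := trans_le (E := En (m + 1)) (F := W) volume (fun x => W.orthogonalProjectionOnto x)
    (fun z => (z : En (m + 1))) (by fun_prop) (by fun_prop) (by
      intro A z
      rw [map_add, Submodule.orthogonalProjectionOnto_mem_subspace_eq_self]) one_pos
    (fun z hz => hz.le) hε.le
  rw [hfr, div_one] at h
  refine (measure_mono ?_).trans h
  rintro x ⟨hx1, hx2⟩
  refine ⟨hx1, ?_⟩
  have h3 := Submodule.norm_sq_eq_add_norm_sq_starProjection x (ℝ ∙ u)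
  rw [Submodule.starProjection_unit_singleton ℝ hu, norm_smul, hu, Real.norm_eq_abs,
        mul_one, sq_abs] at h3
  have h4 : ‖(ℝ ∙ u)ᗮ.starProjection x‖ = ‖W.orthogonalProjectionOnto x‖ := rfl
  rw [h4] at h3
  have h5 : ‖W.orthogonalProjectionOnto x‖ ^ 2 ≤ ε ^ 2 := by linarith
  exact (sq_le_sq₀ (norm_nonneg _) hε.le).1 h5

/-- transversality of equivariant families -/
lemma equiv_bound (u : En (m + 1) × En (m + 1) → En (m + 1)) (hu : Measurable u)
    (heq : ∀ (g : En (m + 1) ≃ₗᵢ[ℝ] En (m + 1)) (o), u (Prod.map g g o) = g (u o))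
    (hn : ∀ᵐ o ∂(PB m), ‖u o‖ = 1) : ∃ C : ℝ, 0 < C ∧ ∀ w : En (m + 1), w ≠ 0 → ∀ δ : ℝ, 0 < δ →
      PB m {o | ‖pu (u o) w‖ ≤ δ} ≤ ENNReal.ofReal (C * (δ / ‖w‖) ^ m) := by
  set v1 := volume (ball (0 : En (m + 1)) 1) with hv1
  set v2 := volume (ball (0 : En (m + 1)) 2) with hv2
  have hv1p : v1 ≠ 0 := (measure_ball_pos _ _ one_pos).ne'
  have hv1t : v1 ≠ ∞ := measure_ball_lt_top.ne
  have hv2t : v2 ≠ ∞ := measure_ball_lt_top.ne
  set q : ℝ≥0∞ := PB m univ * v2 / v1 with hq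
  have hqt : q ≠ ∞ := ENNReal.div_ne_top (ENNReal.mul_ne_top (measure_ne_top _ _) hv2t) hv1p
  refine ⟨q.toReal + 1, by positivity, fun w hw δ hδ => ?_⟩
  have hw0 : 0 < ‖w‖ := norm_pos_iff.2 hw
  set ε := δ / ‖w‖ with hε
  have hε0 : 0 < ε := by positivity
  set Bs : En (m + 1) → Set (En (m + 1) × En (m + 1)) := fun e =>
    {o | ‖u o‖ = 1 ∧ 1 - ⟪u o, e⟫ ^ 2 ≤ ε ^ 2} with hBs
  have hBm : ∀ e, MeasurableSet (Bs e) := by
    intro e
    have h1 : Measurable (fun o => (⟪u o, e⟫ : ℝ)) := Measurable.inner (𝕜 := ℝ) hu measurable_const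
    have h2 : Measurable (fun o => 1 - ⟪u o, e⟫ ^ 2) := measurable_const.sub (h1.pow_const 2)
    exact (measurableSet_eq_fun hu.norm measurable_const).inter
      (measurableSet_le h2 measurable_const)
  -- independence of the direction
  have hind : ∀ e e' : En (m + 1), ‖e‖ = ‖e'‖ → PB m (Bs e') = PB m (Bs e) := by
    intro e e' hee
    obtain ⟨g, hg⟩ := exists_iso hee
    rw [← PB_inv g, Measure.map_apply (g.continuous.measurable.prodMap g.continuous.measurable)
      (hBm e')]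
    rw [PB_inv g]
    congr 1
    ext o
    show (‖u (Prod.map g g o)‖ = 1 ∧ 1 - ⟪u (Prod.map g g o), e'⟫ ^ 2 ≤ ε ^ 2) ↔
      (‖u o‖ = 1 ∧ 1 - ⟪u o, e⟫ ^ 2 ≤ ε ^ 2)
    rw [heq, g.norm_map, ← hg, g.inner_map_map]
  set e : En (m + 1) := ‖w‖⁻¹ • w with he
  have hen : ‖e‖ = 1 := by
    rw [he, norm_smul, norm_inv, norm_norm, inv_mul_cancel₀ hw0.ne']
  have hsub : PB m {o | ‖pu (u o) w‖ ≤ δ} ≤ PB m (Bs e) := by
    apply measure_mono_ae
    filter_upwards [hn] with o ho h1
    have h1' : ‖pu (u o) w‖ ≤ δ := h1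
    refine ⟨ho, ?_⟩
    have h2 := pu_norm ho w
    have h3 : ‖w‖ ^ 2 - ⟪u o, w⟫ ^ 2 ≤ δ ^ 2 := by
      rw [← h2]
      exact pow_le_pow_left₀ (norm_nonneg _) h1' 2
    rw [he, inner_smul_right, mul_pow, hε, div_pow, inv_pow]
    have h4 : 0 < ‖w‖ ^ 2 := by positivity
    rw [le_div_iff₀ h4]
    have h5 : (1 - (‖w‖ ^ 2)⁻¹ * ⟪u o, w⟫ ^ 2) * ‖w‖ ^ 2 = ‖w‖ ^ 2 - ⟪u o, w⟫ ^ 2 := by
      field_simp
    rw [h5]
    exact h3
  -- averaging
  set S : Set (En (m + 1) × (En (m + 1) × En (m + 1))) :=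
    {p | ‖u p.2‖ = 1 ∧ 1 - ⟪u p.2, dir p.1⟫ ^ 2 ≤ ε ^ 2} with hS
  have hSm : MeasurableSet S := by
    have hu' : Measurable (fun p : En (m + 1) × (En (m + 1) × En (m + 1)) => u p.2) :=
      hu.comp measurable_snd
    have hd : Measurable (fun p : En (m + 1) × (En (m + 1) × En (m + 1)) => dir p.1) :=
      Pool.Agent.W646.AG.measurable_dir.comp measurable_fst
    have h1 : Measurable (fun p : En (m + 1) × (En (m + 1) × En (m + 1)) =>
      (⟪u p.2, dir p.1⟫ : ℝ)) := Measurable.inner (𝕜 := ℝ) hu' hd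
    have h2 : Measurable (fun p : En (m + 1) × (En (m + 1) × En (m + 1)) =>
      1 - ⟪u p.2, dir p.1⟫ ^ 2) := measurable_const.sub (h1.pow_const 2)
    exact (measurableSet_eq_fun hu'.norm measurable_const).inter
      (measurableSet_le h2 measurable_const)
  have k1 : ((volume.restrict (ball (0 : En (m + 1)) 1)).prod (PB m)) S = v1 * PB m (Bs e) := by
    rw [Measure.prod_apply hSm]
    have h1 : ∀ᵐ x ∂(volume.restrict (ball (0 : En (m + 1)) 1)),
        PB m (Prod.mk x ⁻¹' S) = PB m (Bs e) := by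
      refine ae_restrict_of_ae ?_
      have : ∀ᵐ z ∂(volume : Measure (En (m + 1))), z ≠ 0 := by
        have h0 : (volume : Measure (En (m + 1))) {0} = 0 := measure_singleton 0
        rw [ae_iff]
        simp
      filter_upwards [this] with x hx
      exact hind e (dir x) (by rw [hen, Pool.Agent.W646.AG.norm_dir hx])
    rw [lintegral_congr_ae h1, lintegral_const, Measure.restrict_apply_univ, mul_comm]
  have k2 : ((volume.restrict (ball (0 : En (m + 1)) 1)).prod (PB m)) S ≤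
      ENNReal.ofReal (ε ^ m) * v2 * PB m univ := by
    rw [Measure.prod_apply_symm hSm]
    have h1 : ∀ o, (volume.restrict (ball (0 : En (m + 1)) 1)) ((fun x => (x, o)) ⁻¹' S) ≤
        ENNReal.ofReal (ε ^ m) * v2 := by
      intro o
      by_cases ho : ‖u o‖ = 1
      · rw [Measure.restrict_apply' measurableSet_ball]
        refine (measure_mono ?_).trans (tube ho hε0)
        rintro x ⟨⟨_, hx1⟩, hx2⟩
        rw [mem_ball_zero_iff] at hx2
        refine ⟨hx2, ?_⟩
        by_cases hx0 : x = 0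
        · rw [hx0, norm_zero, inner_zero_right]
          nlinarith [sq_nonneg ε]
        · have hx1' : 1 - ⟪u o, dir x⟫ ^ 2 ≤ ε ^ 2 := hx1
          have hxn : 0 < ‖x‖ := norm_pos_iff.2 hx0
          have h2 : ⟪u o, x⟫ = ‖x‖ * ⟪u o, dir x⟫ := by
            unfold dir
            rw [inner_smul_right]
            field_simp
          rw [h2, mul_pow]
          have h3 : ‖x‖ ^ 2 ≤ 1 := by nlinarith
          have h4 : ‖x‖ ^ 2 * (1 - ⟪u o, dir x⟫ ^ 2) ≤ ‖x‖ ^ 2 * ε ^ 2 :=
            mul_le_mul_of_nonneg_left hx1' (by positivity)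
          have h5 : ‖x‖ ^ 2 * ε ^ 2 ≤ 1 * ε ^ 2 := mul_le_mul_of_nonneg_right h3 (by positivity)
          linarith
      · have h2 : (fun x => (x, o)) ⁻¹' S = ∅ := by
          ext x
          simp only [mem_preimage, mem_empty_iff_false, iff_false]
          intro hx
          exact ho hx.1
        rw [h2, measure_empty]
        exact zero_le
    refine (lintegral_mono h1).trans (le_of_eq ?_)
    rw [lintegral_const]
  rw [k1] at k2
  refine hsub.trans ?_
  have k3 : PB m (Bs e) ≤ ENNReal.ofReal (ε ^ m) * q := by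
    rw [hq, ← ENNReal.mul_le_mul_iff_right hv1p hv1t]
    refine k2.trans (le_of_eq ?_)
    rw [mul_comm v1, mul_assoc (ENNReal.ofReal (ε ^ m)) (_ / _) v1, ENNReal.div_mul_cancel hv1p hv1t]
    ring
  refine k3.trans ?_
  rw [mul_comm (q.toReal + 1), ENNReal.ofReal_mul (by positivity)]
  gcongr
  rw [← ENNReal.ofReal_toReal hqt]
  exact ENNReal.ofReal_le_ofReal (by rw [ENNReal.toReal_ofReal ENNReal.toReal_nonneg]; linarith)

/-- the component of the second vector orthogonal to the first -/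
noncomputable def orp (z : En (m + 1) × En (m + 1)) : En (m + 1) :=
  z.2 - ⟪dir z.1, z.2⟫ • dir z.1

/-- the second direction -/
noncomputable def u2 (α : ℝ) (z : En (m + 1) × En (m + 1)) : En (m + 1) :=
  Real.cos α • dir z.1 + Real.sin α • dir (orp z)

lemma dir_map (g : En (m + 1) ≃ₗᵢ[ℝ] En (m + 1)) (z : En (m + 1)) : g (dir z) = dir (g z) :=
  dr_map g z

lemma orp_map (g : En (m + 1) ≃ₗᵢ[ℝ] En (m + 1)) (z : En (m + 1) × En (m + 1)) :
    orp (Prod.map g g z) = g (orp z) := by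
  unfold orp
  rw [map_sub, map_smul, Prod.map_fst, Prod.map_snd, dir_map, ← dir_map, g.inner_map_map]

lemma u2_map (α : ℝ) (g : En (m + 1) ≃ₗᵢ[ℝ] En (m + 1)) (z : En (m + 1) × En (m + 1)) :
    u2 α (Prod.map g g z) = g (u2 α z) := by
  unfold u2
  rw [map_add, map_smul, map_smul, orp_map, Prod.map_fst, dir_map, dir_map]

lemma orp_meas : Measurable (orp : En (m + 1) × En (m + 1) → En (m + 1)) := by
  unfold orp
  have hd : Measurable (fun z : En (m + 1) × En (m + 1) => dir z.1) :=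
    Pool.Agent.W646.AG.measurable_dir.comp measurable_fst
  have h1 : Measurable (fun z : En (m + 1) × En (m + 1) => (⟪dir z.1, z.2⟫ : ℝ)) :=
    Measurable.inner (𝕜 := ℝ) hd measurable_snd
  have h2 : Measurable (fun z : En (m + 1) × En (m + 1) => (⟪dir z.1, z.2⟫ : ℝ) • dir z.1) :=
    h1.smul hd
  exact measurable_snd.sub h2

lemma u2_meas (α : ℝ) : Measurable (u2 α : En (m + 1) × En (m + 1) → En (m + 1)) := by
  unfold u2
  have hd : Measurable (fun z : En (m + 1) × En (m + 1) => dir z.1) :=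
    Pool.Agent.W646.AG.measurable_dir.comp measurable_fst
  have h1 : Measurable (fun z : En (m + 1) × En (m + 1) => Real.cos α • dir z.1) :=
    hd.const_smul (Real.cos α)
  have h2 : Measurable (fun z : En (m + 1) × En (m + 1) => Real.sin α • dir (orp z)) :=
    (Pool.Agent.W646.AG.measurable_dir.comp orp_meas).const_smul (Real.sin α)
  exact h1.add h2

lemma inner_orp {z : En (m + 1) × En (m + 1)} (hz : z.1 ≠ 0) : ⟪dir z.1, orp z⟫ = 0 := by
  unfold orp
  rw [inner_sub_right, inner_smul_right, real_inner_self_eq_norm_sq,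
    Pool.Agent.W646.AG.norm_dir hz]
  ring

lemma inner_dorp {z : En (m + 1) × En (m + 1)} (hz : z.1 ≠ 0) : ⟪dir z.1, dir (orp z)⟫ = 0 := by
  have h : dir (orp z) = ‖orp z‖⁻¹ • orp z := rfl
  rw [h, inner_smul_right, inner_orp hz, mul_zero]

lemma u2_norm {α : ℝ} {z : En (m + 1) × En (m + 1)} (hz : z.1 ≠ 0) (ho : orp z ≠ 0) :
    ‖u2 α z‖ = 1 := by
  have h2 : ‖u2 α z‖ ^ 2 = 1 := by
    unfold u2
    rw [norm_add_sq_real, inner_smul_left, inner_smul_right, inner_dorp hz, norm_smul, norm_smul,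
      Pool.Agent.W646.AG.norm_dir hz, Pool.Agent.W646.AG.norm_dir ho]
    simp only [mul_zero, mul_one, add_zero, Real.norm_eq_abs, sq_abs]
    linarith [Real.sin_sq_add_cos_sq α]
  have h3 := norm_nonneg (u2 α z)
  nlinarith

lemma inner_u2 {α : ℝ} {z : En (m + 1) × En (m + 1)} (hz : z.1 ≠ 0) :
    ⟪dir z.1, u2 α z⟫ = Real.cos α := by
  unfold u2
  rw [inner_add_right, inner_smul_right, inner_smul_right, inner_dorp hz,
    real_inner_self_eq_norm_sq, Pool.Agent.W646.AG.norm_dir hz]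
  ring

lemma ae_ne (hm : 1 ≤ m) : ∀ᵐ z ∂(PB m), z.1 ≠ 0 ∧ orp z ≠ 0 := by
  have h0 : ∀ᵐ z ∂(volume.restrict (ball (0 : En (m + 1)) 1)), z ≠ 0 := by
    refine ae_restrict_of_ae ?_
    have h0 : (volume : Measure (En (m + 1))) {0} = 0 := measure_singleton 0
    rw [ae_iff]
    simp
  have h1 : ∀ᵐ z ∂(PB m), z.1 ≠ 0 := Measure.quasiMeasurePreserving_fst.ae h0
  have h2 : ∀ᵐ z ∂(PB m), orp z ≠ 0 := by
    unfold PB
    have hms : MeasurableSet {z : En (m + 1) × En (m + 1) | orp z ≠ 0} :=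
      (measurableSet_eq_fun orp_meas measurable_const).compl
    rw [Measure.ae_prod_iff_ae_ae hms]
    refine Eventually.of_forall fun x => ?_
    refine ae_restrict_of_ae ?_
    have h3 : (volume : Measure (En (m + 1))) ((ℝ ∙ dir x : Submodule ℝ (En (m + 1))) :
        Set (En (m + 1))) = 0 := by
      apply Measure.addHaar_submodule
      intro htop
      have h4 : Module.finrank ℝ (ℝ ∙ dir x : Submodule ℝ (En (m + 1))) ≤ 1 := by
        have := finrank_span_le_card (R := ℝ) ({dir x} : Set (En (m + 1)))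
        simpa using this
      rw [htop, finrank_top, finrank_euclideanSpace, Fintype.card_fin] at h4
      omega
    rw [ae_iff]
    refine measure_mono_null ?_ h3
    intro y hy
    have hy' : orp (x, y) = 0 := not_not.1 hy
    unfold orp at hy'
    rw [sub_eq_zero] at hy'
    have hy2 : y = ⟪dir x, y⟫ • dir x := hy'
    rw [hy2]
    exact Submodule.smul_mem _ _ (Submodule.mem_span_singleton_self _)
  filter_upwards [h1, h2] with z h1 h2 using ⟨h1, h2⟩

end Pool.Agent.H83.AG
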