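import Pool.Agent.H83.AG.Small
import Pool.Graph.R_seed8.W646.AG.Scale

/-!
Small dimension, all angles: conclusion.
-/

set_option autoImplicit false
set_option linter.unusedSectionVars false

open MeasureTheory Metric Set Filter Topology
open scoped ENNReal NNReal RealInnerProductSpace

namespace Pool.Agent.H83.AG

open Pool.Agent.W778.AG

lemma meas_aux {m : ℕ} (f : En (m + 1) × En (m + 1) → En (m + 1)) (hf : Measurable f) :
    Measurable (fun z : (En (m + 1) × En (m + 1)) × En (m + 1) => pu (m := m) (f z.1) z.2) := by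
  have h1 : Measurable (fun z : (En (m + 1) × En (m + 1)) × En (m + 1) => f z.1) :=
    hf.comp measurable_fst
  have h2 : Measurable (fun z : (En (m + 1) × En (m + 1)) × En (m + 1) => (f z.1, z.2)) :=
    h1.prodMk measurable_snd
  have h3 := pu_meas (m := m)
  have h4 := h3.comp h2
  exact h4

/-- small dimension, all angles -/
theorem small : S_SMALL := by
  intro n hn K hK hdim α hα0 hα1
  obtain ⟨m, rfl⟩ : ∃ m, n = m + 1 := ⟨n - 1, by omega⟩
  have hm : 1 ≤ m := by omega
  obtain ⟨r, hr1, hr2⟩ := ENNReal.lt_iff_exists_nnreal_btwn.1 hdim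
  have hs : (m : ℝ) < (r : ℝ) := by
    have h1 : (((m + 1 : ℕ) : ℝ) - 1) = (m : ℝ) := by push_cast; ring
    rw [h1, ENNReal.ofReal_natCast] at hr1
    exact_mod_cast hr1
  have hs0 : 0 < (r : ℝ) := lt_of_le_of_lt (Nat.cast_nonneg m) hs
  obtain ⟨C', ν, hC', hν, hνK, hball⟩ := frostman K hK (r : ℝ) hs0
    (by rw [ENNReal.ofReal_coe_nnreal]; exact hr2)
  have hd : Measurable (fun z : En (m + 1) × En (m + 1) => dir z.1) :=
    Pool.Agent.W646.AG.measurable_dir.comp measurable_fst
  have hne := ae_ne hm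
  have hn1 : ∀ᵐ z ∂(PB m), ‖dir z.1‖ = 1 := by
    filter_upwards [hne] with z hz
    exact Pool.Agent.W646.AG.norm_dir hz.1
  have hn2 : ∀ᵐ z ∂(PB m), ‖u2 α z‖ = 1 := by
    filter_upwards [hne] with z hz
    exact u2_norm hz.1 hz.2
  obtain ⟨C1, hC1, t1⟩ := equiv_bound (m := m) (fun z : En (m + 1) × En (m + 1) => dir z.1) hd
    (fun g z => by rw [Prod.map_fst, dir_map]) hn1
  obtain ⟨C2, hC2, t2⟩ := equiv_bound (m := m) (u2 (m := m) α) (u2_meas (m := m) α)
    (u2_map (m := m) α) hn2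
  have m1 := meas_aux (m := m) (fun z : En (m + 1) × En (m + 1) => dir z.1) hd
  have m2 := meas_aux (m := m) (u2 (m := m) α) (u2_meas (m := m) α)
  have s1 := Pool.Agent.W342.AG.slice (m + 1) m (En (m + 1) × En (m + 1)) inferInstance (PB m)
    (fun z => pu (m := m) (dir z.1)) C1 C' (r : ℝ) ν K inferInstance m1 t1 inferInstance hK hνK hs
    hC1 hC' hball
  have s2 := Pool.Agent.W342.AG.slice (m + 1) m (En (m + 1) × En (m + 1)) inferInstance (PB m)
    (fun z => pu (m := m) (u2 (m := m) α z)) C2 C' (r : ℝ) ν K inferInstance m2 t2 inferInstance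
    hK hνK hs hC2 hC' hball
  have hP0 : PB m ≠ 0 := by
    intro h
    have h1 : PB m univ = 0 := by rw [h]; rfl
    unfold PB at h1
    rw [← univ_prod_univ, Measure.prod_prod, Measure.restrict_apply_univ] at h1
    have h2 := (measure_ball_pos (volume : Measure (En (m + 1))) 0 one_pos).ne'
    exact (mul_ne_zero h2 h2) h1
  have hneb : NeBot (ae (PB m)) := ae_neBot.2 hP0
  obtain ⟨z, ⟨hz1, hz2⟩, hu1, hu2, hL1, hL2⟩ :=
    (hne.and (hn1.and (hn2.and (s1.and s2)))).exists
  have g1 := ray_null (m := m) hu1 ν K hK hνK hL1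
  have g2 := ray_null (m := m) hu2 ν K hK hνK hL2
  obtain ⟨y, ⟨hyK, t, ht, hx⟩, ⟨_, t', ht', hx'⟩⟩ := (g1.and g2).exists
  have hne1 : ∀ {v : En (m + 1)} {t : ℝ}, ‖v‖ = 1 → 0 < t → y + t • v ≠ y := by
    intro v t hv ht h
    have h1 : t • v = 0 := by
      have := congrArg (fun w => w - y) h
      simpa using this
    rcases smul_eq_zero.1 h1 with h2 | h2
    · exact ht.ne' h2
    · rw [h2, norm_zero] at hv
      exact zero_ne_one hv
  refine hasAngle_of hα0 hα1 hx hyK hx' (hne1 hu1 ht) (hne1 hu2 ht') ?_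
  rw [add_sub_cancel_left, add_sub_cancel_left, Pool.Agent.W646.AG.dir_smul ht,
    Pool.Agent.W646.AG.dir_smul ht']
  have hdd : ∀ {v : En (m + 1)}, ‖v‖ = 1 → dir v = v := by
    intro v hv
    unfold dir
    rw [hv, inv_one, one_smul]
  rw [hdd hu1, hdd hu2, inner_u2 hz1]

end Pool.Agent.H83.AG
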