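import Pool.Graph.R_seed8.W778.AG.Stmts

/-!
Transversality from translations.
-/

set_option autoImplicit false
set_option linter.unusedSectionVars false

open MeasureTheory Metric Set Filter Topology
open scoped ENNReal NNReal RealInnerProductSpace

namespace Pool.Agent.H83.AG

variable {E F : Type*} [NormedAddCommGroup E] [MeasurableSpace E] [BorelSpace E]
  [SecondCountableTopology E] [NormedAddCommGroup F] [InnerProductSpace ℝ F]
  [FiniteDimensional ℝ F] [MeasurableSpace F] [BorelSpace F]

/-- transversality from translations -/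
lemma trans_le (μ : Measure E) [SFinite μ] [μ.IsAddRightInvariant] (f : E → F) (S : F → E)
    (hf : Measurable f) (hS : Measurable S) (h1 : ∀ A z, f (A + S z) = f A + z) {c : ℝ}
    (hc : 0 < c) (h2 : ∀ z, ‖z‖ < c → ‖S z‖ ≤ 1) {δ : ℝ} (hδ : 0 ≤ δ) :
    μ {A | ‖A‖ < 1 ∧ ‖f A‖ ≤ δ} ≤
      ENNReal.ofReal ((δ / c) ^ Module.finrank ℝ F) * μ (ball 0 2) := by
  set G : Set E := {A | ‖A‖ < 1 ∧ ‖f A‖ ≤ δ} with hG
  have hGm : MeasurableSet G :=
    (measurableSet_lt measurable_norm measurable_const).inter
      (measurableSet_le hf.norm measurable_const)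
  have e1 : ∀ z, ∫⁻ A, G.indicator 1 (A - S z) ∂μ = μ G := by
    intro z
    have h3 : (fun A => G.indicator (1 : E → ℝ≥0∞) (A - S z)) =
        ((fun A => A + -S z) ⁻¹' G).indicator 1 := by
      funext A
      by_cases hA : A - S z ∈ G
      · rw [indicator_of_mem hA, indicator_of_mem]
        · rfl
        · show A + -S z ∈ G
          rwa [← sub_eq_add_neg]
      · rw [indicator_of_notMem hA, indicator_of_notMem]
        show ¬ (A + -S z ∈ G)
        rwa [← sub_eq_add_neg]
    rw [h3, lintegral_indicator_one, measure_preimage_add_right]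
    exact (measurable_add_const (-S z)) hGm
  have e2 : ∫⁻ z in ball (0 : F) c, ∫⁻ A, G.indicator 1 (A - S z) ∂μ =
      volume (ball (0 : F) c) * μ G := by
    simp_rw [e1]
    rw [lintegral_const, Measure.restrict_apply_univ, mul_comm]
  have e3 : ∫⁻ z in ball (0 : F) c, ∫⁻ A, G.indicator 1 (A - S z) ∂μ =
      ∫⁻ A, (∫⁻ z in ball (0 : F) c, G.indicator 1 (A - S z) ∂volume) ∂μ := by
    apply lintegral_lintegral_swap
    apply Measurable.aemeasurable
    have h4 : Measurable (G.indicator (1 : E → ℝ≥0∞)) := measurable_one.indicator hGm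
    exact h4.comp (measurable_snd.sub (hS.comp measurable_fst))
  have e4 : ∀ A, ∫⁻ z in ball (0 : F) c, G.indicator 1 (A - S z) ≤
      (ball (0 : E) 2).indicator (fun _ => volume (closedBall (0 : F) δ)) A := by
    intro A
    by_cases hA : A ∈ ball (0 : E) 2
    · rw [indicator_of_mem hA]
      calc ∫⁻ z in ball (0 : F) c, G.indicator 1 (A - S z) ≤
          ∫⁻ z, G.indicator 1 (A - S z) := setLIntegral_le_lintegral _ _
        _ ≤ ∫⁻ z, (closedBall (f A) δ).indicator 1 z := by
            apply lintegral_mono
            intro z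
            show G.indicator 1 (A - S z) ≤ (closedBall (f A) δ).indicator 1 z
            by_cases hz : A - S z ∈ G
            · rw [indicator_of_mem hz, indicator_of_mem]
              · exact le_rfl
              · rw [mem_closedBall, dist_comm, dist_eq_norm]
                have h5 : f A = f (A - S z) + z := by
                  rw [← h1, sub_add_cancel]
                rw [h5, add_sub_cancel_right]
                exact hz.2
            · rw [indicator_of_notMem hz]
              exact zero_le
        _ = volume (closedBall (0 : F) δ) := by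
            rw [lintegral_indicator_one measurableSet_closedBall]
            exact Measure.addHaar_closedBall_center _ _ _
    · rw [indicator_of_notMem hA, nonpos_iff_eq_zero]
      rw [setLIntegral_eq_zero_iff measurableSet_ball]
      · refine Eventually.of_forall fun z hz => ?_
        apply indicator_of_notMem
        intro hz2
        apply hA
        rw [mem_ball_zero_iff] at hz ⊢
        have h5 : A = (A - S z) + S z := by rw [sub_add_cancel]
        rw [h5]
        refine (norm_add_le _ _).trans_lt ?_
        have h6 := hz2.1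
        have h7 := h2 z hz
        linarith
      · have h4 : Measurable (G.indicator (1 : E → ℝ≥0∞)) := measurable_one.indicator hGm
        exact h4.comp (measurable_const.sub hS)
  have e5 : volume (ball (0 : F) c) * μ G ≤ volume (closedBall (0 : F) δ) * μ (ball 0 2) := by
    rw [← e2, e3]
    refine (lintegral_mono e4).trans (le_of_eq ?_)
    rw [lintegral_indicator measurableSet_ball, lintegral_const, Measure.restrict_apply_univ]
  rw [Measure.addHaar_ball_of_pos _ _ hc, Measure.addHaar_closedBall _ _ hδ] at e5
  set v := volume (ball (0 : F) 1) with hv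
  have hv0 : v ≠ 0 := (measure_ball_pos _ _ one_pos).ne'
  have hvt : v ≠ ∞ := measure_ball_lt_top.ne
  set d := Module.finrank ℝ F with hd
  have e6 : ENNReal.ofReal (c ^ d) * μ G ≤ ENNReal.ofReal (δ ^ d) * μ (ball 0 2) := by
    have h8 : v * (ENNReal.ofReal (c ^ d) * μ G) ≤ v * (ENNReal.ofReal (δ ^ d) * μ (ball 0 2)) := by
      calc v * (ENNReal.ofReal (c ^ d) * μ G) = ENNReal.ofReal (c ^ d) * v * μ G := by ring
        _ ≤ ENNReal.ofReal (δ ^ d) * v * μ (ball 0 2) := e5
        _ = _ := by ring
    exact (ENNReal.mul_le_mul_iff_right hv0 hvt).1 h8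
  have hcd : 0 < c ^ d := by positivity
  have hk0 : ENNReal.ofReal (c ^ d) ≠ 0 := (ENNReal.ofReal_pos.2 hcd).ne'
  rw [div_pow, ENNReal.ofReal_div_of_pos hcd]
  rw [← ENNReal.mul_le_mul_iff_right hk0 ENNReal.ofReal_ne_top]
  refine e6.trans (le_of_eq ?_)
  rw [← mul_assoc, ENNReal.mul_div_cancel hk0 ENNReal.ofReal_ne_top]

end Pool.Agent.H83.AG
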